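import Pool.Agent.H891.Carpet.Pack

/-!
The lower bound (A) for the Assouad dimension.
-/

namespace Pool.Agent.H891.Carp

open Set MeasureTheory Filter Topology
open scoped ENNReal NNReal

theorem card_ge_of_sum (V : Finset (ℝ × ℝ)) (t δ : ℝ) (ht : 0 ≤ t) (hδ : 0 < δ)
    (h1 : ∀ v ∈ V, 0 < v.2 ∧ v.2 ≤ δ) (h2 : ∑ v ∈ V, v.2 ^ t = 1) :
    δ ^ (-t) ≤ V.card := by
  have h3 : (1 : ℝ) ≤ V.card * δ ^ t := by
    rw [← h2, ← nsmul_eq_mul]
    apply Finset.sum_le_card_nsmul
    intro v hv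
    exact Real.rpow_le_rpow (h1 v hv).1.le (h1 v hv).2 ht
  rw [Real.rpow_neg hδ.le]
  have h4 : 0 < δ ^ t := by positivity
  rw [inv_le_iff_one_le_mul₀ h4]
  exact h3

theorem A : S_A := by
  intro α β _ _ _ _ P Q I o o' F h hmix j v t hv ht e1 e2
  classical
  obtain ⟨κ, ρ, k1, k2, r1, r2, hb, hb'⟩ := bounds₂ P Q
  obtain ⟨A, hA, hAlt⟩ := hmix
  apply le_sInf
  rintro s ⟨t', ht', rfl, C, hC, hcov⟩
  apply ENNReal.ofReal_le_ofReal
  have hcA := P.pos A.1
  have hdA := Q.pos A.2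
  set κ0 : ℝ := P.c A.1 / Q.c A.2 with hκ0
  have hκ0p : 0 < κ0 := div_pos hcA hdA
  have hκ01 : κ0 < 1 := (div_lt_one hdA).2 hAlt
  have hdj := Q.pos j
  -- a cell of row j
  have hrow : ∃ k, (k, j) ∈ I := by
    by_contra hno
    push Not at hno
    have : rowCells I j = ∅ := by
      ext k
      simp [mem_rowCells, hno k]
    rw [this] at e1
    simp at e1
  obtain ⟨kj, hkj⟩ := hrow
  rw [add_comm]
  apply le_of_rpow_le (v + t) t' (9 * C * (2 / (κ0 * κ)) ^ t')
  intro δ hδ0 hδ1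
  obtain ⟨n, hn⟩ := exists_pow_lt_of_lt_one hδ0 r2
  have hκδ : κ * δ < 1 := by nlinarith
  -- the packings
  obtain ⟨V, hV1, hV2, hV3⟩ := pack1 P (rowCells I j) v κ ρ e1 k1 k2 r1 hb
    (fun n l e => ∀ z0 ∈ F, ∃ z ∈ F, l ≤ z o ∧ z o ≤ l + e ∧
      z o' = Q.c j ^ n * z0 o' + iter (Q.c j) (Q.a j) n)
    (by
      intro n z0 hz0
      obtain ⟨z, hz, -, h2⟩ := h.iterate (kj, j) hkj n z0 hz0
      obtain ⟨a, b⟩ := h.unit z hz o
      exact ⟨z, hz, a, by linarith, h2⟩)
    (by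
      intro n k hk l e hP z0 hz0
      obtain ⟨z, hz, a, b, c⟩ := hP z0 hz0
      obtain ⟨z', hz', h1, h2⟩ := h.maps (k, j) (mem_rowCells.1 hk) z hz
      have hc := P.pos k
      refine ⟨z', hz', ?_, ?_, ?_⟩
      · rw [h1]; nlinarith
      · rw [h1]; nlinarith
      · rw [h2, c, iter]; ring) n δ hn.le hκδ
  obtain ⟨Y, hY1, hY2, hY3⟩ := pack1 Q (usedRows I) t κ ρ e2 k1 k2 r1 hb'
    (fun n l e => ∃ z ∈ F, l ≤ z o' ∧ z o' ≤ l + e)
    (by
      intro n
      obtain ⟨z, hz⟩ := h.nonempty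
      obtain ⟨a, b⟩ := h.unit z hz o'
      exact ⟨z, hz, a, by linarith⟩)
    (by
      rintro n k hk l e ⟨z, hz, a, b⟩
      obtain ⟨k', hk'⟩ := mem_usedRows.1 hk
      obtain ⟨z', hz', h1, h2⟩ := h.maps (k', k) hk' z hz
      have hc := Q.pos k
      refine ⟨z', hz', ?_, ?_⟩
      · rw [h2]; nlinarith
      · rw [h2]; nlinarith) n δ hn.le hκδ
  have hVc : δ ^ (-v) ≤ V.card := card_ge_of_sum V v δ hv hδ0
    (fun w hw => ⟨lt_of_lt_of_le (by positivity) (hV1 w hw).2.2.2.1, (hV1 w hw).2.2.2.2⟩) hV2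
  have hYc : δ ^ (-t) ≤ Y.card := card_ge_of_sum Y t δ ht hδ0
    (fun w hw => ⟨lt_of_lt_of_le (by positivity) (hY1 w hw).2.2.2.1, (hY1 w hw).2.2.2.2⟩) hY2
  -- the choice of m
  obtain ⟨m', hm1, hm2⟩ := exists_nat_pow_near_of_lt_one (show 0 < Q.c j ^ n by positivity)
    (pow_le_one₀ hdj.le (Q.lt_one j).le) hκ0p hκ01
  set m := m' + 1 with hm
  set H := P.c A.1 ^ m with hH
  have hHp : 0 < H := by positivity
  set g := Q.c A.2 ^ m * Q.c j ^ n with hg
  have hgH : H ≤ g := by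
    have h1 : H = κ0 ^ m * Q.c A.2 ^ m := by
      rw [hH, hκ0, div_pow, div_mul_cancel₀ _ (by positivity)]
    rw [h1, hg, mul_comm]
    apply mul_le_mul_of_nonneg_left hm1.le (by positivity)
  have hgH2 : g ≤ H / κ0 := by
    have h1 : H / κ0 = κ0 ^ m' * Q.c A.2 ^ m := by
      rw [hH, hκ0, hm, div_pow, pow_succ, pow_succ]
      field_simp
    rw [h1, hg, mul_comm]
    apply mul_le_mul_of_nonneg_right hm2 (by positivity)
  -- the points
  have hpt : ∀ q : (ℝ × ℝ) × (ℝ × ℝ), ∃ z : Plane, q.1 ∈ V → q.2 ∈ Y → z ∈ F ∧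
      (H * q.1.1 + iter (P.c A.1) (P.a A.1) m ≤ z o ∧
        z o ≤ H * q.1.1 + iter (P.c A.1) (P.a A.1) m + H * q.1.2) ∧
      (g * q.2.1 + (Q.c A.2 ^ m * iter (Q.c j) (Q.a j) n + iter (Q.c A.2) (Q.a A.2) m) ≤ z o' ∧
        z o' ≤ g * q.2.1 + (Q.c A.2 ^ m * iter (Q.c j) (Q.a j) n +
          iter (Q.c A.2) (Q.a A.2) m) + g * q.2.2) := by
    rintro ⟨w, y⟩
    by_cases hw : w ∈ V
    · by_cases hy : y ∈ Y
      · obtain ⟨z0, hz0, a1, a2⟩ := (hY1 y hy).1
        obtain ⟨z, hz, b1, b2, b3⟩ := (hV1 w hw).1 z0 hz0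
        obtain ⟨z', hz', c1, c2⟩ := h.iterate A hA m z hz
        refine ⟨z', fun _ _ => ⟨hz', ⟨?_, ?_⟩, ?_, ?_⟩⟩
        · rw [c1]; simp only; nlinarith
        · rw [c1]; simp only; nlinarith
        · rw [c2, b3]
          have hgp : 0 < g := by positivity
          have : g * y.1 ≤ g * z0 o' := mul_le_mul_of_nonneg_left a1 hgp.le
          simp only
          rw [mul_add, ← mul_assoc, ← hg]
          linarith
        · rw [c2, b3]
          have hgp : 0 < g := by positivity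
          have : g * z0 o' ≤ g * (y.1 + y.2) := mul_le_mul_of_nonneg_left a2 hgp.le
          simp only
          rw [mul_add, ← mul_assoc, ← hg]
          linarith
      · exact ⟨0, fun _ h => (hy h).elim⟩
    · exact ⟨0, fun h _ => (hw h).elim⟩
  choose z hz using hpt
  have hVne : V.Nonempty := by
    rcases V.eq_empty_or_nonempty with h0 | h0
    · rw [h0] at hV2; simp at hV2
    · exact h0
  have hYne : Y.Nonempty := by
    rcases Y.eq_empty_or_nonempty with h0 | h0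
    · rw [h0] at hY2; simp at hY2
    · exact h0
  obtain ⟨v0, hv0⟩ := hVne
  obtain ⟨y0, hy0⟩ := hYne
  have hgp : 0 < g := by positivity
  -- range of coordinates
  have hrange : ∀ q ∈ V ×ˢ Y, (iter (P.c A.1) (P.a A.1) m ≤ z q o ∧
      z q o ≤ iter (P.c A.1) (P.a A.1) m + H) ∧
      ((Q.c A.2 ^ m * iter (Q.c j) (Q.a j) n + iter (Q.c A.2) (Q.a A.2) m) ≤ z q o' ∧
      z q o' ≤ (Q.c A.2 ^ m * iter (Q.c j) (Q.a j) n + iter (Q.c A.2) (Q.a A.2) m) + g) := by
    intro q hq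
    obtain ⟨hq1, hq2⟩ := Finset.mem_product.1 hq
    obtain ⟨-, ⟨a1, a2⟩, b1, b2⟩ := hz q hq1 hq2
    obtain ⟨-, c1, c2, -, -⟩ := hV1 _ hq1
    obtain ⟨-, d1, d2, -, -⟩ := hY1 _ hq2
    have e1 := mul_nonneg hHp.le c1
    have e2 := mul_le_mul_of_nonneg_left c2 hHp.le
    have e3 := mul_nonneg hgp.le d1
    have e4 := mul_le_mul_of_nonneg_left d2 hgp.le
    refine ⟨⟨by linarith, by linarith⟩, by linarith, by linarith⟩
  set r : ℝ := H * (κ * δ) with hr
  set R : ℝ := 2 * H / κ0 with hR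
  have hrp : 0 < r := by positivity
  have hrR : r < R := by
    have h1 : r < H := by rw [hr]; nlinarith
    have h2 : H ≤ R := by
      rw [hR, le_div_iff₀ hκ0p]; nlinarith
    linarith
  have hx : z (v0, y0) ∈ F := (hz (v0, y0) hv0 hy0).1
  have hball : ∀ q ∈ V ×ˢ Y, z q ∈ Metric.closedBall (z (v0, y0)) R ∩ F := by
    intro q hq
    obtain ⟨hq1, hq2⟩ := Finset.mem_product.1 hq
    refine ⟨?_, (hz q hq1 hq2).1⟩
    rw [Metric.mem_closedBall]
    refine (dist_le_add _ _ h.ne).trans ?_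
    obtain ⟨⟨a1, a2⟩, a3, a4⟩ := hrange q hq
    obtain ⟨⟨b1, b2⟩, b3, b4⟩ := hrange (v0, y0) (Finset.mem_product.2 ⟨hv0, hy0⟩)
    have h1 : |z q o - z (v0, y0) o| ≤ H := abs_le.2 ⟨by linarith, by linarith⟩
    have h2 : |z q o' - z (v0, y0) o'| ≤ g := abs_le.2 ⟨by linarith, by linarith⟩
    have h3 : H ≤ H / κ0 := by
      rw [le_div_iff₀ hκ0p]; nlinarith
    have h4 : R = H / κ0 + H / κ0 := by rw [hR]; ring
    linarith
  have hbdd : Bornology.IsBounded (Metric.closedBall (z (v0, y0)) R ∩ F) :=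
    Metric.isBounded_closedBall.subset inter_subset_left
  have hcount := card_le_coverNum (V ×ˢ Y) z r _ hbdd hrp hball 9 (by
    intro T hT hTd
    have h1 : T ⊆ T.image Prod.fst ×ˢ T.image Prod.snd := by
      intro q hq
      exact Finset.mem_product.2 ⟨Finset.mem_image_of_mem _ hq, Finset.mem_image_of_mem _ hq⟩
    have hf : ∀ w : ℝ × ℝ, ∃ q, w ∈ T.image Prod.fst → q ∈ T ∧ q.1 = w := by
      intro w
      by_cases hw : w ∈ T.image Prod.fst
      · obtain ⟨q, hq, hq'⟩ := Finset.mem_image.1 hw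
        exact ⟨q, fun _ => ⟨hq, hq'⟩⟩
      · exact ⟨(v0, y0), fun h => (hw h).elim⟩
    choose f hf using hf
    have hs : ∀ w : ℝ × ℝ, ∃ q, w ∈ T.image Prod.snd → q ∈ T ∧ q.2 = w := by
      intro w
      by_cases hw : w ∈ T.image Prod.snd
      · obtain ⟨q, hq, hq'⟩ := Finset.mem_image.1 hw
        exact ⟨q, fun _ => ⟨hq, hq'⟩⟩
      · exact ⟨(v0, y0), fun h => (hw h).elim⟩
    choose fs hfs using hs
    have c1 : (T.image Prod.fst).card ≤ 3 := by
      apply card_intervals_le_three (T.image Prod.fst)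
        (fun w => H * w.1 + iter (P.c A.1) (P.a A.1) m) (fun w => H * w.2)
        (fun w => z (f w) o) r hrp
      · intro w hw
        obtain ⟨h2, h3⟩ := hf w hw
        obtain ⟨h4, h5⟩ := Finset.mem_product.1 (hT h2)
        have h6 := (hz _ h4 h5).2.1
        rw [h3] at h6
        exact h6
      · intro w hw
        obtain ⟨h2, h3⟩ := hf w hw
        obtain ⟨h4, h5⟩ := Finset.mem_product.1 (hT h2)
        rw [h3] at h4
        exact mul_le_mul_of_nonneg_left (hV1 w h4).2.2.2.1 hHp.le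
      · intro w hw w' hw' hne
        obtain ⟨h2, h3⟩ := hf w hw
        obtain ⟨h2', h3'⟩ := hf w' hw'
        have h4 := (Finset.mem_product.1 (hT h2)).1
        have h4' := (Finset.mem_product.1 (hT h2')).1
        rw [h3] at h4
        rw [h3'] at h4'
        rcases hV3 w h4 w' h4' hne with h5 | h5
        · left; have := mul_le_mul_of_nonneg_left h5 hHp.le; linarith
        · right; have := mul_le_mul_of_nonneg_left h5 hHp.le; linarith
      · intro w hw w' hw'
        exact (abs_sub_le_dist _ _ o).trans (hTd _ (hf w hw).1 _ (hf w' hw').1)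
    have c2 : (T.image Prod.snd).card ≤ 3 := by
      apply card_intervals_le_three (T.image Prod.snd)
        (fun w => g * w.1 + (Q.c A.2 ^ m * iter (Q.c j) (Q.a j) n +
          iter (Q.c A.2) (Q.a A.2) m)) (fun w => g * w.2)
        (fun w => z (fs w) o') r hrp
      · intro w hw
        obtain ⟨h2, h3⟩ := hfs w hw
        obtain ⟨h4, h5⟩ := Finset.mem_product.1 (hT h2)
        have h6 := (hz _ h4 h5).2.2
        rw [h3] at h6
        exact h6
      · intro w hw
        obtain ⟨h2, h3⟩ := hfs w hw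
        obtain ⟨h4, h5⟩ := Finset.mem_product.1 (hT h2)
        rw [h3] at h5
        calc r = H * (κ * δ) := rfl
          _ ≤ g * (κ * δ) := mul_le_mul_of_nonneg_right hgH (by positivity)
          _ ≤ g * w.2 := mul_le_mul_of_nonneg_left (hY1 w h5).2.2.2.1 hgp.le
      · intro w hw w' hw' hne
        obtain ⟨h2, h3⟩ := hfs w hw
        obtain ⟨h2', h3'⟩ := hfs w' hw'
        have h4 := (Finset.mem_product.1 (hT h2)).2
        have h4' := (Finset.mem_product.1 (hT h2')).2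
        rw [h3] at h4
        rw [h3'] at h4'
        rcases hY3 w h4 w' h4' hne with h5 | h5
        · left; have := mul_le_mul_of_nonneg_left h5 hgp.le; linarith
        · right; have := mul_le_mul_of_nonneg_left h5 hgp.le; linarith
      · intro w hw w' hw'
        exact (abs_sub_le_dist _ _ o').trans (hTd _ (hfs w hw).1 _ (hfs w' hw').1)
    calc T.card ≤ (T.image Prod.fst ×ˢ T.image Prod.snd).card := Finset.card_le_card h1
      _ = (T.image Prod.fst).card * (T.image Prod.snd).card := Finset.card_product _ _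
      _ ≤ 3 * 3 := Nat.mul_le_mul c1 c2
      _ = 9 := by norm_num)
  have hmain := hcov r R hrp hrR _ hx
  have hRr : R / r = 2 / (κ0 * κ) * δ⁻¹ := by
    rw [hR, hr]; field_simp
  rw [Finset.card_product] at hcount
  have hcount' : (V.card : ℝ) * Y.card ≤ 9 * coverNum r (Metric.closedBall (z (v0, y0)) R ∩ F) := by
    exact_mod_cast hcount
  calc δ ^ (-(v + t)) = δ ^ (-v) * δ ^ (-t) := by
        rw [← Real.rpow_add hδ0]; congr 1; ring
    _ ≤ V.card * Y.card := mul_le_mul hVc hYc (by positivity) (by positivity)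
    _ ≤ 9 * coverNum r (Metric.closedBall (z (v0, y0)) R ∩ F) := hcount'
    _ ≤ 9 * (C * (R / r) ^ t') := by linarith
    _ = 9 * C * (2 / (κ0 * κ)) ^ t' * δ ^ (-t') := by
        rw [hRr, Real.mul_rpow (by positivity) (by positivity), Real.inv_rpow hδ0.le,
          Real.rpow_neg hδ0.le]
        ring

end Pool.Agent.H891.Carp
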