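import Pool.Agent.H891.Carpet.Stm

/-!
MP_0a98f6_an, part B: the Hausdorff dimension is at most the lower box dimension.
-/

set_option autoImplicit false

namespace Pool.Agent.H891.Carp

open Set MeasureTheory Filter Topology
open scoped ENNReal NNReal

/-- bounded sets have finite covers by sets of small diameter, and the covering number is
attained -/
theorem coverNum_spec {F : Set Plane} (hF : Bornology.IsBounded F) {r : ℝ} (hr : 0 < r) :
    ∃ U : Fin (coverNum r F) → Set Plane, F ⊆ ⋃ i, U i ∧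
      ∀ i, Metric.ediam (U i) ≤ ENNReal.ofReal r := by
  have hne : {n : ℕ | ∃ U : Fin n → Set Plane, F ⊆ ⋃ i, U i ∧
      ∀ i, Metric.ediam (U i) ≤ ENNReal.ofReal r}.Nonempty := by
    have hc : IsCompact (closure F) := hF.isCompact_closure
    obtain ⟨t, -, htf, hcov⟩ := hc.finite_cover_balls (half_pos hr)
    obtain ⟨n, f, hf⟩ : ∃ (n : ℕ) (f : Fin n → Plane), Set.range f = t := by
      have := htf.fintype
      refine ⟨Fintype.card t, fun i => ((Fintype.equivFin t).symm i : Plane), ?_⟩
      ext x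
      constructor
      · rintro ⟨i, rfl⟩
        exact ((Fintype.equivFin t).symm i).2
      · intro hx
        exact ⟨Fintype.equivFin t ⟨x, hx⟩, by simp⟩
    refine ⟨n, fun i => Metric.ball (f i) (r / 2), ?_, ?_⟩
    · intro x hx
      have h1 := hcov (subset_closure hx)
      simp only [mem_iUnion] at h1 ⊢
      obtain ⟨y, hy, hxy⟩ := h1
      rw [← hf] at hy
      obtain ⟨i, rfl⟩ := hy
      exact ⟨i, hxy⟩
    · intro i
      refine Metric.ediam_le fun x hx y hy => ?_
      rw [edist_dist]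
      refine ENNReal.ofReal_le_ofReal ?_
      have h1 := Metric.mem_ball.1 hx
      have h2 := Metric.mem_ball.1 hy
      have h3 := dist_triangle_right x y (f i)
      linarith
  exact Nat.sInf_mem hne

/-- (B) -/
theorem B : S_B := by
  intro F hF
  by_contra hcon
  rw [not_le] at hcon
  obtain ⟨t, h1, h2⟩ := ENNReal.lt_iff_exists_nnreal_btwn.1 hcon
  obtain ⟨t', h3, h4⟩ := ENNReal.lt_iff_exists_nnreal_btwn.1 h1
  have h4' : (t' : ℝ) < t := by exact_mod_cast h4
  have hfreq : ∃ᶠ r : ℝ in 𝓝[>] 0,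
      ENNReal.ofReal (Real.log (coverNum r F) / (- Real.log r)) < t' :=
    Filter.frequently_lt_of_liminf_lt (by isBoundedDefault) h3
  have hseq : ∀ n : ℕ, ∃ r : ℝ, 0 < r ∧ r < 1 / ((n : ℝ) + 2) ∧
      ENNReal.ofReal (Real.log (coverNum r F) / (- Real.log r)) < t' := by
    intro n
    have he : ∀ᶠ r : ℝ in 𝓝[>] 0, 0 < r ∧ r < 1 / ((n : ℝ) + 2) := by
      have : Ioo (0:ℝ) (1 / ((n : ℝ) + 2)) ∈ 𝓝[>] (0:ℝ) :=
        Ioo_mem_nhdsGT (by positivity)
      filter_upwards [this] with r hr
      exact hr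
    obtain ⟨r, hr1, hr2⟩ := (hfreq.and_eventually he).exists
    exact ⟨r, hr2.1, hr2.2, hr1⟩
  choose r hr0 hr1 hr2 using hseq
  have hrlt1 : ∀ n, r n < 1 := fun n => (hr1 n).trans_le (by
    rw [div_le_one (by positivity)]
    have : (0:ℝ) ≤ n := Nat.cast_nonneg n
    linarith)
  have hrlim : Tendsto r atTop (𝓝 0) := by
    refine tendsto_of_tendsto_of_tendsto_of_le_of_le tendsto_const_nhds ?_
      (fun n => (hr0 n).le) (fun n => (hr1 n).le)
    have h5 := tendsto_one_div_add_atTop_nhds_zero_nat (𝕜 := ℝ)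
    have h6 := (tendsto_add_atTop_iff_nat 1).2 h5
    refine h6.congr fun n => ?_
    push_cast
    ring
  have hN : ∀ n, (coverNum (r n) F : ℝ) ≤ (r n) ^ (-(t' : ℝ)) := by
    intro n
    have hlog : 0 < - Real.log (r n) := by
      have := Real.log_neg (hr0 n) (hrlt1 n)
      linarith
    have h5 : Real.log (coverNum (r n) F) / (- Real.log (r n)) < t' := by
      by_contra h6
      rw [not_lt] at h6
      have h7 := ENNReal.ofReal_le_ofReal h6
      rw [ENNReal.ofReal_coe_nnreal] at h7
      exact absurd (hr2 n) (not_lt.2 h7)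
    rw [div_lt_iff₀ hlog] at h5
    rcases Nat.eq_zero_or_pos (coverNum (r n) F) with h0 | h0
    · rw [h0, Nat.cast_zero]
      exact Real.rpow_nonneg (hr0 n).le _
    · have h0' : (0:ℝ) < coverNum (r n) F := by exact_mod_cast h0
      rw [← Real.exp_log h0', Real.rpow_def_of_pos (hr0 n)]
      refine Real.exp_le_exp.2 ?_
      linarith [mul_comm (Real.log (r n)) (t' : ℝ)]
  choose U hU1 hU2 using fun n => coverNum_spec hF (hr0 n)
  have key := Measure.hausdorffMeasure_le_liminf_sum (β := ℕ)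
    (ι := fun n => Fin (coverNum (r n) F)) t F (l := atTop)
    (fun n => ENNReal.ofReal (r n)) (by
      rw [← ENNReal.ofReal_zero]
      exact ENNReal.tendsto_ofReal hrlim) U
    (Eventually.of_forall hU2) (Eventually.of_forall hU1)
  have hle : ∀ n, ∑ i, Metric.ediam (U n i) ^ (t : ℝ) ≤
      ENNReal.ofReal ((r n) ^ ((t : ℝ) - t')) := by
    intro n
    calc ∑ i, Metric.ediam (U n i) ^ (t : ℝ)
        ≤ ∑ _i : Fin (coverNum (r n) F), ENNReal.ofReal ((r n) ^ (t : ℝ)) := by
          refine Finset.sum_le_sum fun i _ => ?_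
          rw [← ENNReal.ofReal_rpow_of_nonneg (hr0 n).le (NNReal.coe_nonneg t)]
          exact ENNReal.rpow_le_rpow (hU2 n i) (NNReal.coe_nonneg t)
      _ = ENNReal.ofReal ((coverNum (r n) F : ℝ) * (r n) ^ (t : ℝ)) := by
          rw [Finset.sum_const, Finset.card_univ, Fintype.card_fin, nsmul_eq_mul,
            ENNReal.ofReal_mul (Nat.cast_nonneg _), ENNReal.ofReal_natCast]
      _ ≤ _ := by
          refine ENNReal.ofReal_le_ofReal ?_
          calc (coverNum (r n) F : ℝ) * (r n) ^ (t : ℝ)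
              ≤ (r n) ^ (-(t' : ℝ)) * (r n) ^ (t : ℝ) :=
                mul_le_mul_of_nonneg_right (hN n) (Real.rpow_nonneg (hr0 n).le _)
            _ = _ := by
                rw [← Real.rpow_add (hr0 n)]
                congr 1
                ring
  have hlim : Tendsto (fun n => ENNReal.ofReal ((r n) ^ ((t : ℝ) - t'))) atTop (𝓝 0) := by
    rw [← ENNReal.ofReal_zero]
    refine ENNReal.tendsto_ofReal ?_
    have h5 : (0:ℝ) < (t : ℝ) - t' := by linarith
    have h6 := (Real.continuousAt_rpow_const 0 ((t : ℝ) - t') (Or.inr h5.le)).tendsto.comp hrlim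
    rw [Real.zero_rpow h5.ne'] at h6
    exact h6
  have hzero : liminf (fun n => ∑ i, Metric.ediam (U n i) ^ (t : ℝ)) atTop = 0 := by
    have h5 : Tendsto (fun n => ∑ i, Metric.ediam (U n i) ^ (t : ℝ)) atTop (𝓝 0) :=
      tendsto_of_tendsto_of_tendsto_of_le_of_le tendsto_const_nhds hlim (fun _ => zero_le) hle
    exact h5.liminf_eq
  rw [hzero] at key
  have htop := hausdorffMeasure_of_lt_dimH h2
  rw [htop] at key
  exact absurd key (by simp)

end Pool.Agent.H891.Carp
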