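import Pool.Agent.H891.Carpet.Stm

/-!
Basic facts about the plane and covering numbers.
-/

namespace Pool.Agent.H891.Carp

open Set MeasureTheory Filter Topology
open scoped ENNReal NNReal

theorem abs_sub_le_dist (x y : Plane) (i : Fin 2) : |x i - y i| ≤ dist x y := by
  have h := EuclideanSpace.dist_eq x y
  rw [h, ← Real.sqrt_sq_eq_abs]
  apply Real.sqrt_le_sqrt
  have : (x i - y i) ^ 2 = dist (x i) (y i) ^ 2 := by
    rw [Real.dist_eq, sq_abs]
  rw [this]
  exact Finset.single_le_sum (f := fun i => dist (x i) (y i) ^ 2) (fun j _ => sq_nonneg _)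
    (Finset.mem_univ i)

theorem sum_two {o o' : Fin 2} (h : o ≠ o') (f : Fin 2 → ℝ) : ∑ i, f i = f o + f o' := by
  fin_cases o <;> fin_cases o' <;> simp_all [Fin.sum_univ_two, add_comm]

theorem dist_le_add (x y : Plane) {o o' : Fin 2} (h : o ≠ o') :
    dist x y ≤ |x o - y o| + |x o' - y o'| := by
  rw [EuclideanSpace.dist_eq, sum_two h (fun i => dist (x i) (y i) ^ 2)]
  rw [Real.dist_eq, Real.dist_eq]
  apply Real.sqrt_le_iff.2
  constructor
  · positivity
  · nlinarith [abs_nonneg (x o - y o), abs_nonneg (x o' - y o')]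

theorem ext_two {x y : Plane} {o o' : Fin 2} (h : o ≠ o') (h1 : x o = y o)
    (h2 : x o' = y o') : x = y := by
  have := dist_le_add x y h
  rw [h1, h2] at this
  simp only [sub_self, abs_zero, add_zero] at this
  exact dist_le_zero.1 this

/-- closed rectangle -/
def Rect (o o' : Fin 2) (x y w h : ℝ) : Set Plane :=
  {z | z o ∈ Icc x (x + w) ∧ z o' ∈ Icc y (y + h)}

theorem ediam_rect {o o' : Fin 2} (hoo : o ≠ o') (x y w h r : ℝ) (hr : w + h ≤ r) :
    Metric.ediam (Rect o o' x y w h) ≤ ENNReal.ofReal r := by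
  apply Metric.ediam_le
  intro z hz z' hz'
  rw [edist_dist]
  apply ENNReal.ofReal_le_ofReal
  refine (dist_le_add z z' hoo).trans (le_trans ?_ hr)
  obtain ⟨⟨a1, a2⟩, a3, a4⟩ := hz
  obtain ⟨⟨b1, b2⟩, b3, b4⟩ := hz'
  exact add_le_add (abs_le.2 ⟨by linarith, by linarith⟩) (abs_le.2 ⟨by linarith, by linarith⟩)

theorem coverNum_le {ι : Type*} (s : Finset ι) (U : ι → Set Plane) (r : ℝ) (E : Set Plane)
    (hE : E ⊆ ⋃ i ∈ s, U i) (hU : ∀ i ∈ s, Metric.ediam (U i) ≤ ENNReal.ofReal r) :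
    coverNum r E ≤ s.card := by
  apply Nat.sInf_le
  refine ⟨fun i => U (s.equivFin.symm i).1, ?_, fun i => hU _ (s.equivFin.symm i).2⟩
  intro z hz
  obtain ⟨i, hi⟩ := mem_iUnion.1 (hE hz)
  obtain ⟨his, hz'⟩ := mem_iUnion.1 hi
  refine mem_iUnion.2 ⟨s.equivFin ⟨i, his⟩, ?_⟩
  simpa using hz'

theorem covers_nonempty (r : ℝ) {E : Set Plane} (hb : Bornology.IsBounded E) (hr : 0 < r) :
    {n : ℕ | ∃ U : Fin n → Set Plane, E ⊆ ⋃ i, U i ∧
    ∀ i, Metric.ediam (U i) ≤ ENNReal.ofReal r}.Nonempty := by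
  have htb : TotallyBounded E := by
    obtain ⟨R, hR⟩ := hb.subset_closedBall 0
    exact (isCompact_closedBall (0 : Plane) R).totallyBounded.subset hR
  obtain ⟨t, htf, ht⟩ := Metric.totallyBounded_iff.1 htb (r / 2) (by positivity)
  have := htf.fintype
  refine ⟨t.toFinset.card, fun i => Metric.ball (t.toFinset.equivFin.symm i).1 (r / 2), ?_, ?_⟩
  · intro z hz
    obtain ⟨y, hy⟩ := mem_iUnion.1 (ht hz)
    obtain ⟨hy1, hy2⟩ := mem_iUnion.1 hy
    refine mem_iUnion.2 ⟨t.toFinset.equivFin ⟨y, by simpa using hy1⟩, ?_⟩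
    simpa using hy2
  · intro i
    apply Metric.ediam_le
    intro z hz z' hz'
    rw [edist_dist]
    apply ENNReal.ofReal_le_ofReal
    have h1 := Metric.mem_ball.1 hz
    have h2 := Metric.mem_ball.1 hz'
    have h3 := dist_triangle_right z z' (t.toFinset.equivFin.symm i).1
    linarith

theorem exists_cover (r : ℝ) {E : Set Plane} (hb : Bornology.IsBounded E) (hr : 0 < r) :
    ∃ U : Fin (coverNum r E) → Set Plane, E ⊆ ⋃ i, U i ∧
      ∀ i, Metric.ediam (U i) ≤ ENNReal.ofReal r := Nat.sInf_mem (covers_nonempty r hb hr)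

theorem coverNum_mono (r : ℝ) {E E' : Set Plane} (h : E ⊆ E') (hb : Bornology.IsBounded E')
    (hr : 0 < r) : coverNum r E ≤ coverNum r E' := by
  obtain ⟨U, hU1, hU2⟩ := exists_cover r hb hr
  exact Nat.sInf_le ⟨U, h.trans hU1, hU2⟩

/-- Lower bound for the covering number by points. -/
theorem card_le_coverNum {ι : Type*} (s : Finset ι) (z : ι → Plane) (r : ℝ) (E : Set Plane)
    (hb : Bornology.IsBounded E) (hr : 0 < r) (hz : ∀ i ∈ s, z i ∈ E) (m : ℕ)
    (h : ∀ t ⊆ s, (∀ i ∈ t, ∀ j ∈ t, dist (z i) (z j) ≤ r) → t.card ≤ m) :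
    s.card ≤ m * coverNum r E := by
  classical
  obtain ⟨U, hU1, hU2⟩ := exists_cover r hb hr
  have h1 : s ⊆ Finset.univ.biUnion (fun l : Fin (coverNum r E) => s.filter (fun i => z i ∈ U l)) := by
    intro i hi
    obtain ⟨l, hl⟩ := mem_iUnion.1 (hU1 (hz i hi))
    exact Finset.mem_biUnion.2 ⟨l, Finset.mem_univ _, Finset.mem_filter.2 ⟨hi, hl⟩⟩
  calc s.card ≤ _ := Finset.card_le_card h1
    _ ≤ ∑ l : Fin (coverNum r E), (s.filter (fun i => z i ∈ U l)).card := Finset.card_biUnion_le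
    _ ≤ ∑ l : Fin (coverNum r E), m := by
        apply Finset.sum_le_sum
        intro l _
        apply h _ (Finset.filter_subset _ _)
        intro i hi j hj
        have h2 := Metric.edist_le_ediam_of_mem (Finset.mem_filter.1 hi).2 (Finset.mem_filter.1 hj).2
        have h3 := h2.trans (hU2 l)
        rw [edist_dist] at h3
        exact (ENNReal.ofReal_le_ofReal_iff hr.le).1 h3
    _ = m * coverNum r E := by simp [mul_comm]

/-- A separated set of reals in an interval of length at most 2r has at most 3 elements. -/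
theorem card_le_three (s : Finset ℝ) (r : ℝ) (hr : 0 < r) (a : ℝ)
    (h1 : ∀ x ∈ s, a ≤ x ∧ x ≤ a + 2 * r) (h2 : ∀ x ∈ s, ∀ y ∈ s, x ≠ y → r ≤ |x - y|) :
    s.card ≤ 3 := by
  have hmap : ∀ x ∈ s, ⌊(x - a) / r⌋ ∈ Finset.Icc (0 : ℤ) 2 := by
    intro x hx
    obtain ⟨ha, hb⟩ := h1 x hx
    rw [Finset.mem_Icc]
    constructor
    · apply Int.floor_nonneg.2
      exact div_nonneg (by linarith) hr.le
    · have : (x - a) / r ≤ 2 := by
        rw [div_le_iff₀ hr]; linarith
      have h3 : (⌊(x - a) / r⌋ : ℝ) ≤ 2 := (Int.floor_le _).trans this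
      exact_mod_cast h3
  have hinj : Set.InjOn (fun x => ⌊(x - a) / r⌋) (s : Set ℝ) := by
    intro x hx y hy hxy
    by_contra hne
    have h3 := h2 x hx y hy hne
    have h4 := Int.abs_sub_lt_one_of_floor_eq_floor hxy
    have h5 : (x - a) / r - (y - a) / r = (x - y) / r := by ring
    rw [h5, abs_div, abs_of_pos hr, div_lt_one hr] at h4
    linarith
  have := Finset.card_le_card_of_injOn _ hmap hinj
  simpa using this

/-- Non-overlapping intervals of length at least r met by points within distance r: at most 3. -/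
theorem card_intervals_le_three {ι : Type*} (s : Finset ι) (l e x : ι → ℝ) (r : ℝ) (hr : 0 < r)
    (hx : ∀ i ∈ s, l i ≤ x i ∧ x i ≤ l i + e i) (he : ∀ i ∈ s, r ≤ e i)
    (hsep : ∀ i ∈ s, ∀ j ∈ s, i ≠ j → l i + e i ≤ l j ∨ l j + e j ≤ l i)
    (hd : ∀ i ∈ s, ∀ j ∈ s, |x i - x j| ≤ r) : s.card ≤ 3 := by
  classical
  rcases s.eq_empty_or_nonempty with rfl | hne
  · simp
  obtain ⟨i0, hi0, hmin⟩ := s.exists_min_image x hne
  -- choose sub-interval starts
  set g : ι → ℝ := fun i => max (l i) (x i - r) with hg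
  have hg1 : ∀ i ∈ s, l i ≤ g i ∧ g i + r ≤ l i + e i ∧ x i - r ≤ g i ∧ g i ≤ x i := by
    intro i hi
    obtain ⟨h1, h2⟩ := hx i hi
    have h3 := he i hi
    refine ⟨le_max_left _ _, ?_, le_max_right _ _, max_le h1 (by linarith)⟩
    rcases max_choice (l i) (x i - r) with h | h
    · rw [hg]; simp only [h]; linarith
    · rw [hg]; simp only [h]; linarith
  have hsep' : ∀ i ∈ s, ∀ j ∈ s, i ≠ j → r ≤ |g i - g j| := by
    intro i hi j hj hij
    obtain ⟨a1, a2, a3, a4⟩ := hg1 i hi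
    obtain ⟨b1, b2, b3, b4⟩ := hg1 j hj
    rcases hsep i hi j hj hij with h | h
    · rw [abs_sub_comm, le_abs]; left; linarith
    · rw [le_abs]; left; linarith
  have hinj : Set.InjOn g (s : Set ι) := by
    intro i hi j hj hij
    by_contra hne
    have := hsep' i hi j hj hne
    rw [hij] at this
    simp at this
    linarith
  rw [← Finset.card_image_of_injOn hinj]
  apply card_le_three (s.image g) r hr (x i0 - r)
  · intro y hy
    obtain ⟨i, hi, rfl⟩ := Finset.mem_image.1 hy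
    obtain ⟨a1, a2, a3, a4⟩ := hg1 i hi
    have h1 := hmin i hi
    have h2 := abs_le.1 (hd i hi i0 hi0)
    constructor <;> linarith [h2.1, h2.2]
  · intro y hy y' hy' hne
    obtain ⟨i, hi, rfl⟩ := Finset.mem_image.1 hy
    obtain ⟨j, hj, rfl⟩ := Finset.mem_image.1 hy'
    exact hsep' i hi j hj (fun h => hne (by rw [h]))

end Pool.Agent.H891.Carp
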