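import Pool.Agent.H891.Carpet.Basic

/-!
From carpets to sides.
-/

namespace Pool.Agent.H891.Carp

open Set MeasureTheory Filter Topology
open scoped ENNReal NNReal

/-- The side given by a strictly increasing list of cuts of the unit interval. -/
def sideOf (K : ℕ) (hK : 2 ≤ K) (x : Fin (K + 1) → ℝ) (hx : StrictMono x) (h0 : x 0 = 0)
    (h1 : x (Fin.last K) = 1) : Side (Fin K) where
  c k := x k.succ - x k.castSucc
  a k := x k.castSucc
  pos k := sub_pos.2 (hx (Fin.castSucc_lt_succ))
  lt_one k := by
    have a1 : 0 ≤ x k.castSucc := by rw [← h0]; exact hx.monotone (Fin.zero_le _)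
    have a2 : x k.succ ≤ 1 := by rw [← h1]; exact hx.monotone (Fin.le_last _)
    rcases Nat.eq_zero_or_pos k.val with hk | hk
    · have : x k.succ < 1 := by
        rw [← h1]
        apply hx
        rw [Fin.lt_def]
        simp only [Fin.val_succ, Fin.val_last]
        omega
      linarith
    · have : 0 < x k.castSucc := by
        rw [← h0]
        apply hx
        rw [Fin.lt_def]
        simpa using hk
      linarith
  nonneg k := by rw [← h0]; exact hx.monotone (Fin.zero_le _)
  le_one k := by
    have a2 : x k.succ ≤ 1 := by rw [← h1]; exact hx.monotone (Fin.le_last _)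
    linarith
  sep k l hkl := by
    rcases lt_or_gt_of_ne hkl with h | h
    · left
      have : x k.succ ≤ x l.castSucc := hx.monotone (by
        rw [Fin.le_def]; simp only [Fin.val_succ, Fin.val_castSucc]
        exact h)
      linarith
    · right
      have : x l.succ ≤ x k.castSucc := hx.monotone (by
        rw [Fin.le_def]; simp only [Fin.val_succ, Fin.val_castSucc]
        exact h)
      linarith

namespace Carpet

/-- the columns -/
def cols (Q : Carpet) : Side (Fin Q.K) := sideOf Q.K Q.hK Q.x Q.x_mono Q.x_zero Q.x_last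

/-- the rows -/
def rows (Q : Carpet) : Side (Fin Q.L) := sideOf Q.L Q.hL Q.y Q.y_mono Q.y_zero Q.y_last

theorem cols_c (Q : Carpet) (k : Fin Q.K) : Q.cols.c k = Q.width k := rfl

theorem rows_c (Q : Carpet) (k : Fin Q.L) : Q.rows.c k = Q.height k := rfl

theorem attr (Q : Carpet) (F : Set Plane) (h : Q.IsAttractor F) :
    Attr Q.cols Q.rows Q.cells 0 1 F := by
  obtain ⟨h1, h2, h3, h4⟩ := h
  refine ⟨by decide, h1, h2, h3, ?_, ?_⟩
  · intro i hi z hz
    refine ⟨Q.map i z, ?_, ?_, ?_⟩
    · rw [h4]
      exact mem_biUnion hi ⟨z, hz, rfl⟩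
    · simp [map, cols_c, cols, sideOf, width]
    · simp [map, rows_c, rows, sideOf, height]
  · intro z hz
    rw [h4] at hz
    obtain ⟨i, hi, z', hz', rfl⟩ := mem_iUnion₂.1 hz
    refine ⟨i, hi, z', hz', ?_, ?_⟩
    · simp [map, cols_c, cols, sideOf, width]
    · simp [map, rows_c, rows, sideOf, height]

end Carpet

/-- (T3) statement: the example of ordering (c). -/
def S_T3 : Prop := ∃ (Q : Carpet) (F : Set Plane), Q.IsAttractor F ∧ Q.Mixed ∧
  lowerDim F < dimH F ∧ dimH F = upperBoxDim F ∧ lowerBoxDim F = upperBoxDim F ∧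
  upperBoxDim F < assouadDim F

end Pool.Agent.H891.Carp
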