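import Pool.Agent.H891.Carpet.Basic

/-!
Covering lemmas and the upper bound (U) for the box dimension.
-/

namespace Pool.Agent.H891.Carp

open Set MeasureTheory Filter Topology
open scoped ENNReal NNReal

variable {α β : Type} [Fintype α] [Fintype β] [DecidableEq α] [DecidableEq β]

omit [DecidableEq α] in
theorem Side.bounds (P : Side α) : ∃ κ ρ : ℝ, 0 < κ ∧ κ < 1 ∧ 0 < ρ ∧ ρ < 1 ∧
    ∀ k, κ ≤ P.c k ∧ P.c k ≤ ρ := by
  classical
  rcases isEmpty_or_nonempty α with h | h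
  · exact ⟨1 / 2, 1 / 2, by norm_num, by norm_num, by norm_num, by norm_num,
      fun k => (h.false k).elim⟩
  · obtain ⟨k1, -, h1⟩ := Finset.univ.exists_min_image P.c ⟨Classical.arbitrary α, Finset.mem_univ _⟩
    obtain ⟨k2, -, h2⟩ := Finset.univ.exists_max_image P.c ⟨Classical.arbitrary α, Finset.mem_univ _⟩
    exact ⟨P.c k1, P.c k2, P.pos _, P.lt_one _, P.pos _, P.lt_one _,
      fun k => ⟨h1 k (Finset.mem_univ _), h2 k (Finset.mem_univ _)⟩⟩

omit [DecidableEq α] [DecidableEq β] in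
theorem bounds₂ (P : Side α) (Q : Side β) : ∃ κ ρ : ℝ, 0 < κ ∧ κ < 1 ∧ 0 < ρ ∧ ρ < 1 ∧
    (∀ k, κ ≤ P.c k ∧ P.c k ≤ ρ) ∧ ∀ k, κ ≤ Q.c k ∧ Q.c k ≤ ρ := by
  obtain ⟨κ, ρ, h1, h2, h3, h4, h5⟩ := P.bounds
  obtain ⟨κ', ρ', h1', h2', h3', h4', h5'⟩ := Q.bounds
  exact ⟨min κ κ', max ρ ρ', lt_min h1 h1', min_lt_of_left_lt h2, lt_max_of_lt_left h3,
    max_lt h4 h4', fun k => ⟨(min_le_left _ _).trans (h5 k).1, (h5 k).2.trans (le_max_left _ _)⟩,
    fun k => ⟨(min_le_right _ _).trans (h5' k).1, (h5' k).2.trans (le_max_right _ _)⟩⟩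

/-- One dimensional covering lemma. -/
theorem cov1 (P : Side α) (U : Finset α) (t κ ρ : ℝ) (ht : 0 ≤ t)
    (hsum : ∑ k ∈ U, P.c k ^ t ≤ 1) (hκ : 0 < κ) (hρ : 0 < ρ)
    (hb : ∀ k, κ ≤ P.c k ∧ P.c k ≤ ρ) (E : ℕ → Set ℝ) (hE : ∀ n, E n ⊆ Icc 0 1)
    (hstep : ∀ n, ∀ x ∈ E (n + 1), ∃ k ∈ U, ∃ y ∈ E n, x = P.c k * y + P.a k) :
    ∀ (n : ℕ) (δ : ℝ), ρ ^ n ≤ δ → κ * δ < 1 → ∃ s : Finset ℝ,
      (∀ x ∈ E n, ∃ y ∈ s, y ≤ x ∧ x ≤ y + δ) ∧ (s.card : ℝ) ≤ κ ^ (-t) * δ ^ (-t) := by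
  classical
  have base : ∀ (n : ℕ) (δ : ℝ), 1 ≤ δ → κ * δ < 1 → ∃ s : Finset ℝ,
      (∀ x ∈ E n, ∃ y ∈ s, y ≤ x ∧ x ≤ y + δ) ∧ (s.card : ℝ) ≤ κ ^ (-t) * δ ^ (-t) := by
    intro n δ h1 h2
    refine ⟨{0}, ?_, ?_⟩
    · intro x hx
      obtain ⟨a, b⟩ := hE n hx
      exact ⟨0, by simp, a, by linarith⟩
    · rw [← Real.mul_rpow hκ.le (by linarith)]
      simp only [Finset.card_singleton, Nat.cast_one]
      apply Real.one_le_rpow_of_pos_of_le_one_of_nonpos (by positivity) h2.le (by linarith)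
  intro n
  induction n with
  | zero =>
    intro δ h1 h2
    exact base 0 δ (by simpa using h1) h2
  | succ n ih =>
    intro δ h1 h2
    rcases le_or_gt 1 δ with h | h
    · exact base _ δ h h2
    have hδ : 0 < δ := lt_of_lt_of_le (by positivity) h1
    have key : ∀ k : α, ∃ s : Finset ℝ,
      (∀ x ∈ E n, ∃ y ∈ s, y ≤ x ∧ x ≤ y + δ / P.c k) ∧
        (s.card : ℝ) ≤ κ ^ (-t) * (δ / P.c k) ^ (-t) := by
      intro k
      have hc := P.pos k
      apply ih
      · rw [le_div_iff₀ hc]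
        calc ρ ^ n * P.c k ≤ ρ ^ n * ρ := by
              apply mul_le_mul_of_nonneg_left (hb k).2 (by positivity)
          _ = ρ ^ (n + 1) := by ring
          _ ≤ δ := h1
      · rw [← mul_div_assoc, div_lt_one hc]
        calc κ * δ < κ * 1 := by
              apply mul_lt_mul_of_pos_left h hκ
          _ ≤ P.c k := by rw [mul_one]; exact (hb k).1
    choose s hs1 hs2 using key
    refine ⟨U.biUnion (fun k => (s k).image (fun x => P.c k * x + P.a k)), ?_, ?_⟩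
    · intro x hx
      obtain ⟨k, hk, y, hy, rfl⟩ := hstep n x hx
      obtain ⟨z, hz, hz1, hz2⟩ := hs1 k y hy
      refine ⟨P.c k * z + P.a k, Finset.mem_biUnion.2 ⟨k, hk, Finset.mem_image.2 ⟨z, hz, rfl⟩⟩, ?_, ?_⟩
      · have := mul_le_mul_of_nonneg_left hz1 (P.pos k).le
        linarith
      · have := mul_le_mul_of_nonneg_left hz2 (P.pos k).le
        have h3 : P.c k * (z + δ / P.c k) = P.c k * z + δ := by
          rw [mul_add, mul_div_cancel₀ _ (P.pos k).ne']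
        linarith
    · calc ((U.biUnion (fun k => (s k).image (fun x => P.c k * x + P.a k))).card : ℝ)
          ≤ ∑ k ∈ U, (((s k).image (fun x => P.c k * x + P.a k)).card : ℝ) := by
            exact_mod_cast Finset.card_biUnion_le
        _ ≤ ∑ k ∈ U, ((s k).card : ℝ) := by
            apply Finset.sum_le_sum
            intro k _
            exact_mod_cast Finset.card_image_le
        _ ≤ ∑ k ∈ U, κ ^ (-t) * (δ / P.c k) ^ (-t) := Finset.sum_le_sum fun k _ => hs2 k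
        _ = κ ^ (-t) * δ ^ (-t) * ∑ k ∈ U, P.c k ^ t := by
            rw [Finset.mul_sum]
            apply Finset.sum_congr rfl
            intro k _
            rw [Real.div_rpow hδ.le (P.pos k).le, Real.rpow_neg (P.pos k).le t]
            field_simp
        _ ≤ κ ^ (-t) * δ ^ (-t) * 1 := by
            apply mul_le_mul_of_nonneg_left hsum (by positivity)
        _ = _ := mul_one _

/-- Two dimensional covering lemma. -/
theorem cov2 (P : Side α) (Q : Side β) (I : Finset (α × β)) (o o' : Fin 2) (F : Set Plane)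
    (h : Attr P Q I o o' F) (t1 t2 s1 s2 κ ρ : ℝ) (ht1 : 0 ≤ t1) (ht2 : 0 ≤ t2)
    (hs1 : t1 ≤ s1) (hs2 : t2 ≤ s2) (hκ : 0 < κ) (hκ1 : κ < 1) (hρ : 0 < ρ)
    (hb : ∀ k, κ ≤ P.c k ∧ P.c k ≤ ρ) (hb' : ∀ k, κ ≤ Q.c k ∧ Q.c k ≤ ρ)
    (e1 : ∑ k ∈ usedCols I, P.c k ^ t1 ≤ 1) (e2 : ∑ j ∈ usedRows I, Q.c j ^ t2 ≤ 1)
    (e3 : ∑ i ∈ I, P.c i.1 ^ t1 * Q.c i.2 ^ (s1 - t1) ≤ 1)
    (e4 : ∑ i ∈ I, P.c i.1 ^ (s2 - t2) * Q.c i.2 ^ t2 ≤ 1) :
    ∀ (n : ℕ) (w g : ℝ), ρ ^ n ≤ w → ρ ^ n ≤ g → κ * w < 1 → κ * g < 1 →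
      ∃ s : Finset (ℝ × ℝ), (F ⊆ ⋃ q ∈ s, Rect o o' q.1 q.2 w g) ∧
        (s.card : ℝ) ≤ (κ ^ (-s1) + κ ^ (-s2)) *
          (w ^ (-t1) * g ^ (-(s1 - t1)) + w ^ (-(s2 - t2)) * g ^ (-t2)) := by
  classical
  have hE1 := cov1 P (usedCols I) t1 κ ρ ht1 e1 hκ hρ hb (fun _ => (fun z : Plane => z o) '' F)
    (by rintro n x ⟨z, hz, rfl⟩; exact h.unit z hz o)
    (by
      rintro n x ⟨z, hz, rfl⟩
      obtain ⟨i, hi, z', hz', h1, h2⟩ := h.cover z hz
      exact ⟨i.1, mem_usedCols.2 ⟨i.2, hi⟩, z' o, ⟨z', hz', rfl⟩, h1⟩)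
  have hE2 := cov1 Q (usedRows I) t2 κ ρ ht2 e2 hκ hρ hb' (fun _ => (fun z : Plane => z o') '' F)
    (by rintro n x ⟨z, hz, rfl⟩; exact h.unit z hz o')
    (by
      rintro n x ⟨z, hz, rfl⟩
      obtain ⟨i, hi, z', hz', h1, h2⟩ := h.cover z hz
      exact ⟨i.2, mem_usedRows.2 ⟨i.1, hi⟩, z' o', ⟨z', hz', rfl⟩, h2⟩)
  have baseg : ∀ (n : ℕ) (w g : ℝ), ρ ^ n ≤ w → 1 ≤ g → κ * w < 1 → κ * g < 1 →
      ∃ s : Finset (ℝ × ℝ), (F ⊆ ⋃ q ∈ s, Rect o o' q.1 q.2 w g) ∧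
        (s.card : ℝ) ≤ (κ ^ (-s1) + κ ^ (-s2)) *
          (w ^ (-t1) * g ^ (-(s1 - t1)) + w ^ (-(s2 - t2)) * g ^ (-t2)) := by
    intro n w g h1 h2 h3 h4
    have hw : 0 < w := lt_of_lt_of_le (by positivity) h1
    have hg : 0 < g := by linarith
    obtain ⟨s, hs1', hs2'⟩ := hE1 n w h1 h3
    refine ⟨s.image (fun x => (x, 0)), ?_, ?_⟩
    · intro z hz
      obtain ⟨y, hy, hy1, hy2⟩ := hs1' (z o) ⟨z, hz, rfl⟩
      simp only [mem_iUnion, Finset.mem_image]
      refine ⟨(y, 0), ⟨y, hy, rfl⟩, ⟨hy1, hy2⟩, ?_⟩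
      obtain ⟨a, b⟩ := h.unit z hz o'
      exact ⟨a, by simp only; linarith⟩
    · have hcard : ((s.image (fun x => (x, (0 : ℝ)))).card : ℝ) ≤ s.card := by
        exact_mod_cast Finset.card_image_le
      refine hcard.trans (hs2'.trans ?_)
      have hk : κ ^ (-t1) ≤ κ ^ (-s1) * g ^ (-(s1 - t1)) := by
        have h5 : κ ^ (-s1) * g ^ (-(s1 - t1)) = κ ^ (-t1) * (κ * g) ^ (-(s1 - t1)) := by
          rw [Real.mul_rpow hκ.le hg.le, ← mul_assoc, ← Real.rpow_add hκ]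
          congr 2
          ring
        rw [h5]
        apply le_mul_of_one_le_right (by positivity)
        apply Real.one_le_rpow_of_pos_of_le_one_of_nonpos (by positivity) h4.le (by linarith)
      calc κ ^ (-t1) * w ^ (-t1) ≤ (κ ^ (-s1) * g ^ (-(s1 - t1))) * w ^ (-t1) := by
            apply mul_le_mul_of_nonneg_right hk (by positivity)
        _ = κ ^ (-s1) * (w ^ (-t1) * g ^ (-(s1 - t1))) := by ring
        _ ≤ (κ ^ (-s1) + κ ^ (-s2)) *
          (w ^ (-t1) * g ^ (-(s1 - t1)) + w ^ (-(s2 - t2)) * g ^ (-t2)) := by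
            apply mul_le_mul
            · have : 0 ≤ κ ^ (-s2) := by positivity
              linarith
            · have : 0 ≤ w ^ (-(s2 - t2)) * g ^ (-t2) := by positivity
              linarith
            · positivity
            · positivity
  have basew : ∀ (n : ℕ) (w g : ℝ), 1 ≤ w → ρ ^ n ≤ g → κ * w < 1 → κ * g < 1 →
      ∃ s : Finset (ℝ × ℝ), (F ⊆ ⋃ q ∈ s, Rect o o' q.1 q.2 w g) ∧
        (s.card : ℝ) ≤ (κ ^ (-s1) + κ ^ (-s2)) *
          (w ^ (-t1) * g ^ (-(s1 - t1)) + w ^ (-(s2 - t2)) * g ^ (-t2)) := by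
    intro n w g h2 h1 h4 h3
    have hg : 0 < g := lt_of_lt_of_le (by positivity) h1
    have hw : 0 < w := by linarith
    obtain ⟨s, hs1', hs2'⟩ := hE2 n g h1 h3
    refine ⟨s.image (fun x => (0, x)), ?_, ?_⟩
    · intro z hz
      obtain ⟨y, hy, hy1, hy2⟩ := hs1' (z o') ⟨z, hz, rfl⟩
      simp only [mem_iUnion, Finset.mem_image]
      refine ⟨(0, y), ⟨y, hy, rfl⟩, ?_, ⟨hy1, hy2⟩⟩
      obtain ⟨a, b⟩ := h.unit z hz o
      exact ⟨a, by simp only; linarith⟩
    · have hcard : ((s.image (fun x => ((0 : ℝ), x))).card : ℝ) ≤ s.card := by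
        exact_mod_cast Finset.card_image_le
      refine hcard.trans (hs2'.trans ?_)
      have hk : κ ^ (-t2) ≤ κ ^ (-s2) * w ^ (-(s2 - t2)) := by
        have h5 : κ ^ (-s2) * w ^ (-(s2 - t2)) = κ ^ (-t2) * (κ * w) ^ (-(s2 - t2)) := by
          rw [Real.mul_rpow hκ.le hw.le, ← mul_assoc, ← Real.rpow_add hκ]
          congr 2
          ring
        rw [h5]
        apply le_mul_of_one_le_right (by positivity)
        apply Real.one_le_rpow_of_pos_of_le_one_of_nonpos (by positivity) h4.le (by linarith)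
      calc κ ^ (-t2) * g ^ (-t2) ≤ (κ ^ (-s2) * w ^ (-(s2 - t2))) * g ^ (-t2) := by
            apply mul_le_mul_of_nonneg_right hk (by positivity)
        _ = κ ^ (-s2) * (w ^ (-(s2 - t2)) * g ^ (-t2)) := by ring
        _ ≤ (κ ^ (-s1) + κ ^ (-s2)) *
          (w ^ (-t1) * g ^ (-(s1 - t1)) + w ^ (-(s2 - t2)) * g ^ (-t2)) := by
            apply mul_le_mul
            · have : 0 ≤ κ ^ (-s1) := by positivity
              linarith
            · have : 0 ≤ w ^ (-t1) * g ^ (-(s1 - t1)) := by positivity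
              linarith
            · positivity
            · positivity
  intro n
  induction n with
  | zero =>
    intro w g h1 h2 h3 h4
    exact baseg 0 w g h1 (by simpa using h2) h3 h4
  | succ n ih =>
    intro w g h1 h2 h3 h4
    rcases le_or_gt 1 g with h5 | h5
    · exact baseg _ w g h1 h5 h3 h4
    rcases le_or_gt 1 w with h6 | h6
    · exact basew _ w g h6 h2 h3 h4
    have hw : 0 < w := lt_of_lt_of_le (by positivity) h1
    have hg : 0 < g := lt_of_lt_of_le (by positivity) h2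
    have key : ∀ i : α × β, ∃ s : Finset (ℝ × ℝ),
      (F ⊆ ⋃ q ∈ s, Rect o o' q.1 q.2 (w / P.c i.1) (g / Q.c i.2)) ∧
        (s.card : ℝ) ≤ (κ ^ (-s1) + κ ^ (-s2)) *
          ((w / P.c i.1) ^ (-t1) * (g / Q.c i.2) ^ (-(s1 - t1)) +
            (w / P.c i.1) ^ (-(s2 - t2)) * (g / Q.c i.2) ^ (-t2)) := by
      intro i
      have hc := P.pos i.1
      have hd := Q.pos i.2
      apply ih
      · rw [le_div_iff₀ hc]
        calc ρ ^ n * P.c i.1 ≤ ρ ^ n * ρ := by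
              apply mul_le_mul_of_nonneg_left (hb _).2 (by positivity)
          _ = ρ ^ (n + 1) := by ring
          _ ≤ w := h1
      · rw [le_div_iff₀ hd]
        calc ρ ^ n * Q.c i.2 ≤ ρ ^ n * ρ := by
              apply mul_le_mul_of_nonneg_left (hb' _).2 (by positivity)
          _ = ρ ^ (n + 1) := by ring
          _ ≤ g := h2
      · rw [← mul_div_assoc, div_lt_one hc]
        calc κ * w < κ * 1 := by
              apply mul_lt_mul_of_pos_left h6 hκ
          _ ≤ P.c i.1 := by rw [mul_one]; exact (hb _).1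
      · rw [← mul_div_assoc, div_lt_one hd]
        calc κ * g < κ * 1 := by
              apply mul_lt_mul_of_pos_left h5 hκ
          _ ≤ Q.c i.2 := by rw [mul_one]; exact (hb' _).1
    choose s hs1 hs2 using key
    refine ⟨I.biUnion (fun i => (s i).image
      (fun q => (P.c i.1 * q.1 + P.a i.1, Q.c i.2 * q.2 + Q.a i.2))), ?_, ?_⟩
    · intro z hz
      obtain ⟨i, hi, z', hz', h7, h8⟩ := h.cover z hz
      obtain ⟨q, hq⟩ := mem_iUnion.1 (hs1 i hz')
      obtain ⟨hq1, ⟨a1, a2⟩, b1, b2⟩ := mem_iUnion.1 hq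
      simp only [mem_iUnion]
      refine ⟨_, Finset.mem_biUnion.2 ⟨i, hi, Finset.mem_image.2 ⟨q, hq1, rfl⟩⟩, ⟨?_, ?_⟩, ?_, ?_⟩
      · rw [h7]
        have := mul_le_mul_of_nonneg_left a1 (P.pos i.1).le
        simp only
        linarith
      · rw [h7]
        have := mul_le_mul_of_nonneg_left a2 (P.pos i.1).le
        have h9 : P.c i.1 * (q.1 + w / P.c i.1) = P.c i.1 * q.1 + w := by
          rw [mul_add, mul_div_cancel₀ _ (P.pos i.1).ne']
        simp only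
        linarith
      · rw [h8]
        have := mul_le_mul_of_nonneg_left b1 (Q.pos i.2).le
        simp only
        linarith
      · rw [h8]
        have := mul_le_mul_of_nonneg_left b2 (Q.pos i.2).le
        have h9 : Q.c i.2 * (q.2 + g / Q.c i.2) = Q.c i.2 * q.2 + g := by
          rw [mul_add, mul_div_cancel₀ _ (Q.pos i.2).ne']
        simp only
        linarith
    · calc ((I.biUnion (fun i => (s i).image
      (fun q => (P.c i.1 * q.1 + P.a i.1, Q.c i.2 * q.2 + Q.a i.2)))).card : ℝ)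
          ≤ ∑ i ∈ I, (((s i).image
      (fun q => (P.c i.1 * q.1 + P.a i.1, Q.c i.2 * q.2 + Q.a i.2))).card : ℝ) := by
            exact_mod_cast Finset.card_biUnion_le
        _ ≤ ∑ i ∈ I, ((s i).card : ℝ) := by
            apply Finset.sum_le_sum
            intro k _
            exact_mod_cast Finset.card_image_le
        _ ≤ ∑ i ∈ I, (κ ^ (-s1) + κ ^ (-s2)) *
          ((w / P.c i.1) ^ (-t1) * (g / Q.c i.2) ^ (-(s1 - t1)) +
            (w / P.c i.1) ^ (-(s2 - t2)) * (g / Q.c i.2) ^ (-t2)) :=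
            Finset.sum_le_sum fun k _ => hs2 k
        _ = (κ ^ (-s1) + κ ^ (-s2)) * (w ^ (-t1) * g ^ (-(s1 - t1)) *
              (∑ i ∈ I, P.c i.1 ^ t1 * Q.c i.2 ^ (s1 - t1)) +
              w ^ (-(s2 - t2)) * g ^ (-t2) *
              (∑ i ∈ I, P.c i.1 ^ (s2 - t2) * Q.c i.2 ^ t2)) := by
            rw [Finset.mul_sum, Finset.mul_sum, ← Finset.sum_add_distrib, Finset.mul_sum]
            apply Finset.sum_congr rfl
            intro i _
            rw [Real.div_rpow hw.le (P.pos i.1).le, Real.div_rpow hg.le (Q.pos i.2).le,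
              Real.div_rpow hw.le (P.pos i.1).le, Real.div_rpow hg.le (Q.pos i.2).le,
              Real.rpow_neg (P.pos i.1).le t1, Real.rpow_neg (P.pos i.1).le (s2 - t2),
              Real.rpow_neg (Q.pos i.2).le t2, Real.rpow_neg (Q.pos i.2).le (s1 - t1)]
            field_simp
        _ ≤ (κ ^ (-s1) + κ ^ (-s2)) * (w ^ (-t1) * g ^ (-(s1 - t1)) * 1 +
              w ^ (-(s2 - t2)) * g ^ (-t2) * 1) := by
            apply mul_le_mul_of_nonneg_left _ (by positivity)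
            apply add_le_add
            · exact mul_le_mul_of_nonneg_left e3 (by positivity)
            · exact mul_le_mul_of_nonneg_left e4 (by positivity)
        _ = _ := by ring

end Pool.Agent.H891.Carp
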