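import Mathlib

/-!
Definitions for MP_0a98f6_an (dimension orderings of mixed-type self-affine carpets).
-/

namespace Pool.Agent.H891.Carp

open Set MeasureTheory Filter Topology
open scoped ENNReal NNReal

/-- The Euclidean plane. -/
abbrev Plane := EuclideanSpace ℝ (Fin 2)

/-- N_r(E): the least number of sets of diameter at most r needed to cover E. -/
noncomputable def coverNum (r : ℝ) (E : Set Plane) : ℕ :=
  sInf {n : ℕ | ∃ U : Fin n → Set Plane, E ⊆ ⋃ i, U i ∧
    ∀ i, Metric.ediam (U i) ≤ ENNReal.ofReal r}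

/-- The Assouad dimension. -/
noncomputable def assouadDim (F : Set Plane) : ℝ≥0∞ :=
  sInf {s | ∃ t : ℝ, 0 ≤ t ∧ s = ENNReal.ofReal t ∧ ∃ C : ℝ, 0 < C ∧
    ∀ r R : ℝ, 0 < r → r < R → ∀ x ∈ F,
      (coverNum r (Metric.closedBall x R ∩ F) : ℝ) ≤ C * (R / r) ^ t}

/-- The lower dimension. -/
noncomputable def lowerDim (F : Set Plane) : ℝ≥0∞ :=
  sSup {s | ∃ t : ℝ, 0 ≤ t ∧ s = ENNReal.ofReal t ∧ ∃ C : ℝ, 0 < C ∧
    ∀ r R : ℝ, 0 < r → r < R → R ≤ Metric.diam F → ∀ x ∈ F,
      C * (R / r) ^ t ≤ (coverNum r (Metric.closedBall x R ∩ F) : ℝ)}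

/-- The upper box dimension: limsup of log N_r(F) / (-log r) as r tends to 0 from above. -/
noncomputable def upperBoxDim (F : Set Plane) : ℝ≥0∞ :=
  limsup (fun r : ℝ => ENNReal.ofReal (Real.log (coverNum r F) / (- Real.log r))) (𝓝[>] 0)

/-- The lower box dimension: liminf of log N_r(F) / (-log r) as r tends to 0 from above. -/
noncomputable def lowerBoxDim (F : Set Plane) : ℝ≥0∞ :=
  liminf (fun r : ℝ => ENNReal.ofReal (Real.log (coverNum r F) / (- Real.log r))) (𝓝[>] 0)

/-- A grid of K columns and L rows of the unit square (at least one vertical and at least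
one horizontal cutting line) together with a chosen family of at least two cells. -/
structure Carpet where
  K : ℕ
  L : ℕ
  hK : 2 ≤ K
  hL : 2 ≤ L
  x : Fin (K + 1) → ℝ
  y : Fin (L + 1) → ℝ
  x_mono : StrictMono x
  y_mono : StrictMono y
  x_zero : x 0 = 0
  y_zero : y 0 = 0
  x_last : x (Fin.last K) = 1
  y_last : y (Fin.last L) = 1
  cells : Finset (Fin K × Fin L)
  two_le : 2 ≤ cells.card

namespace Carpet

/-- The width of column k. -/
def width (Q : Carpet) (k : Fin Q.K) : ℝ := Q.x k.succ - Q.x k.castSucc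

/-- The height of row j. -/
def height (Q : Carpet) (j : Fin Q.L) : ℝ := Q.y j.succ - Q.y j.castSucc

/-- The orientation preserving affine map of the unit square onto the cell i. -/
noncomputable def map (Q : Carpet) (i : Fin Q.K × Fin Q.L) (p : Plane) : Plane :=
  !₂[Q.width i.1 * p 0 + Q.x i.1.castSucc, Q.height i.2 * p 1 + Q.y i.2.castSucc]

/-- F is the attractor: a nonempty compact subset of the unit square which is the union of
its images under the maps of the chosen cells. -/
def IsAttractor (Q : Carpet) (F : Set Plane) : Prop :=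
  F.Nonempty ∧ IsCompact F ∧ (∀ p ∈ F, ∀ i, p i ∈ Icc (0 : ℝ) 1) ∧
    F = ⋃ i ∈ Q.cells, Q.map i '' F

/-- Mixed type: some chosen cell is wider than high and some is higher than wide. -/
def Mixed (Q : Carpet) : Prop :=
  (∃ i ∈ Q.cells, Q.height i.2 < Q.width i.1) ∧ ∃ i ∈ Q.cells, Q.width i.1 < Q.height i.2

end Carpet

/-- One side (columns or rows) of a grid: non-overlapping intervals [a k, a k + c k] in [0,1]. -/
structure Side (α : Type) where
  c : α → ℝ
  a : α → ℝ
  pos : ∀ k, 0 < c k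
  lt_one : ∀ k, c k < 1
  nonneg : ∀ k, 0 ≤ a k
  le_one : ∀ k, a k + c k ≤ 1
  sep : ∀ k l, k ≠ l → a k + c k ≤ a l ∨ a l + c l ≤ a k

variable {α β : Type} [Fintype α] [Fintype β] [DecidableEq α] [DecidableEq β]

/-- F is the attractor of the cells I, coordinate o being scaled by the side P and
coordinate o' by the side Q (so that everything is symmetric under exchanging the axes). -/
structure Attr (P : Side α) (Q : Side β) (I : Finset (α × β)) (o o' : Fin 2)
    (F : Set Plane) : Prop where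
  ne : o ≠ o'
  nonempty : F.Nonempty
  compact : IsCompact F
  unit : ∀ z ∈ F, ∀ i, z i ∈ Icc (0 : ℝ) 1
  maps : ∀ i ∈ I, ∀ z ∈ F, ∃ z' ∈ F, z' o = P.c i.1 * z o + P.a i.1 ∧
    z' o' = Q.c i.2 * z o' + Q.a i.2
  cover : ∀ z' ∈ F, ∃ i ∈ I, ∃ z ∈ F, z' o = P.c i.1 * z o + P.a i.1 ∧
    z' o' = Q.c i.2 * z o' + Q.a i.2

/-- Exchange the axes in a set of cells. -/
def swapI (I : Finset (α × β)) : Finset (β × α) := I.image Prod.swap

omit [Fintype α] [Fintype β] in
theorem mem_swapI {I : Finset (α × β)} {i : β × α} : i ∈ swapI I ↔ (i.2, i.1) ∈ I := by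
  rcases i with ⟨b, a⟩
  simp [swapI]

omit [Fintype α] [Fintype β] in
theorem Attr.swap {P : Side α} {Q : Side β} {I : Finset (α × β)} {o o' : Fin 2}
    {F : Set Plane} (h : Attr P Q I o o' F) : Attr Q P (swapI I) o' o F where
  ne := h.ne.symm
  nonempty := h.nonempty
  compact := h.compact
  unit := h.unit
  maps := by
    rintro ⟨b, a⟩ hi z hz
    obtain ⟨z', h1, h2, h3⟩ := h.maps (a, b) (mem_swapI.1 hi) z hz
    exact ⟨z', h1, h3, h2⟩
  cover := by
    intro z' hz'
    obtain ⟨⟨a, b⟩, hi, z, hz, h2, h3⟩ := h.cover z' hz'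
    exact ⟨(b, a), mem_swapI.2 hi, z, hz, h3, h2⟩

/-- the cells of row j -/
def rowCells (I : Finset (α × β)) (j : β) : Finset α := Finset.univ.filter (fun k => (k, j) ∈ I)

/-- the used rows -/
def usedRows (I : Finset (α × β)) : Finset β := I.image Prod.snd

/-- the used columns -/
def usedCols (I : Finset (α × β)) : Finset α := I.image Prod.fst

omit [Fintype α] [Fintype β] [DecidableEq α] in
theorem mem_usedRows {I : Finset (α × β)} {j : β} : j ∈ usedRows I ↔ ∃ k, (k, j) ∈ I := by
  simp [usedRows]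

omit [Fintype α] [Fintype β] [DecidableEq β] in
theorem mem_usedCols {I : Finset (α × β)} {k : α} : k ∈ usedCols I ↔ ∃ j, (k, j) ∈ I := by
  simp [usedCols]

omit [Fintype β] in
theorem mem_rowCells {I : Finset (α × β)} {j : β} {k : α} : k ∈ rowCells I j ↔ (k, j) ∈ I := by
  simp [rowCells]

end Pool.Agent.H891.Carp
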