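import Pool.Agent.H891.Carpet.Stm

/-!
MP_0a98f6_an, part E: every carpet has an attractor.
-/

set_option autoImplicit false

namespace Pool.Agent.H891.Carp

open Set MeasureTheory Filter Topology

/-- the closed unit square -/
def sqE : Set Plane := {p | ∀ i, p i ∈ Icc (0 : ℝ) 1}

theorem isCompact_sqE : IsCompact sqE := by
  have h : sqE = (WithLp.toLp 2) '' (Icc (0 : Fin 2 → ℝ) 1) := by
    ext p
    constructor
    · intro hp
      exact ⟨WithLp.ofLp p, ⟨fun i => (hp i).1, fun i => (hp i).2⟩, rfl⟩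
    · rintro ⟨q, hq, rfl⟩ i
      exact ⟨hq.1 i, hq.2 i⟩
  rw [h]
  exact isCompact_Icc.image (PiLp.continuous_toLp 2 _)

theorem map_continuous (Q : Carpet) (i : Fin Q.K × Fin Q.L) : Continuous (Q.map i) := by
  unfold Carpet.map
  refine (PiLp.continuous_toLp 2 _).comp (continuous_pi fun j => ?_)
  fin_cases j
  · simp only [Matrix.cons_val_zero]
    fun_prop
  · simp only [Matrix.cons_val_one]
    fun_prop

theorem map_mem_sqE (Q : Carpet) (i : Fin Q.K × Fin Q.L) {p : Plane} (hp : p ∈ sqE) :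
    Q.map i p ∈ sqE := by
  have hx0 : 0 ≤ Q.x i.1.castSucc := by
    rw [← Q.x_zero]; exact Q.x_mono.monotone (Fin.zero_le _)
  have hx1 : Q.x i.1.succ ≤ 1 := by
    rw [← Q.x_last]; exact Q.x_mono.monotone (Fin.le_last _)
  have hx2 : Q.x i.1.castSucc < Q.x i.1.succ := Q.x_mono (Fin.castSucc_lt_succ)
  have hy0 : 0 ≤ Q.y i.2.castSucc := by
    rw [← Q.y_zero]; exact Q.y_mono.monotone (Fin.zero_le _)
  have hy1 : Q.y i.2.succ ≤ 1 := by
    rw [← Q.y_last]; exact Q.y_mono.monotone (Fin.le_last _)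
  have hy2 : Q.y i.2.castSucc < Q.y i.2.succ := Q.y_mono (Fin.castSucc_lt_succ)
  have h0 := hp 0
  have h1 := hp 1
  have ex : ∀ a b t : ℝ, 0 ≤ a → a < b → b ≤ 1 → 0 ≤ t → t ≤ 1 →
      (b - a) * t + a ∈ Icc (0:ℝ) 1 := by
    intro a b t ha hab hb ht ht1
    constructor <;> nlinarith
  intro j
  fin_cases j
  · exact ex _ _ _ hx0 hx2 hx1 h0.1 h0.2
  · exact ex _ _ _ hy0 hy2 hy1 h1.1 h1.2

/-- approximations of the attractor -/
def KE (Q : Carpet) : ℕ → Set Plane
  | 0 => sqE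
  | n + 1 => ⋃ i ∈ Q.cells, Q.map i '' KE Q n

theorem KE_compact (Q : Carpet) (n : ℕ) : IsCompact (KE Q n) := by
  induction n with
  | zero => exact isCompact_sqE
  | succ n ih =>
    exact Q.cells.finite_toSet.isCompact_biUnion fun i _ => ih.image (map_continuous Q i)

theorem KE_nonempty (Q : Carpet) (n : ℕ) : (KE Q n).Nonempty := by
  induction n with
  | zero => exact ⟨WithLp.toLp 2 (0 : Fin 2 → ℝ), fun i => ⟨le_rfl, zero_le_one⟩⟩
  | succ n ih =>
    obtain ⟨p, hp⟩ := ih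
    obtain ⟨i, hi⟩ : Q.cells.Nonempty := by
      rw [← Finset.card_pos]
      have := Q.two_le
      omega
    exact ⟨Q.map i p, mem_iUnion₂.2 ⟨i, hi, p, hp, rfl⟩⟩

theorem KE_succ_subset (Q : Carpet) (n : ℕ) : KE Q (n + 1) ⊆ KE Q n := by
  induction n with
  | zero =>
    intro z hz
    obtain ⟨i, hi, p, hp, rfl⟩ := mem_iUnion₂.1 hz
    exact map_mem_sqE Q i hp
  | succ n ih =>
    intro z hz
    obtain ⟨i, hi, p, hp, rfl⟩ := mem_iUnion₂.1 hz
    exact mem_iUnion₂.2 ⟨i, hi, p, ih hp, rfl⟩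

theorem KE_anti (Q : Carpet) : Antitone (KE Q) := antitone_nat_of_succ_le (KE_succ_subset Q)

/-- (E) -/
theorem E : S_E := by
  intro Q
  refine ⟨⋂ n, KE Q n, ?_, ?_, ?_, ?_⟩
  · exact IsCompact.nonempty_iInter_of_sequence_nonempty_isCompact_isClosed _
      (KE_succ_subset Q) (KE_nonempty Q) (KE_compact Q 0) fun n => (KE_compact Q n).isClosed
  · exact (KE_compact Q 0).of_isClosed_subset
      (isClosed_iInter fun n => (KE_compact Q n).isClosed) (iInter_subset _ 0)
  · intro p hp i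
    exact mem_iInter.1 hp 0 i
  · apply Subset.antisymm
    · intro z hz
      -- some cell occurs infinitely often
      have h1 : ∀ n, ∃ i ∈ Q.cells, ∃ p ∈ KE Q n, Q.map i p = z := by
        intro n
        obtain ⟨i, hi, p, hp, h⟩ := mem_iUnion₂.1 (mem_iInter.1 hz (n + 1))
        exact ⟨i, hi, p, hp, h⟩
      have h2 : ∃ i ∈ Q.cells, ∀ n, ∃ p ∈ KE Q n, Q.map i p = z := by
        by_contra hcon
        push Not at hcon
        choose! N hN using hcon
        obtain ⟨i, hi, p, hp, h⟩ := h1 (Q.cells.sup N)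
        exact hN i hi p (KE_anti Q (Finset.le_sup hi) hp) h
      obtain ⟨i, hi, h3⟩ := h2
      have h4 : (⋂ n, (KE Q n ∩ Q.map i ⁻¹' {z})).Nonempty := by
        have hcl : IsClosed (Q.map i ⁻¹' {z}) := isClosed_singleton.preimage (map_continuous Q i)
        refine IsCompact.nonempty_iInter_of_sequence_nonempty_isCompact_isClosed _
          (fun n => inter_subset_inter_left _ (KE_succ_subset Q n)) ?_
          ((KE_compact Q 0).inter_right hcl) fun n => (KE_compact Q n).isClosed.inter hcl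
        intro n
        obtain ⟨p, hp, h⟩ := h3 n
        exact ⟨p, hp, h⟩
      obtain ⟨p, hp⟩ := h4
      rw [mem_iInter] at hp
      exact mem_iUnion₂.2 ⟨i, hi, p, mem_iInter.2 fun n => (hp n).1, (hp 0).2⟩
    · intro z hz
      obtain ⟨i, hi, p, hp, rfl⟩ := mem_iUnion₂.1 hz
      refine mem_iInter.2 fun n => ?_
      exact KE_succ_subset Q n (mem_iUnion₂.2 ⟨i, hi, p, mem_iInter.1 hp n, rfl⟩)

end Pool.Agent.H891.Carp
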