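import Pool.Agent.H891.Carpet.Stm2

/-!
Statement: lower bound for the lower box dimension.
-/

namespace Pool.Agent.H891.Carp

open Set MeasureTheory Filter Topology
open scoped ENNReal NNReal

/-- (LB) -/
def S_LB : Prop := ∀ {α β : Type} [Fintype α] [Fintype β] [DecidableEq α] [DecidableEq β]
  (P : Side α) (Q : Side β) (I : Finset (α × β)) (o o' : Fin 2) (F : Set Plane),
  Attr P Q I o o' F → ∀ t1 t2 s1 : ℝ, 0 ≤ t1 → 0 ≤ t2 → t1 ≤ s1 →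
  ∑ k ∈ usedCols I, P.c k ^ t1 = 1 → ∑ j ∈ usedRows I, Q.c j ^ t2 = 1 →
  ∑ i ∈ I, P.c i.1 ^ t1 * Q.c i.2 ^ (s1 - t1) = 1 →
  ENNReal.ofReal s1 ≤ lowerBoxDim F

end Pool.Agent.H891.Carp
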