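import Pool.Agent.H891.Carpet.T2

/-!
T1: if the Assouad dimension equals the box dimension, then so does the Hausdorff dimension.
-/

namespace Pool.Agent.H891.Carp

open Set MeasureTheory Filter Topology
open scoped ENNReal NNReal

variable {α β : Type} [Fintype α] [Fintype β] [DecidableEq α] [DecidableEq β]

omit [Fintype α] [DecidableEq β] in
theorem exists_s1 (P : Side α) (Q : Side β) (I : Finset (α × β)) (t1 : ℝ)
    (hc : ∑ k ∈ usedCols I, P.c k ^ t1 = 1) :
    ∃ s1 : ℝ, t1 ≤ s1 ∧ ∑ i ∈ I, P.c i.1 ^ t1 * Q.c i.2 ^ (s1 - t1) = 1 := by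
  have hcont : Continuous (fun t : ℝ => ∑ i ∈ I, P.c i.1 ^ t1 * Q.c i.2 ^ t) := by
    apply continuous_finsetSum
    intro k _
    exact continuous_const.mul (Real.continuous_const_rpow (Q.pos _).ne')
  have hlim : Tendsto (fun n : ℕ => ∑ i ∈ I, P.c i.1 ^ t1 * Q.c i.2 ^ (n : ℝ)) atTop
      (𝓝 (∑ i ∈ I, P.c i.1 ^ t1 * 0)) := by
    apply tendsto_finsetSum
    intro k _
    simp only [Real.rpow_natCast]
    exact (tendsto_pow_atTop_nhds_zero_of_lt_one (Q.pos _).le (Q.lt_one _)).const_mul _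
  simp only [mul_zero, Finset.sum_const_zero] at hlim
  obtain ⟨N, hN⟩ := (hlim.eventually (gt_mem_nhds (show (0 : ℝ) < 1 by norm_num))).exists
  have h0 : 1 ≤ ∑ i ∈ I, P.c i.1 ^ t1 * Q.c i.2 ^ (0 : ℝ) := by
    simp only [Real.rpow_zero, mul_one]
    rw [← hc]
    have h1 : ∑ k ∈ usedCols I, P.c k ^ t1 ≤ ∑ k ∈ usedCols I,
        ∑ i ∈ I with i.1 = k, P.c i.1 ^ t1 := by
      apply Finset.sum_le_sum
      intro k hk
      obtain ⟨j, hj⟩ := mem_usedCols.1 hk
      have h2 := Finset.single_le_sum (f := fun i : α × β => P.c i.1 ^ t1)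
        (s := I.filter (fun i => i.1 = k)) (a := (k, j))
        (fun i _ => Real.rpow_nonneg (P.pos _).le _) (Finset.mem_filter.2 ⟨hj, rfl⟩)
      exact h2
    refine h1.trans (le_of_eq ?_)
    exact Finset.sum_fiberwise_of_maps_to (fun i hi => Finset.mem_image_of_mem _ hi) _
  obtain ⟨t, ht, ht'⟩ := intermediate_value_Icc' (Nat.cast_nonneg N) hcont.continuousOn
    ⟨hN.le, h0⟩
  exact ⟨t1 + t, by linarith [ht.1], by simpa using ht'⟩

/-- equality in an average of numbers at most one -/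
theorem all_eq_one {γ : Type} (S : Finset γ) (w x : γ → ℝ) (hw : ∀ k ∈ S, 0 < w k)
    (hx : ∀ k ∈ S, x k ≤ 1) (h1 : ∑ k ∈ S, w k = 1) (h2 : ∑ k ∈ S, w k * x k = 1) :
    ∀ k ∈ S, x k = 1 := by
  by_contra hcon
  push Not at hcon
  obtain ⟨k, hk, hne⟩ := hcon
  have h3 : ∑ k ∈ S, w k * x k < ∑ k ∈ S, w k := by
    apply Finset.sum_lt_sum
    · intro j hj
      have := hw j hj
      have := hx j hj
      nlinarith
    · refine ⟨k, hk, ?_⟩
      have a1 := hw k hk
      have a2 := lt_of_le_of_ne (hx k hk) hne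
      nlinarith
  linarith

theorem T1_side (hH : S_H) (P : Side α) (Q : Side β) (I : Finset (α × β)) (hI : I.Nonempty)
    (o o' : Fin 2) (F : Set Plane) (h : Attr P Q I o o' F) (t1 t2 s1 s2 : ℝ)
    (hc : ∑ k ∈ usedCols I, P.c k ^ t1 = 1) (hr : ∑ j ∈ usedRows I, Q.c j ^ t2 = 1)
    (e1 : ∑ i ∈ I, P.c i.1 ^ t1 * Q.c i.2 ^ (s1 - t1) = 1)
    (e2 : ∑ i ∈ I, P.c i.1 ^ (s2 - t2) * Q.c i.2 ^ t2 = 1) (hle : s2 ≤ s1)
    (hu : ∀ k ∈ usedCols I, ∑ j ∈ rowCells (swapI I) k, Q.c j ^ (s1 - t1) ≤ 1) :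
    ENNReal.ofReal s1 ≤ dimH F := by
  obtain ⟨i0, hi0⟩ := hI
  obtain ⟨u, hu'⟩ : ∃ u : ℝ, u = s1 - t1 := ⟨_, rfl⟩
  rw [← hu'] at e1 hu
  have hcp : ∀ k, 0 < P.c k ^ t1 := fun k => Real.rpow_pos_of_pos (P.pos k) _
  have hdp : ∀ j, 0 < Q.c j ^ u := fun j => Real.rpow_pos_of_pos (Q.pos j) _
  have e1' : ∑ k ∈ usedCols I, P.c k ^ t1 * ∑ j ∈ rowCells (swapI I) k, Q.c j ^ u = 1 := by
    have h1 := sum_swapI I (fun i => P.c i.2 ^ t1 * Q.c i.1 ^ u)
    simp only at h1
    rw [← h1, sum_rows, usedRows_swapI] at e1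
    rw [← e1]
    apply Finset.sum_congr rfl
    intro k _
    rw [Finset.mul_sum]
  have hone := all_eq_one (usedCols I) (fun k => P.c k ^ t1)
    (fun k => ∑ j ∈ rowCells (swapI I) k, Q.c j ^ u) (fun k _ => hcp k) hu hc e1'

  -- the probability vector
  obtain ⟨p, hp⟩ : ∃ p : α × β → ℝ, p = fun i => P.c i.1 ^ t1 * Q.c i.2 ^ u := ⟨_, rfl⟩
  have hpi : ∀ i, p i = P.c i.1 ^ t1 * Q.c i.2 ^ u := fun i => by rw [hp]
  have hpp : ∀ i ∈ I, 0 < p i := fun i _ => by rw [hpi]; exact mul_pos (hcp _) (hdp _)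
  have hps : ∑ i ∈ I, p i = 1 := by
    rw [← e1]; exact Finset.sum_congr rfl fun i _ => hpi i
  obtain ⟨χc, hχc⟩ : ∃ x : ℝ, x = -∑ i ∈ I, p i * Real.log (P.c i.1) := ⟨_, rfl⟩
  obtain ⟨χd, hχd⟩ : ∃ x : ℝ, x = -∑ i ∈ I, p i * Real.log (Q.c i.2) := ⟨_, rfl⟩
  have hent : -∑ i ∈ I, p i * Real.log (p i) = t1 * χc + u * χd := by
    have h3 : ∀ i ∈ I, p i * Real.log (p i) = t1 * (p i * Real.log (P.c i.1)) +
        u * (p i * Real.log (Q.c i.2)) := by
      intro i _
      have : Real.log (p i) = t1 * Real.log (P.c i.1) + u * Real.log (Q.c i.2) := by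
        rw [hpi, Real.log_mul (hcp _).ne' (hdp _).ne', Real.log_rpow (P.pos _),
          Real.log_rpow (Q.pos _)]
      rw [this]; ring
    rw [Finset.sum_congr rfl h3, Finset.sum_add_distrib, ← Finset.mul_sum, ← Finset.mul_sum,
      hχc, hχd]
    ring
  have hχcp : 0 < χc := by
    rw [hχc, ← Finset.sum_neg_distrib]
    apply Finset.sum_pos
    · intro i hi
      have h1 := hpp i hi
      have h2 := Real.log_neg (P.pos i.1) (P.lt_one i.1)
      nlinarith
    · exact ⟨i0, hi0⟩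
  have hχdp : 0 < χd := by
    rw [hχd, ← Finset.sum_neg_distrib]
    apply Finset.sum_pos
    · intro i hi
      have h1 := hpp i hi
      have h2 := Real.log_neg (Q.pos i.2) (Q.lt_one i.2)
      nlinarith
    · exact ⟨i0, hi0⟩
  rcases le_or_gt χc χd with hcase | hcase
  · -- region 1
    have hmarg : ∀ k ∈ usedCols I, ∑ j ∈ rowCells (swapI I) k, p (k, j) = P.c k ^ t1 := by
      intro k hk
      simp only [hpi]
      rw [← Finset.mul_sum, hone k hk, mul_one]
    have hk0 := hH Q P (swapI I) o' o F h.swap (fun i => p (i.2, i.1))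
      (fun i hi => hpp (i.2, i.1) (mem_swapI.1 hi)) (by rw [sum_swapI]; exact hps) χd χc
      (t1 * χc + u * χd) (t1 * χc) (by rw [sum_swapI]; exact hχd) (by rw [sum_swapI]; exact hχc)
      (by rw [sum_swapI]; exact hent.symm) (by
        rw [usedRows_swapI]
        simp only
        have h3 : ∀ k ∈ usedCols I, (∑ j ∈ rowCells (swapI I) k, p (k, j)) *
            Real.log (∑ j ∈ rowCells (swapI I) k, p (k, j)) =
            t1 * ((∑ j ∈ rowCells (swapI I) k, p (k, j)) * Real.log (P.c k)) := by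
          intro k hk
          rw [hmarg k hk, Real.log_rpow (P.pos _)]
          ring
        rw [Finset.sum_congr rfl h3, ← Finset.mul_sum, hχc]
        have h4 := sum_swapI I (fun i => p (i.2, i.1) * Real.log (P.c i.2))
        simp only at h4
        have h5 : ∑ i ∈ I, p i * Real.log (P.c i.1) =
            ∑ k ∈ usedCols I, (∑ j ∈ rowCells (swapI I) k, p (k, j)) * Real.log (P.c k) := by
          rw [← h4, sum_rows, usedRows_swapI]
          apply Finset.sum_congr rfl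
          intro k _
          rw [Finset.sum_mul]
        rw [h5]
        ring) hcase
    have h6 : t1 * χc / χc + (t1 * χc + u * χd - t1 * χc) / χd = s1 := by
      rw [hu']
      field_simp
      ring
    rw [h6] at hk0
    exact hk0
  · -- region 2
    have hkc : i0.1 ∈ usedCols I := mem_usedCols.2 ⟨i0.2, hi0⟩
    have hut : u ≤ t2 := by
      by_contra hcon
      push Not at hcon
      have h1 : ∑ j ∈ rowCells (swapI I) i0.1, Q.c j ^ u <
          ∑ j ∈ rowCells (swapI I) i0.1, Q.c j ^ t2 := by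
        apply Finset.sum_lt_sum_of_nonempty ⟨i0.2, mem_rowCells.2 (mem_swapI.2 hi0)⟩
        intro j _
        exact Real.rpow_lt_rpow_of_exponent_gt (Q.pos j) (Q.lt_one j) hcon
      have h2 : ∑ j ∈ rowCells (swapI I) i0.1, Q.c j ^ t2 ≤ ∑ j ∈ usedRows I, Q.c j ^ t2 := by
        apply Finset.sum_le_sum_of_subset_of_nonneg
        · intro j hj
          exact mem_usedRows.2 ⟨i0.1, mem_swapI.1 (mem_rowCells.1 hj)⟩
        · intro j _ _
          exact Real.rpow_nonneg (Q.pos j).le _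
      have := hone i0.1 hkc
      linarith
    rcases hut.lt_or_eq with hlt | heq
    · exfalso
      have h1 : 1 < ∑ i ∈ I, P.c i.1 ^ (s1 - t2) * Q.c i.2 ^ t2 := by
        have h2 : ∀ i ∈ I, p i + (t2 - u) * (p i * (Real.log (Q.c i.2) - Real.log (P.c i.1))) ≤
            P.c i.1 ^ (s1 - t2) * Q.c i.2 ^ t2 := by
          intro i _
          have h3 := weight_tangent (P.c i.1) (Q.c i.2) (t1 + u) t1 (s1 - t2) (P.pos _) (Q.pos _)
          have h4 : t1 + u - t1 = u := by ring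
          have h5 : t1 + u - (s1 - t2) = t2 := by rw [hu']; ring
          rw [h4, h5, ← hpi] at h3
          have h6 : s1 - t2 - t1 = -(t2 - u) := by rw [hu']; ring
          rw [h6] at h3
          linarith
        have h7 := Finset.sum_le_sum h2
        rw [Finset.sum_add_distrib, hps, ← Finset.mul_sum] at h7
        have h8 : ∑ i ∈ I, p i * (Real.log (Q.c i.2) - Real.log (P.c i.1)) = χc - χd := by
          rw [hχc, hχd, sub_neg_eq_add, ← Finset.sum_neg_distrib, ← Finset.sum_add_distrib]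
          apply Finset.sum_congr rfl
          intro i _
          ring
        rw [h8] at h7
        have h9 : 0 < (t2 - u) * (χc - χd) := mul_pos (by linarith) (by linarith)
        linarith
      have h2 : ∑ i ∈ I, P.c i.1 ^ (s1 - t2) * Q.c i.2 ^ t2 ≤
          ∑ i ∈ I, P.c i.1 ^ (s2 - t2) * Q.c i.2 ^ t2 := by
        apply Finset.sum_le_sum
        intro i _
        apply mul_le_mul_of_nonneg_right _ (Real.rpow_nonneg (Q.pos _).le _)
        apply Real.rpow_le_rpow_of_exponent_ge (P.pos _) (P.lt_one _).le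
        linarith
      linarith
    · -- full product case
      have hrow1 : ∀ j ∈ usedRows I, ∑ k ∈ rowCells I j, P.c k ^ t1 ≤ 1 := by
        intro j _
        rw [← hc]
        apply Finset.sum_le_sum_of_subset_of_nonneg
        · intro k hk
          exact mem_usedCols.2 ⟨j, mem_rowCells.1 hk⟩
        · intro k _ _
          exact (hcp k).le
      have hq : ∀ j, ∑ k ∈ rowCells I j, p (k, j) = Q.c j ^ t2 * ∑ k ∈ rowCells I j, P.c k ^ t1 := by
        intro j
        simp only [hpi]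
        rw [← Finset.sum_mul, heq, mul_comm]
      have hsumq : ∑ j ∈ usedRows I, Q.c j ^ t2 * ∑ k ∈ rowCells I j, P.c k ^ t1 = 1 := by
        rw [← hps, sum_rows]
        exact Finset.sum_congr rfl fun j _ => (hq j).symm
      have hrow := all_eq_one (usedRows I) (fun j => Q.c j ^ t2)
        (fun j => ∑ k ∈ rowCells I j, P.c k ^ t1) (fun j _ => Real.rpow_pos_of_pos (Q.pos j) _)
        hrow1 hr hsumq

      have hmarg : ∀ j ∈ usedRows I, ∑ k ∈ rowCells I j, p (k, j) = Q.c j ^ t2 := by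
        intro j hj
        rw [hq, hrow j hj, mul_one]
      have hk0 := hH P Q I o o' F h p hpp hps χc χd (t1 * χc + u * χd) (t2 * χd) hχc hχd
        hent.symm (by
          have h3 : ∀ j ∈ usedRows I, (∑ k ∈ rowCells I j, p (k, j)) *
              Real.log (∑ k ∈ rowCells I j, p (k, j)) =
              t2 * ((∑ k ∈ rowCells I j, p (k, j)) * Real.log (Q.c j)) := by
            intro j hj
            rw [hmarg j hj, Real.log_rpow (Q.pos _)]
            ring
          rw [Finset.sum_congr rfl h3, ← Finset.mul_sum, hχd, sum_rows]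
          have h5 : ∀ j ∈ usedRows I, ∑ k ∈ rowCells I j, p (k, j) * Real.log (Q.c (k, j).2) =
              (∑ k ∈ rowCells I j, p (k, j)) * Real.log (Q.c j) := by
            intro j _
            simp only
            rw [Finset.sum_mul]
          rw [Finset.sum_congr rfl h5]
          ring) hcase.le
      have h6 : t2 * χd / χd + (t1 * χc + u * χd - t2 * χd) / χc = s1 := by
        rw [heq, show s1 = t1 + t2 by rw [← heq, hu']; ring]
        field_simp
        ring
      rw [h6] at hk0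
      exact hk0

theorem T1_main (hU : S_U) (hA : S_A) (hH : S_H) (P : Side α) (Q : Side β)
    (I : Finset (α × β)) (o o' : Fin 2) (F : Set Plane) (h : Attr P Q I o o' F)
    (hmix' : ∃ i ∈ I, Q.c i.2 < P.c i.1) (hle : assouadDim F ≤ upperBoxDim F)
    (t1 t2 s1 s2 : ℝ) (ht1 : 0 ≤ t1) (ht2 : 0 ≤ t2) (hs1 : t1 ≤ s1) (hs2 : t2 ≤ s2)
    (hc : ∑ k ∈ usedCols I, P.c k ^ t1 = 1) (hr : ∑ j ∈ usedRows I, Q.c j ^ t2 = 1)
    (e1 : ∑ i ∈ I, P.c i.1 ^ t1 * Q.c i.2 ^ (s1 - t1) = 1)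
    (e2 : ∑ i ∈ I, P.c i.1 ^ (s2 - t2) * Q.c i.2 ^ t2 = 1) (h21 : s2 ≤ s1) :
    upperBoxDim F ≤ dimH F := by
  have hI : I.Nonempty := by
    obtain ⟨i, hi, -⟩ := hmix'
    exact ⟨i, hi⟩
  have hup : upperBoxDim F ≤ ENNReal.ofReal s1 := by
    have := hU P Q I o o' F h t1 t2 s1 s2 ht1 ht2 hs1 hs2 hc.le hr.le e1.le e2.le
    rwa [max_eq_left h21] at this
  refine hup.trans (T1_side hH P Q I hI o o' F h t1 t2 s1 s2 hc hr e1 e2 h21 ?_)
  intro k hk
  obtain ⟨v, hv0, hv⟩ := exists_expo Q (rowCells (swapI I) k)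
    (rowCells_nonempty (by rw [usedRows_swapI]; exact hk))
  have hmixs : ∃ i ∈ swapI I, Q.c i.1 < P.c i.2 := by
    obtain ⟨i, hi, hlt⟩ := hmix'
    exact ⟨(i.2, i.1), mem_swapI.2 hi, hlt⟩
  have h1 := (hA Q P (swapI I) o' o F h.swap hmixs k v t1 hv0 ht1 hv
    (by rw [usedRows_swapI]; exact hc)).trans (hle.trans hup)
  have h2 : t1 + v ≤ s1 := (ENNReal.ofReal_le_ofReal_iff (by linarith)).1 h1
  rw [← hv]
  apply Finset.sum_le_sum
  intro j _
  apply Real.rpow_le_rpow_of_exponent_ge (Q.pos j) (Q.lt_one j).le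
  linarith

theorem T1 (hU : S_U) (hA : S_A) (hH : S_H) : S_T1 := by
  intro α β _ _ _ _ P Q I o o' F h hmix hmix' hle
  obtain ⟨i0, hi0, -⟩ := id hmix
  obtain ⟨t1, ht1, hc⟩ := exists_expo P (usedCols I) ⟨i0.1, mem_usedCols.2 ⟨i0.2, hi0⟩⟩
  obtain ⟨t2, ht2, hr⟩ := exists_expo Q (usedRows I) ⟨i0.2, mem_usedRows.2 ⟨i0.1, hi0⟩⟩
  obtain ⟨s1, hs1, e1⟩ := exists_s1 P Q I t1 hc
  obtain ⟨s2, hs2, e2⟩ := exists_s1 Q P (swapI I) t2 (by rw [usedCols_swapI]; exact hr)
  have e2' : ∑ i ∈ I, P.c i.1 ^ (s2 - t2) * Q.c i.2 ^ t2 = 1 := by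
    rw [← e2, sum_swapI]
    apply Finset.sum_congr rfl
    intro i _
    simp only
    ring
  rcases le_total s2 s1 with h21 | h12
  · exact T1_main hU hA hH P Q I o o' F h hmix' hle t1 t2 s1 s2 ht1 ht2 hs1 hs2 hc hr e1 e2' h21
  · refine T1_main hU hA hH Q P (swapI I) o' o F h.swap ?_ hle t2 t1 s2 s1 ht2 ht1 hs2 hs1
      (by rw [usedCols_swapI]; exact hr) (by rw [usedRows_swapI]; exact hc) e2 ?_ h12
    · obtain ⟨i, hi, hlt⟩ := hmix
      exact ⟨(i.2, i.1), mem_swapI.2 hi, hlt⟩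
    · rw [← e1, sum_swapI]
      apply Finset.sum_congr rfl
      intro i _
      simp only
      ring

end Pool.Agent.H891.Carp
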