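import Pool.Agent.H891.Carpet.U
import Pool.Agent.H891.Carpet.T1
import Pool.Agent.H891.Carpet.Bridge
import Pool.Agent.H891.Carpet.Stm3

/-!
Assembly.
-/

namespace Pool.Agent.H891.Carp

open Set MeasureTheory Filter Topology
open scoped ENNReal NNReal

/-- D is the box dimension of F: log N_r(F) / (-log r) tends to D as r tends to 0 from above. -/
def IsBoxDim (F : Set Plane) (D : ℝ≥0∞) : Prop :=
  Tendsto (fun r : ℝ => ENNReal.ofReal (Real.log (coverNum r F) / (- Real.log r))) (𝓝[>] 0) (𝓝 D)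

theorem isBoxDim_of_eq (F : Set Plane) (h : lowerBoxDim F = upperBoxDim F) :
    IsBoxDim F (upperBoxDim F) :=
  tendsto_of_liminf_eq_limsup h rfl

variable {α β : Type} [Fintype α] [Fintype β] [DecidableEq α] [DecidableEq β]

theorem box_exists (hU : S_U) (hLB : S_LB) (P : Side α) (Q : Side β) (I : Finset (α × β))
    (hI : I.Nonempty) (o o' : Fin 2) (F : Set Plane) (h : Attr P Q I o o' F) :
    lowerBoxDim F = upperBoxDim F := by
  obtain ⟨i0, hi0⟩ := hI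
  obtain ⟨t1, ht1, hc⟩ := exists_expo P (usedCols I) ⟨i0.1, mem_usedCols.2 ⟨i0.2, hi0⟩⟩
  obtain ⟨t2, ht2, hr⟩ := exists_expo Q (usedRows I) ⟨i0.2, mem_usedRows.2 ⟨i0.1, hi0⟩⟩
  obtain ⟨s1, hs1, e1⟩ := exists_s1 P Q I t1 hc
  obtain ⟨s2, hs2, e2⟩ := exists_s1 Q P (swapI I) t2 (by rw [usedCols_swapI]; exact hr)
  have l1 := hLB P Q I o o' F h t1 t2 s1 ht1 ht2 hs1 hc hr e1
  have l2 := hLB Q P (swapI I) o' o F h.swap t2 t1 s2 ht2 ht1 hs2
    (by rw [usedCols_swapI]; exact hr) (by rw [usedRows_swapI]; exact hc) e2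
  have u := hU P Q I o o' F h t1 t2 s1 s2 ht1 ht2 hs1 hs2 hc.le hr.le e1.le (by
    rw [sum_swapI] at e2
    rw [← e2]
    apply le_of_eq
    apply Finset.sum_congr rfl
    intro i _
    simp only
    ring)
  apply le_antisymm
  · exact liminf_le_limsup
  · refine u.trans ?_
    rcases max_choice s1 s2 with h3 | h3
    · rw [h3]; exact l1
    · rw [h3]; exact l2

theorem final (hU : S_U) (hLB : S_LB) (hT1 : S_T1) (hT2 : S_T2) (hT3 : ∃ (Q : Carpet)
    (F : Set Plane), Q.IsAttractor F ∧ Q.Mixed ∧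
    lowerDim F < dimH F ∧ dimH F = upperBoxDim F ∧ lowerBoxDim F = upperBoxDim F ∧
    upperBoxDim F < assouadDim F) :
    (∀ (Q : Carpet) (F : Set Plane), Q.IsAttractor F → Q.Mixed → ∃ D : ℝ≥0∞, IsBoxDim F D ∧
      ¬ (lowerDim F = dimH F ∧ dimH F < D ∧ D = assouadDim F) ∧
      ¬ (lowerDim F = dimH F ∧ dimH F < D ∧ D < assouadDim F) ∧
      ¬ (lowerDim F < dimH F ∧ dimH F < D ∧ D = assouadDim F)) ∧
    (∃ (Q : Carpet) (F : Set Plane) (D : ℝ≥0∞), Q.IsAttractor F ∧ Q.Mixed ∧ IsBoxDim F D ∧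
      lowerDim F < dimH F ∧ dimH F = D ∧ D < assouadDim F) := by
  constructor
  · intro Q F hF hM
    have h := Q.attr F hF
    have hI : Q.cells.Nonempty := by
      rw [← Finset.card_pos]
      exact lt_of_lt_of_le (by norm_num) Q.two_le
    have hbox := box_exists hU hLB Q.cols Q.rows Q.cells hI 0 1 F h
    have t1 := hT1 Q.cols Q.rows Q.cells 0 1 F h hM.2 hM.1
    have t2 := hT2 Q.cols Q.rows Q.cells 0 1 F h hM.2 hM.1
    refine ⟨upperBoxDim F, isBoxDim_of_eq F hbox, ?_, ?_, ?_⟩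
    · rintro ⟨h1, h2, -⟩
      exact absurd (t2 h1.ge) (not_le.2 h2)
    · rintro ⟨h1, h2, -⟩
      exact absurd (t2 h1.ge) (not_le.2 h2)
    · rintro ⟨-, h2, h3⟩
      exact absurd (t1 h3.ge) (not_le.2 h2)
  · obtain ⟨Q, F, h1, h2, h3, h4, h5, h6⟩ := hT3
    exact ⟨Q, F, upperBoxDim F, h1, h2, isBoxDim_of_eq F h5, h3, h4, h6⟩

end Pool.Agent.H891.Carp
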