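import Pool.Agent.H891.Carpet.Stm

/-!
(H) from (H0) and (TYP).
-/

namespace Pool.Agent.H891.Carp

open Set MeasureTheory Filter Topology
open scoped ENNReal NNReal

variable {α β : Type} [Fintype α] [Fintype β] [DecidableEq α] [DecidableEq β]

/-- offset of a composite map -/
def off (P : Side α) : (n : ℕ) → (Fin n → α) → ℝ
  | 0, _ => 0
  | n + 1, u => P.c (u 0) * off P n (Fin.tail u) + P.a (u 0)

/-- ratio of a composite map -/
def rat (P : Side α) (n : ℕ) (u : Fin n → α) : ℝ := ∏ i, P.c (u i)

omit [Fintype α] [DecidableEq α] in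
theorem rat_succ (P : Side α) (n : ℕ) (u : Fin (n + 1) → α) :
    rat P (n + 1) u = P.c (u 0) * rat P n (Fin.tail u) := by
  rw [rat, Fin.prod_univ_succ]
  rfl

omit [Fintype α] [DecidableEq α] in
theorem rat_pos (P : Side α) (n : ℕ) (u : Fin n → α) : 0 < rat P n u :=
  Finset.prod_pos fun i _ => P.pos _

omit [Fintype α] [DecidableEq α] in
theorem off_bounds (P : Side α) : ∀ (n : ℕ) (u : Fin n → α),
    0 ≤ off P n u ∧ off P n u + rat P n u ≤ 1 := by
  intro n
  induction n with
  | zero => intro u; simp [off, rat]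
  | succ n ih =>
    intro u
    obtain ⟨h1, h2⟩ := ih (Fin.tail u)
    have hc := P.pos (u 0)
    have ha := P.nonneg (u 0)
    have hl := P.le_one (u 0)
    rw [off, rat_succ]
    constructor
    · positivity
    · nlinarith

omit [Fintype α] [DecidableEq α] in
theorem off_ge (P : Side α) (n : ℕ) (u : Fin (n + 1) → α) : P.a (u 0) ≤ off P (n + 1) u := by
  obtain ⟨h1, h2⟩ := off_bounds P n (Fin.tail u)
  have hc := P.pos (u 0)
  rw [off]
  nlinarith

omit [Fintype α] [DecidableEq α] in
theorem off_le (P : Side α) (n : ℕ) (u : Fin (n + 1) → α) :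
    off P (n + 1) u + rat P (n + 1) u ≤ P.a (u 0) + P.c (u 0) := by
  obtain ⟨h1, h2⟩ := off_bounds P n (Fin.tail u)
  have hc := P.pos (u 0)
  rw [off, rat_succ]
  nlinarith

omit [Fintype α] [DecidableEq α] in
theorem rat_lt_one (P : Side α) (n : ℕ) (u : Fin (n + 1) → α) : rat P (n + 1) u < 1 := by
  have h1 := off_ge P n u
  have h2 := off_le P n u
  have h3 := P.lt_one (u 0)
  linarith

omit [Fintype α] [DecidableEq α] in
theorem off_sep (P : Side α) : ∀ (n : ℕ) (u v : Fin n → α), u ≠ v →
    off P n u + rat P n u ≤ off P n v ∨ off P n v + rat P n v ≤ off P n u := by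
  intro n
  induction n with
  | zero => intro u v h; exact (h (Subsingleton.elim _ _)).elim
  | succ n ih =>
    intro u v h
    by_cases h0 : u 0 = v 0
    · have ht : Fin.tail u ≠ Fin.tail v := by
        intro ht
        apply h
        rw [← Fin.cons_self_tail u, ← Fin.cons_self_tail v, ht, h0]
      have hc := P.pos (v 0)
      rcases ih _ _ ht with h1 | h1
      · left
        rw [off, off, rat_succ, h0]
        have := mul_le_mul_of_nonneg_left h1 hc.le
        linarith
      · right
        rw [off, off, rat_succ, h0]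
        have := mul_le_mul_of_nonneg_left h1 hc.le
        linarith
    · have h1 := off_ge P n u
      have h2 := off_le P n u
      have h3 := off_ge P n v
      have h4 := off_le P n v
      rcases P.sep _ _ h0 with h5 | h5
      · left; linarith
      · right; linarith

omit [Fintype α] [Fintype β] [DecidableEq α] [DecidableEq β] in
theorem Attr.word {P : Side α} {Q : Side β} {I : Finset (α × β)} {o o' : Fin 2}
    {F : Set Plane} (h : Attr P Q I o o' F) : ∀ (n : ℕ) (w : Fin n → α × β), (∀ i, w i ∈ I) →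
    ∀ z ∈ F, ∃ z' ∈ F, z' o = rat P n (fun i => (w i).1) * z o + off P n (fun i => (w i).1) ∧
      z' o' = rat Q n (fun i => (w i).2) * z o' + off Q n (fun i => (w i).2) := by
  intro n
  induction n with
  | zero => intro w _ z hz; exact ⟨z, hz, by simp [rat, off], by simp [rat, off]⟩
  | succ n ih =>
    intro w hw z hz
    obtain ⟨z1, hz1, h1, h2⟩ := ih (Fin.tail w) (fun i => hw _) z hz
    obtain ⟨z2, hz2, h3, h4⟩ := h.maps (w 0) (hw 0) z1 hz1
    have t1 : (fun i => (Fin.tail w i).1) = Fin.tail (fun i => (w i).1) := rfl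
    have t2 : (fun i => (Fin.tail w i).2) = Fin.tail (fun i => (w i).2) := rfl
    rw [t1] at h1
    rw [t2] at h2
    refine ⟨z2, hz2, ?_, ?_⟩
    · rw [h3, h1, rat_succ, off]
      ring
    · rw [h4, h2, rat_succ, off]
      ring

theorem H (hH0 : S_H0) (hTYP : S_TYP) : S_H := by
  intro α β _ _ _ _ P Q I o o' F h p hp hs χc χd hh h2 e1 e2 e3 e4 hle
  have hIne : I.Nonempty := by
    by_contra hne
    rw [Finset.not_nonempty_iff_eq_empty] at hne
    rw [hne] at hs
    simp at hs
  have hχcp : 0 < χc := by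
    rw [e1, ← Finset.sum_neg_distrib]
    apply Finset.sum_pos
    · intro i hi
      have h1 := hp i hi
      have h2 := Real.log_neg (P.pos i.1) (P.lt_one i.1)
      nlinarith
    · exact hIne
  have hχdp : 0 < χd := by
    rw [e2, ← Finset.sum_neg_distrib]
    apply Finset.sum_pos
    · intro i hi
      have h1 := hp i hi
      have h2 := Real.log_neg (Q.pos i.2) (Q.lt_one i.2)
      nlinarith
    · exact hIne
  have key : ∀ ε : ℝ, 0 < ε → ENNReal.ofReal ((h2 - ε) / (χd + ε) + (hh - h2 - ε) / (χc + ε)) ≤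
      dimH F := by
    intro ε hε
    have hev := hTYP P Q I p hp hs ε hε
    obtain ⟨n, ⟨Y, W, hW, hY, hfib, hcW, hdW⟩, hn⟩ := (hev.and (eventually_ge_atTop 1)).exists
    rw [← e4] at hY
    rw [← e4, ← e3] at hfib
    rw [← e1] at hcW
    rw [← e2] at hdW
    obtain ⟨n, rfl⟩ : ∃ m, n = m + 1 := ⟨n - 1, by omega⟩
    obtain ⟨M, hM⟩ : ∃ M : ℕ, M = ⌈Real.exp ((n + 1 : ℕ) * (hh - h2 - ε))⌉₊ := ⟨_, rfl⟩
    have hMpos : 0 < M := by rw [hM]; exact Nat.ceil_pos.2 (Real.exp_pos _)
    have hNpos : 0 < Y.card := by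
      have : (0 : ℝ) < Y.card := lt_of_lt_of_le (Real.exp_pos _) hY
      exact_mod_cast this
    have hcard : ∀ y ∈ Y, M ≤ (W.filter (fun w => (fun i => (w i).2) = y)).card := by
      intro y hy
      rw [hM]
      exact Nat.ceil_le.2 (hfib y hy)
    -- enumeration
    have hex : ∀ a : Fin Y.card, ∃ f : Fin M → (Fin (n + 1) → α × β), Function.Injective f ∧
        ∀ m, f m ∈ W ∧ (fun i => (f m i).2) = (Y.equivFin.symm a).1 := by
      intro a
      obtain ⟨s, hs1, hs2⟩ := Finset.exists_subset_card_eq (hcard _ (Y.equivFin.symm a).2)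
      refine ⟨fun m => (s.equivFin.symm (Fin.cast hs2.symm m)).1, ?_, ?_⟩
      · intro m m' hmm
        have h3 := s.equivFin.symm.injective (Subtype.ext hmm)
        exact Fin.cast_injective _ h3
      · intro m
        have h3 := hs1 (s.equivFin.symm (Fin.cast hs2.symm m)).2
        exact Finset.mem_filter.1 h3
    choose f hf1 hf2 using hex
    have hyw : ∀ a m, (fun i => (f a m i).2) = (Y.equivFin.symm a).1 := fun a m => (hf2 a m).2
    have hmain := hH0 F o o' Y.card M (Real.exp (-((n + 1 : ℕ) * (χc + ε))))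
      (Real.exp (-((n + 1 : ℕ) * (χd + ε))))
      (fun a m => rat P (n + 1) (fun i => (f a m i).1))
      (fun a m => off P (n + 1) (fun i => (f a m i).1))
      (fun a => rat Q (n + 1) (Y.equivFin.symm a).1)
      (fun a => off Q (n + 1) (Y.equivFin.symm a).1)
      h.nonempty h.compact.isClosed h.unit h.ne hNpos hMpos (Real.exp_pos _)
      (Real.exp_le_exp.2 (by
        have : (0 : ℝ) ≤ ((n + 1 : ℕ) : ℝ) := Nat.cast_nonneg _
        nlinarith))
      (fun a m => hcW _ (hf2 a m).1)
      (fun a m => rat_lt_one P n _)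
      (fun a m => (off_bounds P _ _).1)
      (fun a m => (off_bounds P _ _).2)
      (by
        intro a
        have h3 := hdW _ (hf2 a ⟨0, hMpos⟩).1
        rw [← hyw a ⟨0, hMpos⟩]
        exact h3)
      (fun a => rat_lt_one Q n _)
      (fun a => (off_bounds Q _ _).1)
      (fun a => (off_bounds Q _ _).2)
      (by
        intro a m m' hmm
        apply off_sep
        intro heq
        apply hmm
        apply hf1 a
        funext i
        have h3 := congrFun heq i
        have h4 := congrFun ((hyw a m).trans (hyw a m').symm) i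
        exact Prod.ext h3 h4)
      (by
        intro a a' haa
        apply off_sep
        intro heq
        exact haa (Y.equivFin.symm.injective (Subtype.ext heq)))
      (by
        intro a m z hz
        obtain ⟨z', hz', h3, h4⟩ := h.word (n + 1) (f a m) (hW _ (hf2 a m).1) z hz
        rw [hyw a m] at h4
        exact ⟨z', hz', h3, h4⟩)
    refine le_trans (ENNReal.ofReal_le_ofReal ?_) hmain
    have hn0 : (0 : ℝ) < ((n + 1 : ℕ) : ℝ) := by positivity
    have l1 : Real.log (1 / Real.exp (-((n + 1 : ℕ) * (χd + ε)))) = (n + 1 : ℕ) * (χd + ε) := by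
      rw [one_div, Real.log_inv, Real.log_exp, neg_neg]
    have l2 : Real.log (1 / Real.exp (-((n + 1 : ℕ) * (χc + ε)))) = (n + 1 : ℕ) * (χc + ε) := by
      rw [one_div, Real.log_inv, Real.log_exp, neg_neg]
    rw [l1, l2]
    have l3 : (n + 1 : ℕ) * (h2 - ε) ≤ Real.log Y.card := by
      rw [Real.le_log_iff_exp_le (by exact_mod_cast hNpos)]
      exact hY
    have l4 : (n + 1 : ℕ) * (hh - h2 - ε) ≤ Real.log M := by
      rw [Real.le_log_iff_exp_le (by exact_mod_cast hMpos), hM]
      exact Nat.le_ceil _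
    have d1 : 0 < χd + ε := by linarith
    have d2 : 0 < χc + ε := by linarith
    apply add_le_add
    · rw [div_le_div_iff₀ d1 (by positivity)]
      calc (h2 - ε) * ((n + 1 : ℕ) * (χd + ε)) = ((n + 1 : ℕ) * (h2 - ε)) * (χd + ε) := by ring
        _ ≤ Real.log Y.card * (χd + ε) := mul_le_mul_of_nonneg_right l3 d1.le
    · rw [div_le_div_iff₀ d2 (by positivity)]
      calc (hh - h2 - ε) * ((n + 1 : ℕ) * (χc + ε)) =
            ((n + 1 : ℕ) * (hh - h2 - ε)) * (χc + ε) := by ring
        _ ≤ Real.log M * (χc + ε) := mul_le_mul_of_nonneg_right l4 d2.le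
  have hlim : Tendsto (fun ε : ℝ => ENNReal.ofReal ((h2 - ε) / (χd + ε) +
      (hh - h2 - ε) / (χc + ε))) (𝓝[>] 0) (𝓝 (ENNReal.ofReal (h2 / χd + (hh - h2) / χc))) := by
    apply ENNReal.tendsto_ofReal
    apply tendsto_nhdsWithin_of_tendsto_nhds
    have h3 : ContinuousAt (fun ε : ℝ => (h2 - ε) / (χd + ε) + (hh - h2 - ε) / (χc + ε)) 0 := by
      apply ContinuousAt.add
      · apply ContinuousAt.div (by fun_prop) (by fun_prop)
        simpa using hχdp.ne'
      · apply ContinuousAt.div (by fun_prop) (by fun_prop)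
        simpa using hχcp.ne'
    have h4 := h3.tendsto
    simpa using h4
  exact le_of_tendsto hlim (by
    filter_upwards [self_mem_nhdsWithin] with ε hε
    exact key ε hε)

end Pool.Agent.H891.Carp
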