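import Pool.Agent.H891.Carpet.Defs

/-!
Fixed statements of the parts of MP_0a98f6_an.
-/

namespace Pool.Agent.H891.Carp

open Set MeasureTheory Filter Topology
open scoped ENNReal NNReal

/-- (U) upper bound for the upper box dimension. -/
def S_U : Prop := ∀ {α β : Type} [Fintype α] [Fintype β] [DecidableEq α] [DecidableEq β]
  (P : Side α) (Q : Side β) (I : Finset (α × β)) (o o' : Fin 2) (F : Set Plane),
  Attr P Q I o o' F → ∀ t1 t2 s1 s2 : ℝ, 0 ≤ t1 → 0 ≤ t2 → t1 ≤ s1 → t2 ≤ s2 →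
  ∑ k ∈ usedCols I, P.c k ^ t1 ≤ 1 → ∑ j ∈ usedRows I, Q.c j ^ t2 ≤ 1 →
  ∑ i ∈ I, P.c i.1 ^ t1 * Q.c i.2 ^ (s1 - t1) ≤ 1 →
  ∑ i ∈ I, P.c i.1 ^ (s2 - t2) * Q.c i.2 ^ t2 ≤ 1 →
  upperBoxDim F ≤ ENNReal.ofReal (max s1 s2)

/-- (A) lower bound for the Assouad dimension. -/
def S_A : Prop := ∀ {α β : Type} [Fintype α] [Fintype β] [DecidableEq α] [DecidableEq β]
  (P : Side α) (Q : Side β) (I : Finset (α × β)) (o o' : Fin 2) (F : Set Plane),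
  Attr P Q I o o' F → (∃ i ∈ I, P.c i.1 < Q.c i.2) → ∀ (j : β) (v t : ℝ), 0 ≤ v → 0 ≤ t →
  ∑ k ∈ rowCells I j, P.c k ^ v = 1 → ∑ j ∈ usedRows I, Q.c j ^ t = 1 →
  ENNReal.ofReal (t + v) ≤ assouadDim F

/-- (L) upper bound for the lower dimension. -/
def S_L : Prop := ∀ {α β : Type} [Fintype α] [Fintype β] [DecidableEq α] [DecidableEq β]
  (P : Side α) (Q : Side β) (I : Finset (α × β)) (o o' : Fin 2) (F : Set Plane),
  Attr P Q I o o' F → (∃ i ∈ I, P.c i.1 < Q.c i.2) →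
  (∃ i ∈ I, ∃ i' ∈ I, i.1 ≠ i'.1) → (∃ i ∈ I, ∃ i' ∈ I, i.2 ≠ i'.2) →
  ∀ (j : β) (v t : ℝ), 0 ≤ v → 0 ≤ t →
  ∑ k ∈ rowCells I j, P.c k ^ v = 1 → ∑ j ∈ usedRows I, Q.c j ^ t = 1 →
  lowerDim F ≤ ENNReal.ofReal (t + v)

/-- (H0) Hausdorff dimension of a set containing a uniform self-affine set. -/
def S_H0 : Prop := ∀ (F : Set Plane) (o o' : Fin 2) (N M : ℕ) (C D : ℝ)
  (c a : Fin N → Fin M → ℝ) (d b : Fin N → ℝ),
  F.Nonempty → IsClosed F → (∀ z ∈ F, ∀ i, z i ∈ Icc (0 : ℝ) 1) → o ≠ o' → 0 < N → 0 < M →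
  0 < C → C ≤ D → (∀ n m, C ≤ c n m) → (∀ n m, c n m < 1) → (∀ n m, 0 ≤ a n m) →
  (∀ n m, a n m + c n m ≤ 1) → (∀ n, D ≤ d n) → (∀ n, d n < 1) → (∀ n, 0 ≤ b n) →
  (∀ n, b n + d n ≤ 1) →
  (∀ n m m', m ≠ m' → a n m + c n m ≤ a n m' ∨ a n m' + c n m' ≤ a n m) →
  (∀ n n', n ≠ n' → b n + d n ≤ b n' ∨ b n' + d n' ≤ b n) →
  (∀ n m, ∀ z ∈ F, ∃ z' ∈ F, z' o = c n m * z o + a n m ∧ z' o' = d n * z o' + b n) →
  ENNReal.ofReal (Real.log N / Real.log (1 / D) + Real.log M / Real.log (1 / C)) ≤ dimH F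

/-- (TYP) typical words. -/
def S_TYP : Prop := ∀ {α β : Type} [Fintype α] [Fintype β] [DecidableEq α] [DecidableEq β]
  (P : Side α) (Q : Side β) (I : Finset (α × β)) (p : α × β → ℝ),
  (∀ i ∈ I, 0 < p i) → ∑ i ∈ I, p i = 1 → ∀ ε : ℝ, 0 < ε →
  ∀ᶠ n : ℕ in atTop, ∃ (Y : Finset (Fin n → β)) (W : Finset (Fin n → α × β)),
    (∀ w ∈ W, ∀ i, w i ∈ I) ∧
    Real.exp (n * (-(∑ j ∈ usedRows I, (∑ k ∈ rowCells I j, p (k, j)) *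
      Real.log (∑ k ∈ rowCells I j, p (k, j))) - ε)) ≤ Y.card ∧
    (∀ y ∈ Y, Real.exp (n * ((-∑ i ∈ I, p i * Real.log (p i)) -
      (-(∑ j ∈ usedRows I, (∑ k ∈ rowCells I j, p (k, j)) *
      Real.log (∑ k ∈ rowCells I j, p (k, j)))) - ε)) ≤
        (W.filter (fun w => (fun i => (w i).2) = y)).card) ∧
    (∀ w ∈ W, Real.exp (-(n * ((-∑ i ∈ I, p i * Real.log (P.c i.1)) + ε))) ≤
      ∏ i, P.c (w i).1) ∧
    (∀ w ∈ W, Real.exp (-(n * ((-∑ i ∈ I, p i * Real.log (Q.c i.2)) + ε))) ≤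
      ∏ i, Q.c (w i).2)

/-- (H) Hausdorff lower bound. -/
def S_H : Prop := ∀ {α β : Type} [Fintype α] [Fintype β] [DecidableEq α] [DecidableEq β]
  (P : Side α) (Q : Side β) (I : Finset (α × β)) (o o' : Fin 2) (F : Set Plane),
  Attr P Q I o o' F → ∀ p : α × β → ℝ, (∀ i ∈ I, 0 < p i) → ∑ i ∈ I, p i = 1 →
  ∀ χc χd h h2 : ℝ, χc = -∑ i ∈ I, p i * Real.log (P.c i.1) →
  χd = -∑ i ∈ I, p i * Real.log (Q.c i.2) → h = -∑ i ∈ I, p i * Real.log (p i) →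
  h2 = -∑ j ∈ usedRows I, (∑ k ∈ rowCells I j, p (k, j)) *
      Real.log (∑ k ∈ rowCells I j, p (k, j)) →
  χd ≤ χc → ENNReal.ofReal (h2 / χd + (h - h2) / χc) ≤ dimH F

/-- (B) Hausdorff dimension is at most the lower box dimension. -/
def S_B : Prop := ∀ F : Set Plane, Bornology.IsBounded F → dimH F ≤ lowerBoxDim F

/-- (E) every carpet has an attractor. -/
def S_E : Prop := ∀ Q : Carpet, ∃ F, Q.IsAttractor F

end Pool.Agent.H891.Carp
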