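import Mathlib
import Pool.Agent.R826.SPLow
import Pool.Agent.H891.Carpet.Stm

/-!
# MP_0a98f6_an, part H0: mass distribution for a uniform self-affine set
-/

namespace Pool.Agent.H891.Carp

open Set MeasureTheory Filter Topology
open scoped ENNReal NNReal

namespace H0A

/-- product of the ratios -/
noncomputable def R (p : ℕ → ℝ) (k : ℕ) : ℝ := ∏ i ∈ Finset.range k, p i

/-- left end point of the level k interval -/
noncomputable def T (p q : ℕ → ℝ) (k : ℕ) : ℝ := ∑ i ∈ Finset.range k, R p i * q i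

structure Ok (p q : ℕ → ℝ) : Prop where
  h0 : ∀ i, 0 ≤ p i
  h1 : ∀ i, p i ≤ 1
  hq : ∀ i, 0 ≤ q i
  hpq : ∀ i, q i + p i ≤ 1

lemma R_zero (p : ℕ → ℝ) : R p 0 = 1 := by simp [R]

lemma R_succ (p : ℕ → ℝ) (k : ℕ) : R p (k + 1) = R p k * p k := by
  simp [R, Finset.prod_range_succ]

lemma T_zero (p q : ℕ → ℝ) : T p q 0 = 0 := by simp [T]

lemma T_succ (p q : ℕ → ℝ) (k : ℕ) : T p q (k + 1) = T p q k + R p k * q k := by
  simp [T, Finset.sum_range_succ]

variable {p q : ℕ → ℝ}

lemma Ok.R_nonneg (h : Ok p q) (k : ℕ) : 0 ≤ R p k :=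
  Finset.prod_nonneg fun i _ => h.h0 i

lemma Ok.R_anti (h : Ok p q) : Antitone (R p) := by
  refine antitone_nat_of_succ_le fun k => ?_
  rw [R_succ]
  exact mul_le_of_le_one_right (h.R_nonneg k) (h.h1 k)

lemma Ok.T_mono (h : Ok p q) : Monotone (T p q) := by
  refine monotone_nat_of_le_succ fun k => ?_
  rw [T_succ]
  have := mul_nonneg (h.R_nonneg k) (h.hq k)
  linarith

lemma Ok.TR_anti (h : Ok p q) : Antitone (fun k => T p q k + R p k) := by
  refine antitone_nat_of_succ_le fun k => ?_
  rw [T_succ, R_succ]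
  have := mul_le_mul_of_nonneg_left (h.hpq k) (h.R_nonneg k)
  nlinarith

lemma Ok.T_le_one (h : Ok p q) (k : ℕ) : T p q k ≤ 1 := by
  have h1 := h.TR_anti (Nat.zero_le k)
  have h2 := h.R_nonneg k
  simp only [T_zero, R_zero] at h1
  linarith

/-- the limit point -/
noncomputable def V (p q : ℕ → ℝ) (z : ℝ) : ℝ := (⨅ k, R p k) * z + ⨆ k, T p q k

lemma Ok.tendsto (h : Ok p q) (z : ℝ) :
    Tendsto (fun k => R p k * z + T p q k) atTop (𝓝 (V p q z)) := by
  have h1 : Tendsto (R p) atTop (𝓝 (⨅ k, R p k)) :=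
    tendsto_atTop_ciInf h.R_anti ⟨0, by rintro _ ⟨k, rfl⟩; exact h.R_nonneg k⟩
  have h2 : Tendsto (T p q) atTop (𝓝 (⨆ k, T p q k)) :=
    tendsto_atTop_ciSup h.T_mono ⟨1, by rintro _ ⟨k, rfl⟩; exact h.T_le_one k⟩
  exact (h1.mul_const z).add h2

lemma Ok.V_mem (h : Ok p q) {z : ℝ} (hz : z ∈ Icc (0:ℝ) 1) (k : ℕ) :
    T p q k ≤ V p q z ∧ V p q z ≤ T p q k + R p k := by
  constructor
  · refine ge_of_tendsto (h.tendsto z) ?_
    filter_upwards [eventually_ge_atTop k] with m hm
    have h1 := h.T_mono hm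
    have h2 := mul_nonneg (h.R_nonneg m) hz.1
    linarith
  · refine le_of_tendsto (h.tendsto z) ?_
    filter_upwards [eventually_ge_atTop k] with m hm
    have h1 := h.TR_anti hm
    have h2 := mul_le_mul_of_nonneg_left hz.2 (h.R_nonneg m)
    simp only at h1
    linarith

lemma R_congr {p p' : ℕ → ℝ} (k : ℕ) (h : ∀ i < k, p i = p' i) : R p k = R p' k :=
  Finset.prod_congr rfl fun i hi => h i (Finset.mem_range.1 hi)

lemma T_congr {p q p' q' : ℕ → ℝ} (k : ℕ) (h : ∀ i < k, p i = p' i) (h' : ∀ i < k, q i = q' i) :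
    T p q k = T p' q' k :=
  Finset.sum_congr rfl fun i hi => by
    have hi' := Finset.mem_range.1 hi
    rw [R_congr i fun j hj => h j (hj.trans hi'), h' i hi']

/-- different words give non-overlapping intervals -/
lemma sep {p q p' q' : ℕ → ℝ} (h : Ok p q) (h' : Ok p' q') (m k : ℕ) (hmk : m < k)
    (e : ∀ i < m, p i = p' i) (e' : ∀ i < m, q i = q' i)
    (hs : q m + p m ≤ q' m ∨ q' m + p' m ≤ q m) :
    T p q k + R p k ≤ T p' q' k ∨ T p' q' k + R p' k ≤ T p q k := by
  have a1 := h.TR_anti (Nat.succ_le_of_lt hmk)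
  have a2 := h'.TR_anti (Nat.succ_le_of_lt hmk)
  have b1 := h.T_mono (Nat.succ_le_of_lt hmk)
  have b2 := h'.T_mono (Nat.succ_le_of_lt hmk)
  have hR := R_congr m e
  have hT := T_congr m e e'
  have hR0 := h.R_nonneg m
  simp only [Nat.succ_eq_add_one, T_succ, R_succ] at a1 a2 b1 b2
  rw [← hR, ← hT] at a2 b2
  rcases hs with hs | hs
  · left
    have := mul_le_mul_of_nonneg_left hs hR0
    nlinarith
  · right
    have := mul_le_mul_of_nonneg_left hs hR0
    nlinarith

/-- at most four non-overlapping intervals of length at least r meet [z - r, z + r] -/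
lemma count4 {ι : Type*} (S : Finset ι) (z r : ℝ) (hr : 0 < r) (l u : ι → ℝ)
    (hlen : ∀ i ∈ S, l i + r ≤ u i) (h1 : ∀ i ∈ S, l i ≤ z + r) (h2 : ∀ i ∈ S, z - r ≤ u i)
    (hs : ∀ i ∈ S, ∀ j ∈ S, i ≠ j → u i ≤ l j ∨ u j ≤ l i) : S.card ≤ 4 := by
  classical
  set g : ι → ℤ := fun i => if l i < z - r then -1 else ⌊(l i - (z - r)) / r⌋ with hg
  have hcard : S.card ≤ (Finset.Icc (-1:ℤ) 2).card := by
    refine Finset.card_le_card_of_injOn g ?_ ?_
    · intro i hi
      simp only [Finset.coe_Icc, Set.mem_Icc, hg]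
      split_ifs with hc
      · norm_num
      · push Not at hc
        have e1 : 0 ≤ (l i - (z - r)) / r := div_nonneg (by linarith) hr.le
        have e2 : (l i - (z - r)) / r ≤ 2 := by
          rw [div_le_iff₀ hr]
          linarith [h1 i hi]
        constructor
        · have := Int.floor_nonneg.2 e1
          omega
        · have : ⌊(l i - (z - r)) / r⌋ ≤ ⌊(2:ℝ)⌋ := Int.floor_le_floor e2
          simpa using this
    · intro i hi j hj hij
      by_contra hne
      have hi' : i ∈ S := hi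
      have hj' : j ∈ S := hj
      have hsep := hs i hi' j hj' hne
      have li := hlen i hi'
      have lj := hlen j hj'
      have ui := h2 i hi'
      have uj := h2 j hj'
      simp only [hg] at hij
      split_ifs at hij with ha hb hb
      · rcases hsep with hsep | hsep <;> linarith
      · push Not at hb
        have e1 : 0 ≤ (l j - (z - r)) / r := div_nonneg (by linarith) hr.le
        have := Int.floor_nonneg.2 e1
        omega
      · push Not at ha
        have e1 : 0 ≤ (l i - (z - r)) / r := div_nonneg (by linarith) hr.le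
        have := Int.floor_nonneg.2 e1
        omega
      · have h3 := Int.abs_sub_lt_one_of_floor_eq_floor hij
        rw [← sub_div, abs_div, abs_of_pos hr, div_lt_one hr, abs_lt] at h3
        rcases hsep with hsep | hsep <;> linarith [h3.1, h3.2]
  simpa using hcard

/-- uniform probability on Fin N -/
noncomputable def unif (N : ℕ) : Measure (Fin N) := (N : ℝ≥0∞)⁻¹ • Measure.count

instance (N : ℕ) [NeZero N] : IsProbabilityMeasure (unif N) := ⟨by
  have h : (N : ℝ≥0∞) ≠ 0 := by
    have := NeZero.ne N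
    exact_mod_cast this
  rw [unif, Measure.smul_apply, Measure.count_univ]
  simp only [ENat.card_eq_coe_fintype_card, Fintype.card_fin, smul_eq_mul]
  exact ENNReal.inv_mul_cancel h (ENNReal.natCast_ne_top N)⟩

lemma unif_singleton (N : ℕ) (a : Fin N) : unif N {a} = (N : ℝ≥0∞)⁻¹ := by
  rw [unif, Measure.smul_apply, Measure.count_singleton, smul_eq_mul, mul_one]

/-- the Bernoulli measure -/
noncomputable def bern (N : ℕ) [NeZero N] : Measure (ℕ → Fin N) :=
  Measure.infinitePi (fun _ => unif N)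

instance (N : ℕ) [NeZero N] : IsProbabilityMeasure (bern N) := by
  unfold bern; infer_instance

/-- prefix of a sequence -/
def pre {γ : Type*} (k : ℕ) (η : ℕ → γ) : Fin k → γ := fun i => η i

lemma bern_pre (N : ℕ) [NeZero N] (k : ℕ) (η : ℕ → Fin N) :
    bern N (pre k ⁻¹' {pre k η}) = (N : ℝ≥0∞)⁻¹ ^ k := by
  have : pre k ⁻¹' {pre k η} = Set.pi (Finset.range k) (fun i => {η i}) := by
    ext ξ
    simp only [Set.mem_preimage, Set.mem_singleton_iff, Set.mem_pi, Finset.coe_range, Set.mem_Iio]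
    constructor
    · intro h i hi
      exact congrFun h ⟨i, hi⟩
    · intro h
      funext i
      exact h i i.2
  rw [this, bern, Measure.infinitePi_pi _ (fun i _ => measurableSet_singleton _)]
  simp [unif_singleton]

lemma first_diff {γ : Type*} {k : ℕ} {η η' : ℕ → γ} (h : pre k η ≠ pre k η') :
    ∃ m < k, η m ≠ η' m ∧ ∀ i < m, η i = η' i := by
  classical
  have hex : ∃ m, m < k ∧ η m ≠ η' m := by
    by_contra hc
    push Not at hc
    exact h (funext fun i => hc i i.2)
  refine ⟨Nat.find hex, (Nat.find_spec hex).1, (Nat.find_spec hex).2, fun i hi => ?_⟩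
  have := Nat.find_min hex hi
  push Not at this
  exact this (hi.trans (Nat.find_spec hex).1)

lemma pre_eq {γ : Type*} {k : ℕ} {η η' : ℕ → γ} (h : pre k η = pre k η') {i : ℕ} (hi : i < k) :
    η i = η' i := congrFun h ⟨i, hi⟩

open Classical in
/-- rows of a set of codes -/
noncomputable def rowsOf {γ δ : Type*} [Fintype γ] (E : Set ((ℕ → γ) × (ℕ → δ)))
    (k : ℕ) : Finset (Fin k → γ) := Finset.univ.filter fun w => ∃ e ∈ E, pre k e.1 = w

open Classical in
/-- cells of a set of codes over a row word -/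
noncomputable def cellsOf {γ δ : Type*} [Fintype δ] (E : Set ((ℕ → γ) × (ℕ → δ)))
    (k l : ℕ) (w : Fin k → γ) : Finset (Fin l → δ) :=
  Finset.univ.filter fun v => ∃ e ∈ E, pre k e.1 = w ∧ pre l e.2 = v

lemma mass_le (N M : ℕ) [NeZero N] [NeZero M] (E : Set ((ℕ → Fin N) × (ℕ → Fin M))) (k l : ℕ)
    (hA : (rowsOf E k).card ≤ 4) (hB : ∀ w ∈ rowsOf E k, (cellsOf E k l w).card ≤ 4) :
    ((bern N).prod (bern M)) E ≤ 16 * ((N : ℝ≥0∞)⁻¹ ^ k * (M : ℝ≥0∞)⁻¹ ^ l) := by
  classical
  have hsub : E ⊆ ⋃ w ∈ rowsOf E k, ⋃ v ∈ cellsOf E k l w,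
      (pre k ⁻¹' {w}) ×ˢ (pre l ⁻¹' {v}) := by
    intro e he
    simp only [Set.mem_iUnion]
    refine ⟨pre k e.1, ?_, pre l e.2, ?_, ?_⟩
    · simp only [rowsOf, Finset.mem_filter, Finset.mem_univ, true_and]
      exact ⟨e, he, rfl⟩
    · simp only [cellsOf, Finset.mem_filter, Finset.mem_univ, true_and]
      exact ⟨e, he, rfl, rfl⟩
    · exact ⟨rfl, rfl⟩
  calc ((bern N).prod (bern M)) E
      ≤ ((bern N).prod (bern M)) (⋃ w ∈ rowsOf E k, ⋃ v ∈ cellsOf E k l w,
      (pre k ⁻¹' {w}) ×ˢ (pre l ⁻¹' {v})) := measure_mono hsub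
    _ ≤ ∑ w ∈ rowsOf E k, ((bern N).prod (bern M)) (⋃ v ∈ cellsOf E k l w,
      (pre k ⁻¹' {w}) ×ˢ (pre l ⁻¹' {v})) := measure_biUnion_finset_le _ _
    _ ≤ ∑ w ∈ rowsOf E k, ∑ v ∈ cellsOf E k l w, ((bern N).prod (bern M))
      ((pre k ⁻¹' {w}) ×ˢ (pre l ⁻¹' {v})) :=
        Finset.sum_le_sum fun w _ => measure_biUnion_finset_le _ _
    _ = ∑ w ∈ rowsOf E k, ∑ v ∈ cellsOf E k l w, ((N : ℝ≥0∞)⁻¹ ^ k * (M : ℝ≥0∞)⁻¹ ^ l) := by
        refine Finset.sum_congr rfl fun w hw => Finset.sum_congr rfl fun v hv => ?_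
        simp only [cellsOf, Finset.mem_filter, Finset.mem_univ, true_and] at hv
        obtain ⟨e, he, rfl, rfl⟩ := hv
        rw [Measure.prod_prod, bern_pre, bern_pre]
    _ ≤ ∑ w ∈ rowsOf E k, 4 * ((N : ℝ≥0∞)⁻¹ ^ k * (M : ℝ≥0∞)⁻¹ ^ l) := by
        refine Finset.sum_le_sum fun w hw => ?_
        rw [Finset.sum_const, nsmul_eq_mul]
        gcongr
        exact_mod_cast hB w hw
    _ ≤ 16 * ((N : ℝ≥0∞)⁻¹ ^ k * (M : ℝ≥0∞)⁻¹ ^ l) := by
        rw [Finset.sum_const, nsmul_eq_mul]
        have : ((rowsOf E k).card : ℝ≥0∞) ≤ 4 := by exact_mod_cast hA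
        calc ((rowsOf E k).card : ℝ≥0∞) * (4 * ((N : ℝ≥0∞)⁻¹ ^ k * (M : ℝ≥0∞)⁻¹ ^ l))
            ≤ 4 * (4 * ((N : ℝ≥0∞)⁻¹ ^ k * (M : ℝ≥0∞)⁻¹ ^ l)) := by gcongr
          _ = _ := by rw [← mul_assoc]; norm_num

lemma pow_bound (N : ℕ) (hN : 0 < N) (D b : ℝ) (hD0 : 0 < D) (hD1 : D < 1) (k : ℕ)
    (h : D ^ (k + 1) < Real.exp (-b)) :
    ((N : ℝ)⁻¹) ^ k ≤ N * Real.exp (-(b * (Real.log N / Real.log (1 / D)))) := by
  have hN0 : (0:ℝ) < N := by exact_mod_cast hN
  have hlN : 0 ≤ Real.log N := Real.log_natCast_nonneg N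
  have hlD : 0 < Real.log (1 / D) := Real.log_pos (by rw [lt_div_iff₀ hD0]; linarith)
  have h1 : b < (k + 1) * Real.log (1 / D) := by
    have h2 := Real.log_lt_log (by positivity) h
    rw [Real.log_exp, Real.log_pow] at h2
    push_cast at h2
    rw [one_div, Real.log_inv]
    linarith
  have h3 : b * (Real.log N / Real.log (1 / D)) ≤ (k + 1) * Real.log N := by
    have h4 : b / Real.log (1 / D) ≤ k + 1 := by
      rw [div_le_iff₀ hlD]; exact h1.le
    calc b * (Real.log N / Real.log (1 / D)) = b / Real.log (1 / D) * Real.log N := by ring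
      _ ≤ (k + 1) * Real.log N := mul_le_mul_of_nonneg_right h4 hlN
  have h5 : ((N : ℝ)⁻¹) ^ k = N * Real.exp (-((k + 1) * Real.log N)) := by
    have : Real.exp (-((k + 1) * Real.log N)) = ((N : ℝ)⁻¹) ^ (k + 1) := by
      rw [inv_pow, ← Real.exp_log (pow_pos hN0 (k + 1)), Real.log_pow, ← Real.exp_neg]
      push_cast
      rfl
    rw [this, pow_succ]
    field_simp
  rw [h5]
  gcongr

end H0A

open H0A in
theorem H0 : S_H0 := by
  classical
  intro F o o' N M C D c a d b hne hcl hunit hoo hN hM hC hCD hcC hc1 ha0 hac hdD hd1 hb0 hbd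
    hsx hsy hmaps
  have : NeZero N := ⟨hN.ne'⟩
  have : NeZero M := ⟨hM.ne'⟩
  obtain ⟨z0, hz0⟩ := hne
  have hD0 : 0 < D := hC.trans_le hCD
  have hD1 : D < 1 := (hdD ⟨0, hN⟩).trans_lt (hd1 _)
  have hC1 : C < 1 := hCD.trans_lt hD1
  set Ω := (ℕ → Fin N) × (ℕ → Fin M) with hΩ
  set px : Ω → ℕ → ℝ := fun e i => c (e.1 i) (e.2 i) with hpx
  set qx : Ω → ℕ → ℝ := fun e i => a (e.1 i) (e.2 i) with hqx
  set py : Ω → ℕ → ℝ := fun e i => d (e.1 i) with hpy
  set qy : Ω → ℕ → ℝ := fun e i => b (e.1 i) with hqy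
  have okx : ∀ e, Ok (px e) (qx e) := fun e =>
    ⟨fun i => hC.le.trans (hcC _ _), fun i => (hc1 _ _).le, fun i => ha0 _ _, fun i => hac _ _⟩
  have oky : ∀ e, Ok (py e) (qy e) := fun e =>
    ⟨fun i => hD0.le.trans (hdD _), fun i => (hd1 _).le, fun i => hb0 _, fun i => hbd _⟩
  have hcase : ∀ i : Fin 2, i = o ∨ i = o' := by
    intro i; omega
  set code : Ω → Plane := fun e => WithLp.toLp 2 (fun i =>
    if i = o then V (px e) (qx e) (z0 o) else V (py e) (qy e) (z0 o')) with hcode
  have code_o : ∀ e, code e o = V (px e) (qx e) (z0 o) := fun e => by simp [hcode]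
  have code_o' : ∀ e, code e o' = V (py e) (qy e) (z0 o') := fun e => by
    simp [hcode, hoo.symm]
  -- approximations in F
  have happ : ∀ (e : Ω) (k : ℕ), ∀ z ∈ F, ∃ z' ∈ F, z' o = R (px e) k * z o + T (px e) (qx e) k ∧
      z' o' = R (py e) k * z o' + T (py e) (qy e) k := by
    intro e k
    induction k with
    | zero => intro z hz; exact ⟨z, hz, by simp [R_zero, T_zero], by simp [R_zero, T_zero]⟩
    | succ k ih =>
      intro z hz
      obtain ⟨z1, hz1, e1, e2⟩ := hmaps (e.1 k) (e.2 k) z hz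
      obtain ⟨z', hz', e3, e4⟩ := ih z1 hz1
      refine ⟨z', hz', ?_, ?_⟩
      · rw [e3, e1, R_succ, T_succ]
        simp only [hpx, hqx]
        ring
      · rw [e4, e2, R_succ, T_succ]
        simp only [hpy, hqy]
        ring
  have hcF : ∀ e, code e ∈ F := by
    intro e
    choose zk hzk h1 h2 using fun k => happ e k z0 hz0
    refine hcl.mem_of_tendsto (f := zk) (b := atTop) ?_ (Filter.Eventually.of_forall hzk)
    have h3 : Tendsto (fun k => (WithLp.ofLp (zk k) : Fin 2 → ℝ)) atTop
        (𝓝 (WithLp.ofLp (code e))) := by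
      rw [tendsto_pi_nhds]
      intro i
      rcases hcase i with rfl | rfl
      · have := (okx e).tendsto (z0 i)
        rw [code_o]
        exact this.congr fun k => (h1 k).symm
      · have := (oky e).tendsto (z0 i)
        rw [code_o']
        exact this.congr fun k => (h2 k).symm
    have h4 := ((PiLp.continuous_toLp 2 (fun _ : Fin 2 => ℝ)).tendsto _).comp h3
    exact h4
  -- measurability
  have hmV : ∀ (f g : Fin N × Fin M → ℝ) (z : ℝ), (∀ e : Ω, Ok (fun i => f (e.1 i, e.2 i))
      (fun i => g (e.1 i, e.2 i))) → Measurable (fun e : Ω => V (fun i => f (e.1 i, e.2 i))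
      (fun i => g (e.1 i, e.2 i)) z) := by
    intro f g z hok
    have hcoord : ∀ (h : Fin N × Fin M → ℝ) (i : ℕ), Measurable (fun e : Ω => h (e.1 i, e.2 i)) := by
      intro h i
      have : Measurable h := measurable_of_countable h
      exact this.comp (((measurable_pi_apply i).comp measurable_fst).prodMk
        ((measurable_pi_apply i).comp measurable_snd))
    have hR : ∀ k, Measurable (fun e : Ω => R (fun i => f (e.1 i, e.2 i)) k) := by
      intro k
      unfold R
      exact Finset.measurable_prod _ fun i _ => hcoord f i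
    have hT : ∀ k, Measurable (fun e : Ω => T (fun i => f (e.1 i, e.2 i))
        (fun i => g (e.1 i, e.2 i)) k) := by
      intro k
      unfold T
      exact Finset.measurable_sum _ fun i _ => (hR i).mul (hcoord g i)
    refine measurable_of_tendsto_metrizable (f := fun k (e : Ω) => R (fun i => f (e.1 i, e.2 i)) k * z +
      T (fun i => f (e.1 i, e.2 i)) (fun i => g (e.1 i, e.2 i)) k) (fun k => ?_) ?_
    · exact ((hR k).mul_const z).add (hT k)
    · rw [tendsto_pi_nhds]
      intro e
      exact (hok e).tendsto z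
  have hmc : Measurable code := by
    refine (WithLp.measurable_toLp 2 _).comp ?_
    rw [measurable_pi_iff]
    intro i
    by_cases hi : i = o
    · simp only [hi, if_true]
      exact hmV (fun p => c p.1 p.2) (fun p => a p.1 p.2) (z0 o) okx
    · simp only [hi, if_false]
      exact hmV (fun p => d p.1) (fun p => b p.1) (z0 o') oky
  -- mass distribution
  have hlD : 0 < Real.log (1 / D) := Real.log_pos (by rw [lt_div_iff₀ hD0]; linarith)
  have hlC : 0 < Real.log (1 / C) := Real.log_pos (by rw [lt_div_iff₀ hC]; linarith)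
  have hs0 : 0 ≤ Real.log N / Real.log (1 / D) + Real.log M / Real.log (1 / C) := by
    have h1 : 0 ≤ Real.log N := Real.log_natCast_nonneg N
    have h2 : 0 ≤ Real.log M := Real.log_natCast_nonneg M
    positivity
  have hN0 : (0:ℝ) < N := by exact_mod_cast hN
  have hM0 : (0:ℝ) < M := by exact_mod_cast hM
  have main := Pool.Agent.R826.SP.dimH_ge_of_mass (((bern N).prod (bern M)).map code) F ?_
    (Real.toNNReal (Real.log N / Real.log (1 / D) + Real.log M / Real.log (1 / C)))
    (16 * (N * M)) 0 (by positivity) ?_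
  · exact main
  · rw [Measure.map_apply hmc hcl.measurableSet]
    have : code ⁻¹' F = Set.univ := by
      ext e; simp [hcF e]
    rw [this, measure_univ]
    exact one_ne_zero
  · intro b' hb' U hU hdU
    rw [Measure.map_apply hmc hU.measurableSet]
    set E := code ⁻¹' U with hE
    set r := Real.exp (-b') with hr
    have hr0 : 0 < r := Real.exp_pos _
    have hr1 : r ≤ 1 := Real.exp_le_one_iff.2 (by linarith)
    rcases Set.eq_empty_or_nonempty E with hEe | ⟨e0, he0⟩
    · rw [hEe, measure_empty]; exact zero_le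
    obtain ⟨k, hk1, hk2⟩ := exists_nat_pow_near_of_lt_one hr0 hr1 hD0 hD1
    obtain ⟨l, hl1, hl2⟩ := exists_nat_pow_near_of_lt_one hr0 hr1 hC hC1
    have hlk : l ≤ k := by
      by_contra hc
      push Not at hc
      have h1 : C ^ l ≤ D ^ l := pow_le_pow_left₀ hC.le hCD l
      have h2 : D ^ l ≤ D ^ (k + 1) := pow_le_pow_of_le_one hD0.le hD1.le hc
      linarith
    have hdist : ∀ e ∈ E, ∀ i, |code e i - code e0 i| ≤ r := by
      intro e he i
      have h1 : edist (code e) (code e0) ≤ ENNReal.ofReal r :=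
        (Metric.edist_le_ediam_of_mem (show code e ∈ U from he) (show code e0 ∈ U from he0)).trans hdU
      rw [edist_dist] at h1
      have h2 := (ENNReal.ofReal_le_ofReal_iff hr0.le).1 h1
      have h3 : |code e i - code e0 i| ≤ dist (code e) (code e0) := by
        rw [EuclideanSpace.dist_eq]
        have h4 := Finset.single_le_sum (f := fun i => dist (code e i) (code e0 i) ^ 2)
          (fun i _ => sq_nonneg _) (Finset.mem_univ i)
        have h5 := Real.sqrt_le_sqrt h4
        simp only at h5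
        rw [Real.sqrt_sq dist_nonneg] at h5
        exact h5
      exact h3.trans h2
    have hRy : ∀ e : Ω, r ≤ R (py e) k := by
      intro e
      refine hk2.trans ?_
      unfold R
      calc D ^ k = ∏ _i ∈ Finset.range k, D := by simp
        _ ≤ _ := Finset.prod_le_prod (fun _ _ => hD0.le) fun i _ => hdD _
    have hRx : ∀ e : Ω, r ≤ R (px e) l := by
      intro e
      refine hl2.trans ?_
      unfold R
      calc C ^ l = ∏ _i ∈ Finset.range l, C := by simp
        _ ≤ _ := Finset.prod_le_prod (fun _ _ => hC.le) fun i _ => hcC _ _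
    have hA : (rowsOf E k).card ≤ 4 := by
      have hrep : ∀ w : Fin k → Fin N, ∃ e : Ω, w ∈ rowsOf E k → e ∈ E ∧ pre k e.1 = w := by
        intro w
        by_cases hw : w ∈ rowsOf E k
        · have hw' := hw
          simp only [rowsOf, Finset.mem_filter, Finset.mem_univ, true_and] at hw'
          obtain ⟨e, h1, h2⟩ := hw'
          exact ⟨e, fun _ => ⟨h1, h2⟩⟩
        · exact ⟨e0, fun h => absurd h hw⟩
      choose rep hrep using hrep
      refine count4 (rowsOf E k) (code e0 o') r hr0
        (fun w => T (py (rep w)) (qy (rep w)) k)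
        (fun w => T (py (rep w)) (qy (rep w)) k + R (py (rep w)) k) ?_ ?_ ?_ ?_
      · intro w hw
        have := hRy (rep w)
        try simp only
        linarith
      · intro w hw
        have h1 := (abs_le.1 (hdist _ (hrep w hw).1 o')).2
        have h2 := ((oky (rep w)).V_mem (hunit z0 hz0 o') k).1
        rw [code_o' (rep w)] at h1
        try simp only
        linarith
      · intro w hw
        have h1 := (abs_le.1 (hdist _ (hrep w hw).1 o')).1
        have h2 := ((oky (rep w)).V_mem (hunit z0 hz0 o') k).2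
        rw [code_o' (rep w)] at h1
        try simp only
        linarith
      · intro w hw w' hw' hww
        have hne : pre k (rep w).1 ≠ pre k (rep w').1 := by
          rw [(hrep w hw).2, (hrep w' hw').2]; exact hww
        obtain ⟨m, hmk, hm, hmi⟩ := first_diff hne
        refine sep (oky _) (oky _) m k hmk ?_ ?_ (hsy _ _ hm)
        · intro i hi; simp only [hpy, hmi i hi]
        · intro i hi; simp only [hqy, hmi i hi]
    have hB : ∀ w ∈ rowsOf E k, (cellsOf E k l w).card ≤ 4 := by
      intro w _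
      have hrep : ∀ v : Fin l → Fin M, ∃ e : Ω, v ∈ cellsOf E k l w →
          e ∈ E ∧ pre k e.1 = w ∧ pre l e.2 = v := by
        intro v
        by_cases hv : v ∈ cellsOf E k l w
        · have hv' := hv
          simp only [cellsOf, Finset.mem_filter, Finset.mem_univ, true_and] at hv'
          obtain ⟨e, h1, h2⟩ := hv'
          exact ⟨e, fun _ => ⟨h1, h2⟩⟩
        · exact ⟨e0, fun h => absurd h hv⟩
      choose rep hrep using hrep
      refine count4 (cellsOf E k l w) (code e0 o) r hr0
        (fun v => T (px (rep v)) (qx (rep v)) l)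
        (fun v => T (px (rep v)) (qx (rep v)) l + R (px (rep v)) l) ?_ ?_ ?_ ?_
      · intro v hv
        have := hRx (rep v)
        try simp only
        linarith
      · intro v hv
        have h1 := (abs_le.1 (hdist _ (hrep v hv).1 o)).2
        have h2 := ((okx (rep v)).V_mem (hunit z0 hz0 o) l).1
        rw [code_o (rep v)] at h1
        try simp only
        linarith
      · intro v hv
        have h1 := (abs_le.1 (hdist _ (hrep v hv).1 o)).1
        have h2 := ((okx (rep v)).V_mem (hunit z0 hz0 o) l).2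
        rw [code_o (rep v)] at h1
        try simp only
        linarith
      · intro v hv v' hv' hvv
        have hrow : pre k (rep v).1 = pre k (rep v').1 := by
          rw [(hrep v hv).2.1, (hrep v' hv').2.1]
        have hne : pre l (rep v).2 ≠ pre l (rep v').2 := by
          rw [(hrep v hv).2.2, (hrep v' hv').2.2]; exact hvv
        obtain ⟨m, hml, hm, hmi⟩ := first_diff hne
        have hm1 : (rep v).1 m = (rep v').1 m := pre_eq hrow (hml.trans_le hlk)
        refine sep (okx _) (okx _) m l hml ?_ ?_ ?_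
        · intro i hi
          simp only [hpx, hmi i hi, pre_eq hrow ((hi.trans hml).trans_le hlk)]
        · intro i hi
          simp only [hqx, hmi i hi, pre_eq hrow ((hi.trans hml).trans_le hlk)]
        · simp only [hpx, hqx, ← hm1]
          exact hsx _ _ _ hm
    refine (mass_le N M E k l hA hB).trans ?_
    have e1 := pow_bound N hN D b' hD0 hD1 k hk1
    have e2 := pow_bound M hM C b' hC hC1 l hl1
    have e3 : (16 : ℝ≥0∞) * ((N : ℝ≥0∞)⁻¹ ^ k * (M : ℝ≥0∞)⁻¹ ^ l) =
        ENNReal.ofReal (16 * (((N : ℝ)⁻¹) ^ k * ((M : ℝ)⁻¹) ^ l)) := by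
      rw [ENNReal.ofReal_mul (by norm_num), ENNReal.ofReal_mul (by positivity),
        ENNReal.ofReal_pow (by positivity), ENNReal.ofReal_pow (by positivity),
        ENNReal.ofReal_inv_of_pos hN0, ENNReal.ofReal_inv_of_pos hM0,
        ENNReal.ofReal_natCast, ENNReal.ofReal_natCast]
      norm_num
    rw [e3]
    apply ENNReal.ofReal_le_ofReal
    have e4 : Real.exp (-(b' * ((Real.toNNReal (Real.log N / Real.log (1 / D) +
        Real.log M / Real.log (1 / C)) : ℝ≥0) : ℝ))) =
        Real.exp (-(b' * (Real.log N / Real.log (1 / D)))) *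
        Real.exp (-(b' * (Real.log M / Real.log (1 / C)))) := by
      rw [← Real.exp_add, Real.coe_toNNReal _ hs0]
      congr 1
      ring
    rw [e4]
    calc 16 * (((N : ℝ)⁻¹) ^ k * ((M : ℝ)⁻¹) ^ l)
        ≤ 16 * ((N * Real.exp (-(b' * (Real.log N / Real.log (1 / D))))) *
          (M * Real.exp (-(b' * (Real.log M / Real.log (1 / C)))))) := by
          gcongr
      _ = _ := by ring

end Pool.Agent.H891.Carp
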