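import Pool.Agent.H891.Carpet.Pack

/-!
The upper bound (L) for the lower dimension.
-/

namespace Pool.Agent.H891.Carp

open Set MeasureTheory Filter Topology
open scoped ENNReal NNReal

variable {α β : Type} [Fintype α] [Fintype β] [DecidableEq α] [DecidableEq β]

omit [Fintype α] [DecidableEq α] in
theorem side_unique (P : Side α) {k l : α} {x : ℝ} (h1 : P.a k < x) (h2 : x < P.a k + P.c k)
    (h3 : P.a l ≤ x) (h4 : x ≤ P.a l + P.c l) : l = k := by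
  by_contra hne
  rcases P.sep l k hne with h | h <;> linarith

theorem iter_bounds (c a : ℝ) (hc : 0 < c) (ha : 0 ≤ a) (hac : a + c ≤ 1) :
    ∀ n, 0 ≤ iter c a n ∧ iter c a n + c ^ n ≤ 1 := by
  intro n
  induction n with
  | zero => simp [iter]
  | succ n ih =>
    obtain ⟨h1, h2⟩ := ih
    constructor
    · rw [iter]; positivity
    · rw [iter, pow_succ]
      nlinarith

omit [Fintype α] [Fintype β] [DecidableEq α] [DecidableEq β] in
theorem Attr.mem_icc {P : Side α} {Q : Side β} {I : Finset (α × β)} {o o' : Fin 2}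
    {F : Set Plane} (h : Attr P Q I o o' F) {z : Plane} (hz : z ∈ F) (i : Fin 2) :
    0 ≤ z i ∧ z i ≤ 1 := ⟨(h.unit z hz i).1, (h.unit z hz i).2⟩

omit [Fintype α] [Fintype β] [DecidableEq α] [DecidableEq β] in
theorem Attr.peelRow {P : Side α} {Q : Side β} {I : Finset (α × β)} {o o' : Fin 2}
    {F : Set Plane} (h : Attr P Q I o o' F) (j : β) {z : Plane} (hz : z ∈ F)
    (h1 : Q.a j < z o') (h2 : z o' < Q.a j + Q.c j) :
    ∃ k, (k, j) ∈ I ∧ ∃ z1 ∈ F, z o = P.c k * z1 o + P.a k ∧ z o' = Q.c j * z1 o' + Q.a j := by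
  obtain ⟨⟨k, l⟩, hi, z1, hz1, h3, h4⟩ := h.cover z hz
  obtain ⟨a1, a2⟩ := h.mem_icc hz1 o'
  have hl := Q.pos l
  simp only at h3 h4
  have : l = j := side_unique Q h1 h2 (by rw [h4]; nlinarith) (by rw [h4]; nlinarith)
  subst this
  exact ⟨k, hi, z1, hz1, h3, h4⟩

omit [Fintype α] [Fintype β] [DecidableEq α] [DecidableEq β] in
theorem Attr.peelCell {P : Side α} {Q : Side β} {I : Finset (α × β)} {o o' : Fin 2}
    {F : Set Plane} (h : Attr P Q I o o' F) (A : α × β) {z : Plane} (hz : z ∈ F)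
    (h1 : Q.a A.2 < z o') (h2 : z o' < Q.a A.2 + Q.c A.2)
    (h3 : P.a A.1 < z o) (h4 : z o < P.a A.1 + P.c A.1) :
    ∃ z1 ∈ F, z o = P.c A.1 * z1 o + P.a A.1 ∧ z o' = Q.c A.2 * z1 o' + Q.a A.2 := by
  obtain ⟨k, hi, z1, hz1, h5, h6⟩ := h.peelRow A.2 hz h1 h2
  obtain ⟨a1, a2⟩ := h.mem_icc hz1 o
  have hl := P.pos k
  have : k = A.1 := side_unique P h3 h4 (by rw [h5]; nlinarith) (by rw [h5]; nlinarith)
  subst this
  exact ⟨z1, hz1, h5, h6⟩

omit [Fintype α] [Fintype β] [DecidableEq α] [DecidableEq β] in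
theorem Attr.peelIter {P : Side α} {Q : Side β} {I : Finset (α × β)} {o o' : Fin 2}
    {F : Set Plane} (h : Attr P Q I o o' F) (A : α × β) (m : ℕ) : ∀ z ∈ F,
    iter (Q.c A.2) (Q.a A.2) m < z o' → z o' < iter (Q.c A.2) (Q.a A.2) m + Q.c A.2 ^ m →
    iter (P.c A.1) (P.a A.1) m < z o → z o < iter (P.c A.1) (P.a A.1) m + P.c A.1 ^ m →
    ∃ z1 ∈ F, z o = P.c A.1 ^ m * z1 o + iter (P.c A.1) (P.a A.1) m ∧
      z o' = Q.c A.2 ^ m * z1 o' + iter (Q.c A.2) (Q.a A.2) m := by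
  induction m with
  | zero => intro z hz _ _ _ _; exact ⟨z, hz, by simp [iter], by simp [iter]⟩
  | succ m ih =>
    intro z hz h1 h2 h3 h4
    have hc := P.pos A.1
    have hd := Q.pos A.2
    obtain ⟨p1, p2⟩ := iter_bounds _ _ hc (P.nonneg A.1) (P.le_one A.1) m
    obtain ⟨q1, q2⟩ := iter_bounds _ _ hd (Q.nonneg A.2) (Q.le_one A.2) m
    rw [iter] at h1 h2 h3 h4
    rw [pow_succ] at h2 h4
    obtain ⟨z1, hz1, h5, h6⟩ := h.peelCell A hz (by nlinarith) (by nlinarith) (by nlinarith)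
      (by nlinarith)
    obtain ⟨z2, hz2, h7, h8⟩ := ih z1 hz1
      (by rw [h6] at h1; exact lt_of_mul_lt_mul_left (a := Q.c A.2) (by linarith) hd.le)
      (by rw [h6] at h2; exact lt_of_mul_lt_mul_left (a := Q.c A.2) (by linarith) hd.le)
      (by rw [h5] at h3; exact lt_of_mul_lt_mul_left (a := P.c A.1) (by linarith) hc.le)
      (by rw [h5] at h4; exact lt_of_mul_lt_mul_left (a := P.c A.1) (by linarith) hc.le)
    refine ⟨z2, hz2, ?_, ?_⟩
    · rw [h5, h7, iter]; ring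
    · rw [h6, h8, iter]; ring

omit [Fintype α] [Fintype β] [DecidableEq α] [DecidableEq β] in
theorem Attr.peelRowIter {P : Side α} {Q : Side β} {I : Finset (α × β)} {o o' : Fin 2}
    {F : Set Plane} (h : Attr P Q I o o' F) (j : β) (m : ℕ) : ∀ z ∈ F,
    iter (Q.c j) (Q.a j) m < z o' → z o' < iter (Q.c j) (Q.a j) m + Q.c j ^ m →
    ∃ z1 ∈ F, z o' = Q.c j ^ m * z1 o' + iter (Q.c j) (Q.a j) m := by
  induction m with
  | zero => intro z hz _ _; exact ⟨z, hz, by simp [iter]⟩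
  | succ m ih =>
    intro z hz h1 h2
    have hd := Q.pos j
    obtain ⟨q1, q2⟩ := iter_bounds _ _ hd (Q.nonneg j) (Q.le_one j) m
    rw [iter] at h1 h2
    rw [pow_succ] at h2
    obtain ⟨k, -, z1, hz1, h5, h6⟩ := h.peelRow j hz (by nlinarith) (by nlinarith)
    obtain ⟨z2, hz2, h8⟩ := ih z1 hz1
      (by rw [h6] at h1; exact lt_of_mul_lt_mul_left (a := Q.c j) (by linarith) hd.le)
      (by rw [h6] at h2; exact lt_of_mul_lt_mul_left (a := Q.c j) (by linarith) hd.le)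
    exact ⟨z2, hz2, by rw [h6, h8, iter]; ring⟩

omit [Fintype α] [Fintype β] [DecidableEq α] [DecidableEq β] in
/-- a two letter word inside -/
theorem inner_point {P : Side α} {Q : Side β} {I : Finset (α × β)} {o o' : Fin 2}
    {F : Set Plane} (h : Attr P Q I o o' F) (κ : ℝ) (hκ : 0 < κ) (hb : ∀ k, κ ≤ P.c k)
    (hcol : ∃ i ∈ I, ∃ i' ∈ I, i.1 ≠ i'.1) :
    ∃ e1 ∈ I, ∃ e2 ∈ I, ∀ z ∈ F, κ ^ 2 ≤ P.c e1.1 * (P.c e2.1 * z o + P.a e2.1) + P.a e1.1 ∧
      P.c e1.1 * (P.c e2.1 * z o + P.a e2.1) + P.a e1.1 ≤ 1 - κ ^ 2 := by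
  have key : ∀ i ∈ I, ∀ i' ∈ I, P.a i.1 + P.c i.1 ≤ P.a i'.1 → ∀ z ∈ F,
      κ ^ 2 ≤ P.c i.1 * (P.c i'.1 * z o + P.a i'.1) + P.a i.1 ∧
      P.c i.1 * (P.c i'.1 * z o + P.a i'.1) + P.a i.1 ≤ 1 - κ ^ 2 := by
    intro i _ i' _ hle z hz
    obtain ⟨a1, a2⟩ := h.mem_icc hz o
    have b1 := hb i.1
    have b2 := hb i'.1
    have b3 := P.nonneg i.1
    have b4 := P.le_one i'.1
    have b5 := P.nonneg i'.1
    have b6 : P.c i'.1 * z o + P.a i'.1 ≤ 1 := by nlinarith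
    have b7 : κ ≤ P.c i'.1 * z o + P.a i'.1 := by nlinarith
    have b8 := P.lt_one i.1
    constructor
    · nlinarith
    · have : κ ≤ 1 := by linarith
      nlinarith
  obtain ⟨i, hi, i', hi', hne⟩ := hcol
  rcases P.sep _ _ hne with h1 | h1
  · exact ⟨i, hi, i', hi', key i hi i' hi' h1⟩
  · exact ⟨i', hi', i, hi, key i' hi' i hi h1⟩


omit [Fintype α] [Fintype β] [DecidableEq α] [DecidableEq β] in
theorem Attr.diam_pos {P : Side α} {Q : Side β} {I : Finset (α × β)} {o o' : Fin 2}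
    {F : Set Plane} (h : Attr P Q I o o' F) (hcol : ∃ i ∈ I, ∃ i' ∈ I, i.1 ≠ i'.1) :
    0 < Metric.diam F := by
  have hbddF : Bornology.IsBounded F := h.compact.isBounded
  obtain ⟨z, hz⟩ := h.nonempty
  have key : ∀ i ∈ I, ∀ i' ∈ I, P.a i.1 + P.c i.1 ≤ P.a i'.1 → 0 < Metric.diam F := by
    intro i hi i' hi' h1
    by_contra hneg
    have hall : ∀ w ∈ F, w = z := by
      intro w hw
      have h1 := Metric.dist_le_diam_of_mem hbddF hw hz
      have h2 : dist w z ≤ 0 := by push Not at hneg; linarith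
      exact dist_le_zero.1 h2
    obtain ⟨w, hw, b1, -⟩ := h.maps i hi z hz
    obtain ⟨w', hw', b1', -⟩ := h.maps i' hi' z hz
    rw [hall w hw] at b1
    rw [hall w' hw'] at b1'
    obtain ⟨a1, a2⟩ := h.mem_icc hz o
    have c1 := P.pos i.1
    have c2 := P.pos i'.1
    have c3 := P.nonneg i.1
    have hz00 : P.c i.1 * z o ≤ P.c i.1 * 1 := mul_le_mul_of_nonneg_left a2 c1.le
    have hz0 : z o ≤ P.a i'.1 := by linarith
    have hz1 : P.c i'.1 * z o ≤ 0 := by linarith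
    have hz2 : z o ≤ 0 := by
      by_contra hcon
      push Not at hcon
      have := mul_pos c2 hcon
      linarith
    have hz3 : z o = 0 := le_antisymm hz2 a1
    rw [hz3] at b1'
    linarith
  obtain ⟨i, hi, i', hi', hne⟩ := hcol
  rcases P.sep _ _ hne with h1 | h1
  · exact key i hi i' hi' h1
  · exact key i' hi' i hi h1

omit [Fintype α] [Fintype β] [DecidableEq α] [DecidableEq β] in
theorem Attr.decode {P : Side α} {Q : Side β} {I : Finset (α × β)} {o o' : Fin 2}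
    {F : Set Plane} (h : Attr P Q I o o' F) (A : α × β) (m : ℕ) (l1 l2 : β)
    (τ d H D am bm : ℝ) (hτ : 0 ≤ τ) (hd : 0 < d) (hτd : τ + d ≤ 1)
    (hH : H = P.c A.1 ^ m) (hD : D = Q.c A.2 ^ m)
    (ham : am = iter (P.c A.1) (P.a A.1) m) (hbm : bm = iter (Q.c A.2) (Q.a A.2) m)
    (z : Plane) (hz : z ∈ F) (g1 : am < z o) (g2 : z o < am + H)
    (g3 : bm + D * (Q.c l1 * (Q.c l2 * τ + Q.a l2) + Q.a l1) < z o')
    (g4 : z o' < bm + D * (Q.c l1 * (Q.c l2 * (τ + d) + Q.a l2) + Q.a l1)) :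
    ∃ i1 i2, (i1, l1) ∈ I ∧ (i2, l2) ∈ I ∧ ∃ w ∈ F, τ < w o' ∧ w o' < τ + d ∧
      z o = H * (P.c i1 * (P.c i2 * w o + P.a i2) + P.a i1) + am ∧
      z o' = D * (Q.c l1 * (Q.c l2 * w o' + Q.a l2) + Q.a l1) + bm := by
  have hd1 := Q.pos l1
  have hd2 := Q.pos l2
  have n1 := Q.nonneg l1
  have n2 := Q.nonneg l2
  have n3 := Q.le_one l1
  have n4 := Q.le_one l2
  have hDp : 0 < D := by rw [hD]; exact pow_pos (Q.pos _) _
  have t1 : Q.c l2 * (τ + d) ≤ Q.c l2 * 1 := mul_le_mul_of_nonneg_left hτd hd2.le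
  have t2 : 0 ≤ Q.c l2 * τ := by positivity
  have t3 : Q.c l1 * (Q.c l2 * (τ + d) + Q.a l2) ≤ Q.c l1 * 1 :=
    mul_le_mul_of_nonneg_left (by linarith) hd1.le
  have t4 : 0 ≤ Q.c l1 * (Q.c l2 * τ + Q.a l2) := by positivity
  have t5 : D * (Q.c l1 * (Q.c l2 * (τ + d) + Q.a l2) + Q.a l1) ≤ D * 1 :=
    mul_le_mul_of_nonneg_left (by linarith) hDp.le
  have t6 : 0 ≤ D * (Q.c l1 * (Q.c l2 * τ + Q.a l2) + Q.a l1) := by positivity
  obtain ⟨w1, hw1, w1a, w1b⟩ := h.peelIter A m z hz (by rw [← hbm]; linarith)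
    (by rw [← hD, ← hbm]; linarith) (by rw [← ham]; exact g1) (by rw [← ham, ← hH]; exact g2)
  rw [← ham, ← hH] at w1a
  rw [← hbm, ← hD] at w1b
  have v1 : Q.c l1 * (Q.c l2 * τ + Q.a l2) + Q.a l1 < w1 o' := by
    rw [w1b] at g3
    exact lt_of_mul_lt_mul_left (a := D) (by linarith) hDp.le
  have v2 : w1 o' < Q.c l1 * (Q.c l2 * (τ + d) + Q.a l2) + Q.a l1 := by
    rw [w1b] at g4
    exact lt_of_mul_lt_mul_left (a := D) (by linarith) hDp.le
  obtain ⟨i1, hi1, w2, hw2, w2a, w2b⟩ := h.peelRow l1 hw1 (by linarith) (by linarith)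
  have v3 : Q.c l2 * τ + Q.a l2 < w2 o' := by
    rw [w2b] at v1
    exact lt_of_mul_lt_mul_left (a := Q.c l1) (by linarith) hd1.le
  have v4 : w2 o' < Q.c l2 * (τ + d) + Q.a l2 := by
    rw [w2b] at v2
    exact lt_of_mul_lt_mul_left (a := Q.c l1) (by linarith) hd1.le
  obtain ⟨i2, hi2, w3, hw3, w3a, w3b⟩ := h.peelRow l2 hw2 (by linarith) (by linarith)
  have v5 : τ < w3 o' := by
    rw [w3b] at v3
    exact lt_of_mul_lt_mul_left (a := Q.c l2) (by linarith) hd2.le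
  have v6 : w3 o' < τ + d := by
    rw [w3b] at v4
    exact lt_of_mul_lt_mul_left (a := Q.c l2) (by linarith) hd2.le
  refine ⟨i1, i2, hi1, hi2, w3, hw3, v5, v6, ?_, ?_⟩
  · rw [w1a, w2a, w3a]
  · rw [w1b, w2b, w3b]

/-- the choice of m -/
theorem choose_m (cA dA κ0 dn : ℝ) (hcA : 0 < cA) (hdA : 0 < dA) (hκ0 : κ0 = cA / dA)
    (h0 : 0 < κ0) (h1 : κ0 < 1) (hdn : 0 < dn) (hdn1 : dn ≤ 1) :
    ∃ m : ℕ, cA ^ m ≤ dA ^ m * dn ∧ dA ^ m * dn ≤ cA ^ m / κ0 := by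
  obtain ⟨m', hm1, hm2⟩ := exists_nat_pow_near_of_lt_one hdn hdn1 h0 h1
  refine ⟨m' + 1, ?_, ?_⟩
  · have h2 : cA ^ (m' + 1) = κ0 ^ (m' + 1) * dA ^ (m' + 1) := by
      rw [hκ0, div_pow, div_mul_cancel₀ _ (by positivity)]
    rw [h2, mul_comm]
    apply mul_le_mul_of_nonneg_left hm1.le (by positivity)
  · have h2 : cA ^ (m' + 1) / κ0 = κ0 ^ m' * dA ^ (m' + 1) := by
      rw [hκ0, div_pow, pow_succ, pow_succ]
      field_simp
    rw [h2, mul_comm]
    apply mul_le_mul_of_nonneg_right hm2 (by positivity)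

end Pool.Agent.H891.Carp
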