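import Pool.Agent.H891.Carpet.L0

/-!
The upper bound (L) for the lower dimension.
-/

namespace Pool.Agent.H891.Carp

open Set MeasureTheory Filter Topology
open scoped ENNReal NNReal

variable {α β : Type} [Fintype α] [Fintype β] [DecidableEq α] [DecidableEq β]

omit [Fintype α] [DecidableEq α] in
theorem mul3_le {a b c x y : ℝ} (ha : 0 ≤ a) (hb : 0 ≤ b) (hc : 0 ≤ c) (h : x ≤ y) :
    a * (b * (c * x)) ≤ a * (b * (c * y)) :=
  mul_le_mul_of_nonneg_left (mul_le_mul_of_nonneg_left (mul_le_mul_of_nonneg_left h hc) hb) ha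

omit [Fintype α] [Fintype β] [DecidableEq α] [DecidableEq β] in
theorem Attr.cover_ball {P : Side α} {Q : Side β} {I : Finset (α × β)} {o o' : Fin 2}
    {F : Set Plane} (h : Attr P Q I o o' F) (A : α × β) (m : ℕ) (l1 l2 j : β) (n : ℕ)
    (τ d H D am bm : ℝ) (hτ : 0 ≤ τ) (hd : 0 < d) (hτd : τ + d ≤ 1)
    (hH : H = P.c A.1 ^ m) (hD : D = Q.c A.2 ^ m)
    (ham : am = iter (P.c A.1) (P.a A.1) m) (hbm : bm = iter (Q.c A.2) (Q.a A.2) m)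
    (hτj : τ = iter (Q.c j) (Q.a j) n) (hdj : d = Q.c j ^ n)
    (κ0 δ r : ℝ) (hκ0 : 0 < κ0) (hδ : 0 < δ) (hg : D * d ≤ H / κ0)
    (hr : H * δ + H / κ0 * δ ≤ r)
    (s1 s2 : Finset ℝ)
    (hs1 : ∀ z ∈ F, τ < z o' → z o' < τ + d → ∃ y ∈ s1, y ≤ z o ∧ z o ≤ y + δ)
    (hs2 : ∀ z ∈ F, ∃ y ∈ s2, y ≤ z o' ∧ z o' ≤ y + δ)
    (B : Set Plane) (hB : ∀ z ∈ B, am < z o ∧ z o < am + H ∧
      bm + D * (Q.c l1 * (Q.c l2 * τ + Q.a l2) + Q.a l1) < z o' ∧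
      z o' < bm + D * (Q.c l1 * (Q.c l2 * (τ + d) + Q.a l2) + Q.a l1)) :
    coverNum r (B ∩ F) ≤ ((I ×ˢ I) ×ˢ (s1 ×ˢ s2)).card := by
  have hHp : 0 < H := by rw [hH]; exact pow_pos (P.pos _) _
  have hDp : 0 < D := by rw [hD]; exact pow_pos (Q.pos _) _
  apply coverNum_le _ (fun q => Rect o o'
      (H * (P.c q.1.1.1 * (P.c q.1.2.1 * q.2.1 + P.a q.1.2.1) + P.a q.1.1.1) + am)
      (D * (Q.c l1 * (Q.c l2 * (d * q.2.2 + τ) + Q.a l2) + Q.a l1) + bm)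
      (H * δ) ((H / κ0) * δ))
  · rintro z ⟨hzb, hz⟩
    obtain ⟨g1, g2, g3, g4⟩ := hB z hzb
    obtain ⟨i1, i2, hi1, hi2, w3, hw3, v5, v6, wa, wb⟩ := h.decode A m l1 l2 τ d H D am bm hτ hd
      hτd hH hD ham hbm z hz g1 g2 g3 g4
    obtain ⟨w4, hw4, w4b⟩ := h.peelRowIter j n w3 hw3 (by rw [← hτj]; exact v5)
      (by rw [← hτj, ← hdj]; exact v6)
    rw [← hτj, ← hdj] at w4b
    obtain ⟨y1, hy1, y1a, y1b⟩ := hs1 w3 hw3 v5 v6
    obtain ⟨y2, hy2, y2a, y2b⟩ := hs2 w4 hw4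
    simp only [mem_iUnion]
    refine ⟨((((i1, l1) : α × β), ((i2, l2) : α × β)), (y1, y2)), ?_, ?_, ?_⟩
    · simp only [Finset.mem_product]
      exact ⟨⟨hi1, hi2⟩, hy1, hy2⟩
    · have pc1 := (P.pos i1).le
      have pc2 := (P.pos i2).le
      have pl1 := (P.lt_one i1).le
      have pl2 := (P.lt_one i2).le
      simp only
      rw [wa]
      constructor
      · have := mul3_le hHp.le pc1 pc2 y1a
        linarith
      · have h1 := mul3_le hHp.le pc1 pc2 y1b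
        have h2 : P.c i1 * (P.c i2 * δ) ≤ δ := by
          calc P.c i1 * (P.c i2 * δ) ≤ 1 * (1 * δ) := by gcongr
            _ = δ := by ring
        have h3 := mul_le_mul_of_nonneg_left h2 hHp.le
        linarith
    · have pc1 := (Q.pos l1).le
      have pc2 := (Q.pos l2).le
      have pl1 := (Q.lt_one l1).le
      have pl2 := (Q.lt_one l2).le
      simp only
      rw [wb, w4b]
      constructor
      · have := mul_le_mul_of_nonneg_left (mul3_le pc1 pc2 hd.le y2a) hDp.le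
        linarith
      · have h1 := mul_le_mul_of_nonneg_left (mul3_le pc1 pc2 hd.le y2b) hDp.le
        have h2 : Q.c l1 * (Q.c l2 * (d * δ)) ≤ d * δ := by
          calc Q.c l1 * (Q.c l2 * (d * δ)) ≤ 1 * (1 * (d * δ)) := by gcongr
            _ = d * δ := by ring
        have h3 := mul_le_mul_of_nonneg_left h2 hDp.le
        have h4 := mul_le_mul_of_nonneg_right hg hδ.le
        linarith
  · intro q _
    exact ediam_rect h.ne _ _ _ _ _ hr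

/-- the centre of the ball -/
theorem Attr.centre {P : Side α} {Q : Side β} {I : Finset (α × β)} {o o' : Fin 2}
    {F : Set Plane} (h : Attr P Q I o o' F) (κ : ℝ) (k1 : 0 < κ)
    (hb : ∀ k, κ ≤ P.c k) (hb' : ∀ k, κ ≤ Q.c k)
    (hcol : ∃ i ∈ I, ∃ i' ∈ I, i.1 ≠ i'.1) (hrow : ∃ i ∈ I, ∃ i' ∈ I, i.2 ≠ i'.2)
    (A : α × β) (hA : A ∈ I) (kj : α) (j : β) (hkj : (kj, j) ∈ I) :
    ∃ l1 l2 : β, ∀ m n : ℕ, ∃ x ∈ F, ∃ ξ η : ℝ, κ ^ 2 ≤ ξ ∧ ξ ≤ 1 - κ ^ 2 ∧ κ ^ 2 ≤ η ∧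
      η ≤ 1 - κ ^ 2 ∧ x o = P.c A.1 ^ m * ξ + iter (P.c A.1) (P.a A.1) m ∧
      x o' = iter (Q.c A.2) (Q.a A.2) m + Q.c A.2 ^ m *
        (Q.c l1 * (Q.c l2 * (iter (Q.c j) (Q.a j) n + Q.c j ^ n * η) + Q.a l2) + Q.a l1) := by
  obtain ⟨E1, hE1, E2, hE2, hE⟩ := inner_point h κ k1 hb hcol
  obtain ⟨f1, hf1, f2, hf2, hf⟩ := inner_point h.swap κ k1 hb' (by
    obtain ⟨i, hi, i', hi', hne⟩ := hrow
    exact ⟨(i.2, i.1), mem_swapI.2 hi, (i'.2, i'.1), mem_swapI.2 hi', hne⟩)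
  have hf1' := mem_swapI.1 hf1
  have hf2' := mem_swapI.1 hf2
  refine ⟨E1.2, E2.2, fun m n => ?_⟩
  obtain ⟨z0, hz0⟩ := h.nonempty
  obtain ⟨z1, hz1, z1a, z1b⟩ := h.maps _ hf2' z0 hz0
  obtain ⟨z2, hz2, z2a, z2b⟩ := h.maps _ hf1' z1 hz1
  obtain ⟨z3, hz3, z3a, z3b⟩ := h.iterate (kj, j) hkj n z2 hz2
  obtain ⟨z4, hz4, z4a, z4b⟩ := h.maps E2 hE2 z3 hz3
  obtain ⟨z5, hz5, z5a, z5b⟩ := h.maps E1 hE1 z4 hz4
  obtain ⟨x, hx, xa, xb⟩ := h.iterate A hA m z5 hz5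
  simp only at z1a z1b z2a z2b z3a z3b
  have hη := hf z0 hz0
  rw [← z1b, ← z2b] at hη
  have hξ := hE z3 hz3
  rw [← z4a, ← z5a] at hξ
  refine ⟨x, hx, z5 o, z2 o', hξ.1, hξ.2, hη.1, hη.2, xa, ?_⟩
  rw [xb, z5b, z4b, z3b]
  ring

/-- the numbers -/
theorem ball_in (κ H D d c1 c2 a1 a2 τ am bm R ξ η xo xo' zo zo' : ℝ) (hκ : 0 < κ) (hκ1 : κ < 1)
    (hH : 0 < H) (hD : 0 < D) (hd : 0 < d) (h1 : κ ≤ c1) (h2 : κ ≤ c2) (hHD : H ≤ D * d)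
    (hR : R = κ ^ 4 * H / 2)
    (hξ1 : κ ^ 2 ≤ ξ) (hξ2 : ξ ≤ 1 - κ ^ 2) (hη1 : κ ^ 2 ≤ η) (hη2 : η ≤ 1 - κ ^ 2)
    (hxo : xo = H * ξ + am) (hxo' : xo' = bm + D * (c1 * (c2 * (τ + d * η) + a2) + a1))
    (hz1 : |zo - xo| ≤ R) (hz2 : |zo' - xo'| ≤ R) :
    am < zo ∧ zo < am + H ∧ bm + D * (c1 * (c2 * τ + a2) + a1) < zo' ∧
      zo' < bm + D * (c1 * (c2 * (τ + d) + a2) + a1) := by
  have d1 := abs_le.1 hz1
  have d2 := abs_le.1 hz2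
  have k2 : 0 < κ ^ 2 := by positivity
  have k21 : κ ^ 2 < 1 := pow_lt_one₀ hκ.le hκ1 (by norm_num)
  have k4 : κ ^ 4 = κ ^ 2 * κ ^ 2 := by ring
  have hR1 : R < κ ^ 2 * H := by
    have h3 : 0 < κ ^ 2 * H := by positivity
    have h4 : κ ^ 2 * (κ ^ 2 * H) ≤ 1 * (κ ^ 2 * H) := mul_le_mul_of_nonneg_right k21.le h3.le
    rw [hR, k4, mul_assoc]
    linarith
  have hc1 : 0 < c1 := by linarith
  have hc2 : 0 < c2 := by linarith
  have hg : κ ^ 2 * H ≤ D * (c1 * (c2 * d)) := by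
    calc κ ^ 2 * H ≤ κ ^ 2 * (D * d) := by gcongr
      _ = D * (κ * (κ * d)) := by ring
      _ ≤ D * (c1 * (c2 * d)) := by gcongr
  have hgp : 0 < D * (c1 * (c2 * d)) := by positivity
  have hR2 : R < κ ^ 2 * (D * (c1 * (c2 * d))) := by
    have h3 : 0 < κ ^ 2 * (κ ^ 2 * H) := by positivity
    have h4 : κ ^ 2 * (κ ^ 2 * H) ≤ κ ^ 2 * (D * (c1 * (c2 * d))) := by gcongr
    rw [hR, k4, mul_assoc]
    linarith
  have e1 := mul_le_mul_of_nonneg_left hξ1 hH.le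
  have e2 := mul_le_mul_of_nonneg_left hξ2 hH.le
  have e3 := mul_le_mul_of_nonneg_left hη1 hgp.le
  have e4 := mul_le_mul_of_nonneg_left hη2 hgp.le
  refine ⟨?_, ?_, ?_, ?_⟩
  · linarith [d1.1]
  · linarith [d1.2]
  · linarith [d2.1]
  · linarith [d2.2]

theorem L : S_L := by
  intro α β _ _ _ _ P Q I o o' F h hmix hcol hrow j v t hv ht e1 e2
  classical
  obtain ⟨κ, ρ, k1, k2, r1, r2, hb, hb'⟩ := bounds₂ P Q
  obtain ⟨A, hA, hAlt⟩ := hmix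
  apply sSup_le
  rintro s ⟨t', ht', rfl, C, hC, hcov⟩
  apply ENNReal.ofReal_le_ofReal
  have hcA := P.pos A.1
  have hdA := Q.pos A.2
  obtain ⟨κ0, hκ0⟩ : ∃ κ0 : ℝ, κ0 = P.c A.1 / Q.c A.2 := ⟨_, rfl⟩
  have hκ0p : 0 < κ0 := by rw [hκ0]; exact div_pos hcA hdA
  have hκ01 : κ0 < 1 := by rw [hκ0]; exact (div_lt_one hdA).2 hAlt
  have hdj := Q.pos j
  have hrowj : ∃ k, (k, j) ∈ I := by
    by_contra hno
    push Not at hno
    have : rowCells I j = ∅ := by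
      ext k
      simp [mem_rowCells, hno k]
    rw [this] at e1
    simp at e1
  obtain ⟨kj, hkj⟩ := hrowj
  have hdiam := h.diam_pos hcol
  obtain ⟨l1, l2, hcentre⟩ := h.centre κ k1 (fun k => (hb k).1) (fun k => (hb' k).1) hcol hrow A hA
    kj j hkj
  obtain ⟨θ, hθ⟩ : ∃ θ : ℝ, θ = κ ^ 4 / (2 * (1 + 1 / κ0)) := ⟨_, rfl⟩
  have hθp : 0 < θ := by rw [hθ]; positivity
  have hκ4 : κ ^ 4 < 1 := pow_lt_one₀ k1.le k2 (by norm_num)
  have hθ1 : θ < 1 := by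
    rw [hθ, div_lt_one (by positivity)]
    have : 0 < 1 / κ0 := by positivity
    linarith
  apply le_of_rpow_le t' (t + v) ((I.card * I.card * (κ ^ (-v) * θ ^ (-v)) *
    (κ ^ (-t) * θ ^ (-t))) / C)
  intro δ hδ0 hδ1
  obtain ⟨n, hn⟩ := exists_pow_lt_of_lt_one (show 0 < min (δ * θ) (Metric.diam F) by
    apply lt_min (by positivity) hdiam) r2
  have hn1 : ρ ^ n ≤ δ * θ := hn.le.trans (min_le_left _ _)
  have hn2 : ρ ^ n ≤ Metric.diam F := hn.le.trans (min_le_right _ _)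
  have hδθp : 0 < δ * θ := by positivity
  have hδθ : δ * θ < 1 := by
    calc δ * θ < 1 * 1 := by gcongr
      _ = 1 := one_mul 1
  have hκδ : κ * (δ * θ) < 1 := by
    calc κ * (δ * θ) < 1 * 1 := by gcongr
      _ = 1 := one_mul 1
  obtain ⟨m, hgH, hgH2⟩ := choose_m (P.c A.1) (Q.c A.2) κ0 (Q.c j ^ n) hcA hdA hκ0 hκ0p hκ01
    (by positivity) (pow_le_one₀ hdj.le (Q.lt_one j).le)
  obtain ⟨x, hx, ξ, η, hξ1, hξ2, hη1, hη2, hxo, hxo'⟩ := hcentre m n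
  obtain ⟨τ1, τ2⟩ := iter_bounds _ _ hdj (Q.nonneg j) (Q.le_one j) n
  have hHp : 0 < P.c A.1 ^ m := by positivity
  have hDp : 0 < Q.c A.2 ^ m := by positivity
  have hdp : 0 < Q.c j ^ n := by positivity
  have hD1 : Q.c A.2 ^ m ≤ 1 := pow_le_one₀ hdA.le (Q.lt_one _).le
  have hdnρ : Q.c j ^ n ≤ ρ ^ n := pow_le_pow_left₀ hdj.le (hb' j).2 n
  have hHdiam : P.c A.1 ^ m ≤ Metric.diam F := by
    calc P.c A.1 ^ m ≤ Q.c A.2 ^ m * Q.c j ^ n := hgH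
      _ ≤ 1 * ρ ^ n := mul_le_mul hD1 hdnρ hdp.le zero_le_one
      _ = ρ ^ n := one_mul _
      _ ≤ _ := hn2
  obtain ⟨R, hR⟩ : ∃ R : ℝ, R = κ ^ 4 * P.c A.1 ^ m / 2 := ⟨_, rfl⟩
  have hRp : 0 < R := by rw [hR]; positivity
  have hrp : 0 < R * δ := by positivity
  have hrR : R * δ < R := by
    calc R * δ < R * 1 := mul_lt_mul_of_pos_left hδ1 hRp
      _ = R := mul_one R
  have hRF : R ≤ Metric.diam F := by
    have h1 : κ ^ 4 * P.c A.1 ^ m ≤ 1 * P.c A.1 ^ m := by gcongr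
    rw [hR]
    linarith
  obtain ⟨s1, hs1, hs1c⟩ := cov1 P (rowCells I j) v κ ρ hv e1.le k1 r1 hb
    (fun n => {y | ∃ z ∈ F, z o = y ∧ iter (Q.c j) (Q.a j) n < z o' ∧
      z o' < iter (Q.c j) (Q.a j) n + Q.c j ^ n})
    (by
      rintro n y ⟨z, hz, rfl, -⟩
      exact h.unit z hz o)
    (by
      rintro n y ⟨z, hz, rfl, h1, h2⟩
      obtain ⟨q1, q2⟩ := iter_bounds _ _ hdj (Q.nonneg j) (Q.le_one j) n
      rw [iter] at h1 h2
      rw [pow_succ] at h2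
      have q3 := mul_nonneg hdj.le q1
      have q4 := mul_le_mul_of_nonneg_left q2 hdj.le
      obtain ⟨k, hk, w, hw, h5, h6⟩ := h.peelRow j hz (by linarith) (by linarith)
      exact ⟨k, mem_rowCells.2 hk, w o, ⟨w, hw, rfl,
        by rw [h6] at h1; exact lt_of_mul_lt_mul_left (a := Q.c j) (by linarith) hdj.le,
        by rw [h6] at h2; exact lt_of_mul_lt_mul_left (a := Q.c j) (by linarith) hdj.le⟩, h5⟩)
    n (δ * θ) hn1 hκδ
  obtain ⟨s2, hs2, hs2c⟩ := cov1 Q (usedRows I) t κ ρ ht e2.le k1 r1 hb'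
    (fun _ => (fun z : Plane => z o') '' F)
    (by rintro n y ⟨z, hz, rfl⟩; exact h.unit z hz o')
    (by
      rintro n y ⟨z, hz, rfl⟩
      obtain ⟨i, hi, z', hz', h1, h2⟩ := h.cover z hz
      exact ⟨i.2, mem_usedRows.2 ⟨i.1, hi⟩, z' o', ⟨z', hz', rfl⟩, h2⟩)
    n (δ * θ) hn1 hκδ
  have hcover : coverNum (R * δ) (Metric.closedBall x R ∩ F) ≤
      ((I ×ˢ I) ×ˢ (s1 ×ˢ s2)).card := by
    apply h.cover_ball A m l1 l2 j n _ _ _ _ _ _ τ1 hdp τ2 rfl rfl rfl rfl rfl rfl κ0 (δ * θ)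
      (R * δ) hκ0p hδθp hgH2
    · rw [hR, hθ]
      apply le_of_eq
      have : 1 + 1 / κ0 ≠ 0 := by positivity
      field_simp
    · intro z hz h1 h2
      exact hs1 (z o) ⟨z, hz, rfl, h1, h2⟩
    · intro z hz
      exact hs2 (z o') ⟨z, hz, rfl⟩
    · intro z hz
      rw [Metric.mem_closedBall] at hz
      exact ball_in κ _ _ _ _ _ _ _ _ _ _ R ξ η (x o) (x o') (z o) (z o') k1 k2 hHp hDp hdp
        (hb' l1).1 (hb' l2).1 hgH hR hξ1 hξ2 hη1 hη2 hxo hxo'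
        ((abs_sub_le_dist z x o).trans hz) ((abs_sub_le_dist z x o').trans hz)
  have hmain := hcov (R * δ) R hrp hrR hRF x hx
  have hRr : R / (R * δ) = δ⁻¹ := by field_simp
  have hcard : (((I ×ˢ I) ×ˢ (s1 ×ˢ s2)).card : ℝ) ≤ I.card * I.card *
      ((κ ^ (-v) * (δ * θ) ^ (-v)) * (κ ^ (-t) * (δ * θ) ^ (-t))) := by
    simp only [Finset.card_product, Nat.cast_mul]
    apply mul_le_mul_of_nonneg_left _ (by positivity)
    apply mul_le_mul hs1c hs2c (by positivity) (by positivity)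
  rw [div_mul_eq_mul_div, le_div_iff₀ hC]
  calc δ ^ (-t') * C = C * (R / (R * δ)) ^ t' := by
        rw [hRr, Real.inv_rpow hδ0.le, Real.rpow_neg hδ0.le]; ring
    _ ≤ coverNum (R * δ) (Metric.closedBall x R ∩ F) := hmain
    _ ≤ (((I ×ˢ I) ×ˢ (s1 ×ˢ s2)).card : ℝ) := by exact_mod_cast hcover
    _ ≤ _ := hcard
    _ = I.card * I.card * (κ ^ (-v) * θ ^ (-v)) * (κ ^ (-t) * θ ^ (-t)) * δ ^ (-(t + v)) := by
        rw [Real.mul_rpow hδ0.le hθp.le, Real.mul_rpow hδ0.le hθp.le,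
          show -(t + v) = -v + -t by ring, Real.rpow_add hδ0]
        ring

end Pool.Agent.H891.Carp
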