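import Pool.Agent.H891.Carpet.A
import Pool.Agent.H891.Carpet.Stm3

/-!
Lower bound for the lower box dimension.
-/

namespace Pool.Agent.H891.Carp

open Set MeasureTheory Filter Topology
open scoped ENNReal NNReal

variable {α β : Type} [Fintype α] [Fintype β] [DecidableEq α] [DecidableEq β]

/-- two intervals (offset, length) are separated -/
def Sep (a b : ℝ × ℝ) : Prop := a.1 + a.2 ≤ b.1 ∨ b.1 + b.2 ≤ a.1

/-- the requirement on one rectangle -/
def Good (o o' : Fin 2) (F : Set Plane) (x y : ℝ) (v : (ℝ × ℝ) × (ℝ × ℝ)) : Prop :=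
  (∃ z ∈ F, (v.1.1 ≤ z o ∧ z o ≤ v.1.1 + v.1.2) ∧ (v.2.1 ≤ z o' ∧ z o' ≤ v.2.1 + v.2.2)) ∧
    (0 ≤ v.1.1 ∧ v.1.1 + v.1.2 ≤ 1) ∧ (0 ≤ v.2.1 ∧ v.2.1 + v.2.2 ≤ 1) ∧ x ≤ v.1.2 ∧ y ≤ v.2.2

omit [Fintype α] [Fintype β] in
theorem pack2 (P : Side α) (Q : Side β) (I : Finset (α × β)) (o o' : Fin 2) (F : Set Plane)
    (h : Attr P Q I o o' F) (t1 t2 s1 κ ρ : ℝ) (ht1 : 0 ≤ t1) (ht2 : 0 ≤ t2)
    (hs1 : t1 ≤ s1) (hst : s1 - t1 ≤ t2) (hκ : 0 < κ) (hκ1 : κ < 1) (hρ : 0 < ρ)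
    (hb : ∀ k, κ ≤ P.c k ∧ P.c k ≤ ρ) (hb' : ∀ k, κ ≤ Q.c k ∧ Q.c k ≤ ρ)
    (hc : ∑ k ∈ usedCols I, P.c k ^ t1 = 1) (hr : ∑ j ∈ usedRows I, Q.c j ^ t2 = 1)
    (e1 : ∑ i ∈ I, P.c i.1 ^ t1 * Q.c i.2 ^ (s1 - t1) = 1) :
    ∀ (n : ℕ) (w g : ℝ), ρ ^ n ≤ w → ρ ^ n ≤ g → κ * w < 1 → κ * g < 1 →
      ∃ V : Finset ((ℝ × ℝ) × (ℝ × ℝ)), (∀ v ∈ V, Good o o' F (κ * w) (κ * g) v) ∧
        w ^ (-t1) * g ^ (-(s1 - t1)) ≤ V.card ∧
        ∀ v ∈ V, ∀ v' ∈ V, v ≠ v' → Sep v.1 v'.1 ∨ Sep v.2 v'.2 := by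
  have baseg : ∀ (n : ℕ) (w g : ℝ), ρ ^ n ≤ w → 1 ≤ g → κ * w < 1 → κ * g < 1 →
      ∃ V : Finset ((ℝ × ℝ) × (ℝ × ℝ)), (∀ v ∈ V, Good o o' F (κ * w) (κ * g) v) ∧
        w ^ (-t1) * g ^ (-(s1 - t1)) ≤ V.card ∧
        ∀ v ∈ V, ∀ v' ∈ V, v ≠ v' → Sep v.1 v'.1 ∨ Sep v.2 v'.2 := by
    intro n w g h1 h2 h3 h4
    have hw : 0 < w := lt_of_lt_of_le (by positivity) h1
    obtain ⟨V, hV1, hV2, hV3⟩ := pack1 P (usedCols I) t1 κ ρ hc hκ hκ1 hρ hb
      (fun _ l e => ∃ z ∈ F, l ≤ z o ∧ z o ≤ l + e)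
      (by
        intro n
        obtain ⟨z, hz⟩ := h.nonempty
        obtain ⟨a, b⟩ := h.unit z hz o
        exact ⟨z, hz, a, by linarith⟩)
      (by
        rintro n k hk l e ⟨z, hz, a, b⟩
        obtain ⟨j', hj'⟩ := mem_usedCols.1 hk
        obtain ⟨z', hz', h1, h2⟩ := h.maps (k, j') hj' z hz
        have hc := P.pos k
        refine ⟨z', hz', ?_, ?_⟩
        · rw [h1]; nlinarith
        · rw [h1]; nlinarith) n w h1 h3
    have hinj : Function.Injective (fun v : ℝ × ℝ => (v, ((0 : ℝ), (1 : ℝ)))) :=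
      fun a b hab => (Prod.mk.inj hab).1
    refine ⟨V.image (fun v => (v, (0, 1))), ?_, ?_, ?_⟩
    · intro v hv
      obtain ⟨v, hv', rfl⟩ := Finset.mem_image.1 hv
      obtain ⟨⟨z, hz, a, b⟩, c, d, e, f⟩ := hV1 v hv'
      obtain ⟨a', b'⟩ := h.unit z hz o'
      exact ⟨⟨z, hz, ⟨a, b⟩, a', by simpa using b'⟩, ⟨c, d⟩, ⟨le_rfl, by norm_num⟩, e, h4.le⟩
    · rw [Finset.card_image_of_injective _ hinj]
      have h5 := card_ge_of_sum V t1 w ht1 hw (fun v hv =>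
        ⟨lt_of_lt_of_le (by positivity) (hV1 v hv).2.2.2.1, (hV1 v hv).2.2.2.2⟩) hV2
      refine le_trans ?_ h5
      have h6 : g ^ (-(s1 - t1)) ≤ 1 :=
        Real.rpow_le_one_of_one_le_of_nonpos h2 (by linarith)
      have h7 : 0 ≤ w ^ (-t1) := by positivity
      nlinarith
    · intro x hx y hy hne
      obtain ⟨v, hv, rfl⟩ := Finset.mem_image.1 hx
      obtain ⟨v', hv', rfl⟩ := Finset.mem_image.1 hy
      left
      exact hV3 v hv v' hv' (fun h => hne (by rw [h]))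
  have basew : ∀ (n : ℕ) (w g : ℝ), ρ ^ n ≤ g → 1 ≤ w → g < 1 → κ * w < 1 → κ * g < 1 →
      ∃ V : Finset ((ℝ × ℝ) × (ℝ × ℝ)), (∀ v ∈ V, Good o o' F (κ * w) (κ * g) v) ∧
        w ^ (-t1) * g ^ (-(s1 - t1)) ≤ V.card ∧
        ∀ v ∈ V, ∀ v' ∈ V, v ≠ v' → Sep v.1 v'.1 ∨ Sep v.2 v'.2 := by
    intro n w g h1 h2 hg1 h3 h4
    have hg : 0 < g := lt_of_lt_of_le (by positivity) h1
    obtain ⟨V, hV1, hV2, hV3⟩ := pack1 Q (usedRows I) t2 κ ρ hr hκ hκ1 hρ hb'
      (fun _ l e => ∃ z ∈ F, l ≤ z o' ∧ z o' ≤ l + e)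
      (by
        intro n
        obtain ⟨z, hz⟩ := h.nonempty
        obtain ⟨a, b⟩ := h.unit z hz o'
        exact ⟨z, hz, a, by linarith⟩)
      (by
        rintro n k hk l e ⟨z, hz, a, b⟩
        obtain ⟨j', hj'⟩ := mem_usedRows.1 hk
        obtain ⟨z', hz', h1, h2⟩ := h.maps (j', k) hj' z hz
        have hc := Q.pos k
        refine ⟨z', hz', ?_, ?_⟩
        · rw [h2]; nlinarith
        · rw [h2]; nlinarith) n g h1 h4
    have hinj : Function.Injective (fun v : ℝ × ℝ => (((0 : ℝ), (1 : ℝ)), v)) :=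
      fun a b hab => (Prod.mk.inj hab).2
    refine ⟨V.image (fun v => ((0, 1), v)), ?_, ?_, ?_⟩
    · intro v hv
      obtain ⟨v, hv', rfl⟩ := Finset.mem_image.1 hv
      obtain ⟨⟨z, hz, a, b⟩, c, d, e, f⟩ := hV1 v hv'
      obtain ⟨a', b'⟩ := h.unit z hz o
      exact ⟨⟨z, hz, ⟨a', by simpa using b'⟩, a, b⟩, ⟨le_rfl, by norm_num⟩, ⟨c, d⟩, h3.le, e⟩
    · rw [Finset.card_image_of_injective _ hinj]
      have h5 := card_ge_of_sum V t2 g ht2 hg (fun v hv =>
        ⟨lt_of_lt_of_le (by positivity) (hV1 v hv).2.2.2.1, (hV1 v hv).2.2.2.2⟩) hV2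
      refine le_trans ?_ h5
      have h6 : w ^ (-t1) ≤ 1 :=
        Real.rpow_le_one_of_one_le_of_nonpos h2 (by linarith)
      have h7 : g ^ (-(s1 - t1)) ≤ g ^ (-t2) :=
        Real.rpow_le_rpow_of_exponent_ge hg hg1.le (by linarith)
      have h8 : 0 ≤ g ^ (-(s1 - t1)) := by positivity
      nlinarith
    · intro x hx y hy hne
      obtain ⟨v, hv, rfl⟩ := Finset.mem_image.1 hx
      obtain ⟨v', hv', rfl⟩ := Finset.mem_image.1 hy
      right
      exact hV3 v hv v' hv' (fun h => hne (by rw [h]))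
  intro n
  induction n with
  | zero =>
    intro w g h1 h2 h3 h4
    exact baseg 0 w g h1 (by simpa using h2) h3 h4
  | succ n ih =>
    intro w g h1 h2 h3 h4
    rcases le_or_gt 1 g with h5 | h5
    · exact baseg _ w g h1 h5 h3 h4
    rcases le_or_gt 1 w with h6 | h6
    · exact basew _ w g h2 h6 h5 h3 h4
    have hw : 0 < w := lt_of_lt_of_le (by positivity) h1
    have hg : 0 < g := lt_of_lt_of_le (by positivity) h2
    have key : ∀ i : α × β, ∃ V : Finset ((ℝ × ℝ) × (ℝ × ℝ)),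
        (∀ v ∈ V, Good o o' F (κ * (w / P.c i.1)) (κ * (g / Q.c i.2)) v) ∧
        (w / P.c i.1) ^ (-t1) * (g / Q.c i.2) ^ (-(s1 - t1)) ≤ V.card ∧
        ∀ v ∈ V, ∀ v' ∈ V, v ≠ v' → Sep v.1 v'.1 ∨ Sep v.2 v'.2 := by
      intro i
      have hc := P.pos i.1
      have hd := Q.pos i.2
      apply ih
      · rw [le_div_iff₀ hc]
        calc ρ ^ n * P.c i.1 ≤ ρ ^ n * ρ := by
              apply mul_le_mul_of_nonneg_left (hb _).2 (by positivity)
          _ = ρ ^ (n + 1) := by ring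
          _ ≤ w := h1
      · rw [le_div_iff₀ hd]
        calc ρ ^ n * Q.c i.2 ≤ ρ ^ n * ρ := by
              apply mul_le_mul_of_nonneg_left (hb' _).2 (by positivity)
          _ = ρ ^ (n + 1) := by ring
          _ ≤ g := h2
      · rw [← mul_div_assoc, div_lt_one hc]
        calc κ * w < κ * 1 := by
              apply mul_lt_mul_of_pos_left h6 hκ
          _ ≤ P.c i.1 := by rw [mul_one]; exact (hb _).1
      · rw [← mul_div_assoc, div_lt_one hd]
        calc κ * g < κ * 1 := by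
              apply mul_lt_mul_of_pos_left h5 hκ
          _ ≤ Q.c i.2 := by rw [mul_one]; exact (hb' _).1
    choose V hV1 hV2 hV3 using key
    obtain ⟨φ, hφ⟩ : ∃ φ : α × β → (ℝ × ℝ) × (ℝ × ℝ) → (ℝ × ℝ) × (ℝ × ℝ),
      φ = fun i v => ((P.c i.1 * v.1.1 + P.a i.1, P.c i.1 * v.1.2),
        (Q.c i.2 * v.2.1 + Q.a i.2, Q.c i.2 * v.2.2)) := ⟨_, rfl⟩
    have hφi : ∀ i v, φ i v = ((P.c i.1 * v.1.1 + P.a i.1, P.c i.1 * v.1.2),
        (Q.c i.2 * v.2.1 + Q.a i.2, Q.c i.2 * v.2.2)) := fun i v => by rw [hφ]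
    have hpos : ∀ i, ∀ v ∈ V i, 0 < v.1.2 ∧ 0 < v.2.2 := by
      intro i v hv
      obtain ⟨-, -, -, a, b⟩ := hV1 i v hv
      exact ⟨lt_of_lt_of_le (mul_pos hκ (div_pos hw (P.pos _))) a,
        lt_of_lt_of_le (mul_pos hκ (div_pos hg (Q.pos _))) b⟩
    have hcross : ∀ i i', i ≠ i' → ∀ v ∈ V i, ∀ v' ∈ V i',
        Sep (φ i v).1 (φ i' v').1 ∨ Sep (φ i v).2 (φ i' v').2 := by
      intro i i' hne v hv v' hv'
      obtain ⟨-, ⟨a1, a2⟩, ⟨a3, a4⟩, -, -⟩ := hV1 i v hv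
      obtain ⟨-, ⟨b1, b2⟩, ⟨b3, b4⟩, -, -⟩ := hV1 i' v' hv'
      rw [hφi, hφi]
      by_cases h7 : i.1 = i'.1
      · have h8 : i.2 ≠ i'.2 := fun h => hne (Prod.ext h7 h)
        right
        have p1 := mul_nonneg (Q.pos i.2).le a3
        have p2 := mul_le_mul_of_nonneg_left a4 (Q.pos i.2).le
        have p3 := mul_nonneg (Q.pos i'.2).le b3
        have p4 := mul_le_mul_of_nonneg_left b4 (Q.pos i'.2).le
        rcases Q.sep _ _ h8 with h9 | h9
        · left; simp only; linarith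
        · right; simp only; linarith
      · left
        have p1 := mul_nonneg (P.pos i.1).le a1
        have p2 := mul_le_mul_of_nonneg_left a2 (P.pos i.1).le
        have p3 := mul_nonneg (P.pos i'.1).le b1
        have p4 := mul_le_mul_of_nonneg_left b2 (P.pos i'.1).le
        rcases P.sep _ _ h7 with h9 | h9
        · left; simp only; linarith
        · right; simp only; linarith
    have hinj : ∀ i, Function.Injective (φ i) := by
      intro i v v' hvv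
      rw [hφi, hφi] at hvv
      have hc := (P.pos i.1).ne'
      have hd := (Q.pos i.2).ne'
      simp only [Prod.mk.injEq, add_left_inj, mul_eq_mul_left_iff, hc, hd, or_false] at hvv
      obtain ⟨⟨a, b⟩, c, d⟩ := hvv
      exact Prod.ext (Prod.ext a b) (Prod.ext c d)
    refine ⟨I.biUnion (fun i => (V i).image (φ i)), ?_, ?_, ?_⟩
    · intro x hx
      obtain ⟨i, hi, hx'⟩ := Finset.mem_biUnion.1 hx
      obtain ⟨v, hv, rfl⟩ := Finset.mem_image.1 hx'
      obtain ⟨⟨z, hz, ⟨a1, a2⟩, a3, a4⟩, ⟨b1, b2⟩, ⟨b3, b4⟩, b5, b6⟩ := hV1 i v hv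
      obtain ⟨z', hz', c1, c2⟩ := h.maps i hi z hz
      have hc := P.pos i.1
      have hd := Q.pos i.2
      have n1 := P.nonneg i.1
      have n2 := Q.nonneg i.2
      have n3 := P.le_one i.1
      have n4 := Q.le_one i.2
      rw [hφi]
      refine ⟨⟨z', hz', ⟨?_, ?_⟩, ?_, ?_⟩, ⟨?_, ?_⟩, ⟨?_, ?_⟩, ?_, ?_⟩
      · rw [c1]; have := mul_le_mul_of_nonneg_left a1 hc.le; simp only; linarith
      · rw [c1]; have := mul_le_mul_of_nonneg_left a2 hc.le; simp only; linarith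
      · rw [c2]; have := mul_le_mul_of_nonneg_left a3 hd.le; simp only; linarith
      · rw [c2]; have := mul_le_mul_of_nonneg_left a4 hd.le; simp only; linarith
      · simp only; positivity
      · have := mul_le_mul_of_nonneg_left b2 hc.le; simp only; linarith
      · simp only; positivity
      · have := mul_le_mul_of_nonneg_left b4 hd.le; simp only; linarith
      · have p1 := mul_le_mul_of_nonneg_left b5 hc.le
        have p2 : P.c i.1 * (κ * (w / P.c i.1)) = κ * w := by field_simp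
        simp only; linarith
      · have p1 := mul_le_mul_of_nonneg_left b6 hd.le
        have p2 : Q.c i.2 * (κ * (g / Q.c i.2)) = κ * g := by field_simp
        simp only; linarith
    · rw [Finset.card_biUnion]
      · rw [Nat.cast_sum]
        calc w ^ (-t1) * g ^ (-(s1 - t1)) = w ^ (-t1) * g ^ (-(s1 - t1)) *
              ∑ i ∈ I, P.c i.1 ^ t1 * Q.c i.2 ^ (s1 - t1) := by rw [e1, mul_one]
          _ = ∑ i ∈ I, (w / P.c i.1) ^ (-t1) * (g / Q.c i.2) ^ (-(s1 - t1)) := by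
              rw [Finset.mul_sum]
              apply Finset.sum_congr rfl
              intro i _
              rw [Real.div_rpow hw.le (P.pos i.1).le, Real.div_rpow hg.le (Q.pos i.2).le,
                Real.rpow_neg (P.pos i.1).le t1, Real.rpow_neg (Q.pos i.2).le (s1 - t1)]
              field_simp
          _ ≤ ∑ i ∈ I, (((V i).image (φ i)).card : ℝ) := by
              apply Finset.sum_le_sum
              intro i _
              rw [Finset.card_image_of_injective _ (hinj i)]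
              exact hV2 i
      · intro i _ i' _ hne
        rw [Function.onFun, Finset.disjoint_left]
        intro x hx hx'
        obtain ⟨v, hv, rfl⟩ := Finset.mem_image.1 hx
        obtain ⟨v', hv', hvv⟩ := Finset.mem_image.1 hx'
        obtain ⟨p1, p2⟩ := hpos i v hv
        have q1 := mul_pos (P.pos i.1) p1
        have q2 := mul_pos (Q.pos i.2) p2
        rcases hcross i i' hne v hv v' hv' with h7 | h7
        · rw [hvv, hφi] at h7
          rcases h7 with h8 | h8 <;> simp only at h8 <;> linarith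
        · rw [hvv, hφi] at h7
          rcases h7 with h8 | h8 <;> simp only at h8 <;> linarith
    · intro x hx y hy hne
      obtain ⟨i, hi, hx'⟩ := Finset.mem_biUnion.1 hx
      obtain ⟨v, hv, rfl⟩ := Finset.mem_image.1 hx'
      obtain ⟨i', hi', hy'⟩ := Finset.mem_biUnion.1 hy
      obtain ⟨v', hv', rfl⟩ := Finset.mem_image.1 hy'
      by_cases hii : i = i'
      · subst hii
        have hvv : v ≠ v' := fun h => hne (by rw [h])
        have hc := P.pos i.1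
        have hd := Q.pos i.2
        rw [hφi, hφi]
        rcases hV3 i v hv v' hv' hvv with h7 | h7
        · left
          rcases h7 with h8 | h8
          · left; have := mul_le_mul_of_nonneg_left h8 hc.le; simp only; linarith
          · right; have := mul_le_mul_of_nonneg_left h8 hc.le; simp only; linarith
        · right
          rcases h7 with h8 | h8
          · left; have := mul_le_mul_of_nonneg_left h8 hd.le; simp only; linarith
          · right; have := mul_le_mul_of_nonneg_left h8 hd.le; simp only; linarith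
      · exact hcross i i' hii v hv v' hv'

/-- at most nine separated rectangles with sides at least r are met by points within r -/
theorem card_le_nine (o o' : Fin 2) (T : Finset ((ℝ × ℝ) × (ℝ × ℝ)))
    (z : (ℝ × ℝ) × (ℝ × ℝ) → Plane) (r : ℝ) (hr : 0 < r)
    (hz : ∀ v ∈ T, (v.1.1 ≤ z v o ∧ z v o ≤ v.1.1 + v.1.2) ∧
      (v.2.1 ≤ z v o' ∧ z v o' ≤ v.2.1 + v.2.2))
    (hlen : ∀ v ∈ T, r ≤ v.1.2 ∧ r ≤ v.2.2)
    (hsep : ∀ v ∈ T, ∀ v' ∈ T, v ≠ v' → Sep v.1 v'.1 ∨ Sep v.2 v'.2)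
    (hd : ∀ v ∈ T, ∀ v' ∈ T, dist (z v) (z v') ≤ r) : T.card ≤ 9 := by
  classical
  rcases T.eq_empty_or_nonempty with rfl | hne
  · simp
  obtain ⟨v1, hv1, hmin1⟩ := T.exists_min_image (fun v => z v o) hne
  obtain ⟨v2, hv2, hmin2⟩ := T.exists_min_image (fun v => z v o') hne
  have hg : ∀ (l e x : ℝ), l ≤ x → x ≤ l + e → r ≤ e →
      l ≤ max l (x - r) ∧ max l (x - r) + r ≤ l + e ∧ x - r ≤ max l (x - r) ∧
        max l (x - r) ≤ x := by
    intro l e x h1 h2 h3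
    refine ⟨le_max_left _ _, ?_, le_max_right _ _, max_le h1 (by linarith)⟩
    rcases max_choice l (x - r) with h | h
    · rw [h]; linarith
    · rw [h]; linarith
  have hfl : ∀ x y : ℝ, ⌊x / r⌋ = ⌊y / r⌋ → |x - y| < r := by
    intro x y hxy
    have h4 := Int.abs_sub_lt_one_of_floor_eq_floor hxy
    have h5 : x / r - y / r = (x - y) / r := by ring
    rwa [h5, abs_div, abs_of_pos hr, div_lt_one hr] at h4
  have hmem : ∀ x : ℝ, 0 ≤ x → x ≤ 2 * r → ⌊x / r⌋ ∈ Finset.Icc (0 : ℤ) 2 := by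
    intro x h1 h2
    rw [Finset.mem_Icc]
    constructor
    · exact Int.floor_nonneg.2 (div_nonneg h1 hr.le)
    · have : x / r ≤ 2 := by rw [div_le_iff₀ hr]; linarith
      have h3 : (⌊x / r⌋ : ℝ) ≤ 2 := (Int.floor_le _).trans this
      exact_mod_cast h3
  have hmap : ∀ v ∈ T, (⌊(max v.1.1 (z v o - r) - (z v1 o - r)) / r⌋,
      ⌊(max v.2.1 (z v o' - r) - (z v2 o' - r)) / r⌋) ∈
      Finset.Icc (0 : ℤ) 2 ×ˢ Finset.Icc (0 : ℤ) 2 := by
    intro v hv
    obtain ⟨⟨a1, a2⟩, a3, a4⟩ := hz v hv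
    obtain ⟨l1, l2⟩ := hlen v hv
    obtain ⟨-, -, b1, b2⟩ := hg _ _ _ a1 a2 l1
    obtain ⟨-, -, c1, c2⟩ := hg _ _ _ a3 a4 l2
    have m1 := hmin1 v hv
    have m2 := hmin2 v hv
    have d1 := abs_le.1 ((abs_sub_le_dist (z v) (z v1) o).trans (hd v hv v1 hv1))
    have d2 := abs_le.1 ((abs_sub_le_dist (z v) (z v2) o').trans (hd v hv v2 hv2))
    rw [Finset.mem_product]
    exact ⟨hmem _ (by linarith) (by linarith [d1.2]), hmem _ (by linarith) (by linarith [d2.2])⟩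
  have hinj : Set.InjOn (fun v => (⌊(max v.1.1 (z v o - r) - (z v1 o - r)) / r⌋,
      ⌊(max v.2.1 (z v o' - r) - (z v2 o' - r)) / r⌋)) (T : Set ((ℝ × ℝ) × (ℝ × ℝ))) := by
    intro v hv v' hv' hvv
    by_contra hne'
    simp only [Prod.mk.injEq] at hvv
    obtain ⟨⟨a1, a2⟩, a3, a4⟩ := hz v hv
    obtain ⟨⟨a1', a2'⟩, a3', a4'⟩ := hz v' hv'
    obtain ⟨l1, l2⟩ := hlen v hv
    obtain ⟨l1', l2'⟩ := hlen v' hv'
    obtain ⟨b1, b2, -, -⟩ := hg _ _ _ a1 a2 l1
    obtain ⟨b1', b2', -, -⟩ := hg _ _ _ a1' a2' l1'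
    obtain ⟨c1, c2, -, -⟩ := hg _ _ _ a3 a4 l2
    obtain ⟨c1', c2', -, -⟩ := hg _ _ _ a3' a4' l2'
    have f1 := abs_lt.1 (hfl _ _ hvv.1)
    have f2 := abs_lt.1 (hfl _ _ hvv.2)
    rcases hsep v hv v' hv' hne' with h7 | h7
    · rcases h7 with h8 | h8
      · linarith [f1.1, f1.2]
      · linarith [f1.1, f1.2]
    · rcases h7 with h8 | h8
      · linarith [f2.1, f2.2]
      · linarith [f2.1, f2.2]
  have := Finset.card_le_card_of_injOn _ hmap hinj
  simpa using this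

theorem LB : S_LB := by
  intro α β _ _ _ _ P Q I o o' F h t1 t2 s1 ht1 ht2 hs1 hc hr e1
  classical
  obtain ⟨κ, ρ, k1, k2, r1, r2, hb, hb'⟩ := bounds₂ P Q
  have hI : I.Nonempty := by
    by_contra hne
    rw [Finset.not_nonempty_iff_eq_empty] at hne
    rw [hne] at e1
    simp at e1
  have hst : s1 - t1 ≤ t2 := by
    by_contra hcon
    push Not at hcon
    have h1 : ∑ i ∈ I, P.c i.1 ^ t1 * Q.c i.2 ^ (s1 - t1) <
        ∑ i ∈ I, P.c i.1 ^ t1 * Q.c i.2 ^ t2 := by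
      apply Finset.sum_lt_sum_of_nonempty hI
      intro i _
      apply mul_lt_mul_of_pos_left _ (Real.rpow_pos_of_pos (P.pos _) _)
      exact Real.rpow_lt_rpow_of_exponent_gt (Q.pos _) (Q.lt_one _) hcon
    have h2 : ∑ i ∈ I, P.c i.1 ^ t1 * Q.c i.2 ^ t2 ≤
        ∑ i ∈ usedCols I ×ˢ usedRows I, P.c i.1 ^ t1 * Q.c i.2 ^ t2 := by
      apply Finset.sum_le_sum_of_subset_of_nonneg
      · intro i hi
        exact Finset.mem_product.2 ⟨mem_usedCols.2 ⟨i.2, hi⟩, mem_usedRows.2 ⟨i.1, hi⟩⟩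
      · intro i _ _
        exact mul_nonneg (Real.rpow_nonneg (P.pos _).le _) (Real.rpow_nonneg (Q.pos _).le _)
    rw [Finset.sum_product] at h2
    simp only at h2
    rw [← Finset.sum_mul_sum, hc, hr] at h2
    linarith
  have hcov : ∀ r : ℝ, 0 < r → r < 1 → (r / κ) ^ (-s1) ≤ 9 * coverNum r F := by
    intro r hr0 hr1
    have hδ : 0 < r / κ := by positivity
    obtain ⟨n, hn⟩ := exists_pow_lt_of_lt_one hδ r2
    have hκr : κ * (r / κ) = r := by field_simp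
    obtain ⟨V, hV1, hV2, hV3⟩ := pack2 P Q I o o' F h t1 t2 s1 κ ρ ht1 ht2 hs1 hst k1 k2 r1 hb hb'
      hc hr e1 n (r / κ) (r / κ) hn.le hn.le (by rw [hκr]; exact hr1) (by rw [hκr]; exact hr1)
    rw [hκr] at hV1
    have hpt : ∀ v : (ℝ × ℝ) × (ℝ × ℝ), ∃ z : Plane, v ∈ V → z ∈ F ∧
        (v.1.1 ≤ z o ∧ z o ≤ v.1.1 + v.1.2) ∧ (v.2.1 ≤ z o' ∧ z o' ≤ v.2.1 + v.2.2) := by
      intro v
      by_cases hv : v ∈ V
      · obtain ⟨⟨z, hz, a, b⟩, -⟩ := hV1 v hv
        exact ⟨z, fun _ => ⟨hz, a, b⟩⟩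
      · exact ⟨0, fun h => (hv h).elim⟩
    choose z hz using hpt
    have h1 := card_le_coverNum V z r F h.compact.isBounded hr0 (fun v hv => (hz v hv).1) 9 (by
      intro T hT hTd
      apply card_le_nine o o' T z r hr0 (fun v hv => (hz v (hT hv)).2)
        (fun v hv => (hV1 v (hT hv)).2.2.2)
        (fun v hv v' hv' hne => hV3 v (hT hv) v' (hT hv') hne) hTd)
    calc (r / κ) ^ (-s1) = (r / κ) ^ (-t1) * (r / κ) ^ (-(s1 - t1)) := by
          rw [← Real.rpow_add hδ]; congr 1; ring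
      _ ≤ V.card := hV2
      _ ≤ 9 * coverNum r F := by exact_mod_cast h1
  have hlim : Tendsto (fun r : ℝ => ENNReal.ofReal
      ((s1 * Real.log κ - Real.log 9) / (-Real.log r) + s1)) (𝓝[>] 0)
      (𝓝 (ENNReal.ofReal s1)) := by
    apply ENNReal.tendsto_ofReal
    have h1 : Tendsto (fun r : ℝ => -Real.log r) (𝓝[>] 0) atTop :=
      tendsto_neg_atBot_atTop.comp Real.tendsto_log_nhdsGT_zero
    have h2 := (h1.const_div_atTop (s1 * Real.log κ - Real.log 9)).add_const s1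
    simpa using h2
  rw [lowerBoxDim, ← hlim.liminf_eq]
  apply liminf_le_liminf
  · have hmem : Ioo (0 : ℝ) 1 ∈ 𝓝[>] (0 : ℝ) := Ioo_mem_nhdsGT one_pos
    filter_upwards [hmem] with r hr
    have h1 := hcov r hr.1 hr.2
    apply ENNReal.ofReal_le_ofReal
    have hlog : 0 < -Real.log r := by
      have := Real.log_neg hr.1 hr.2
      linarith
    have hδ : 0 < r / κ := div_pos hr.1 k1
    have h2 : 0 < (r / κ) ^ (-s1) := by positivity
    have h3 : (0 : ℝ) < coverNum r F := by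
      by_contra hneg
      push Not at hneg
      linarith
    rw [le_div_iff₀ hlog, add_mul, div_mul_cancel₀ _ hlog.ne']
    have h4 := Real.log_le_log h2 h1
    rw [Real.log_rpow hδ, Real.log_div hr.1.ne' k1.ne', Real.log_mul (by norm_num) h3.ne'] at h4
    linarith
  · isBoundedDefault
  · isBoundedDefault

end Pool.Agent.H891.Carp
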