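import Pool.Agent.H891.Carpet.Cov

/-!
Packing lemma.
-/

namespace Pool.Agent.H891.Carp

open Set MeasureTheory Filter Topology
open scoped ENNReal NNReal

variable {α β : Type} [Fintype α] [Fintype β] [DecidableEq α] [DecidableEq β]

omit [Fintype α] in
/-- One dimensional packing lemma. -/
theorem pack1 (P : Side α) (U : Finset α) (t κ ρ : ℝ)
    (hsum : ∑ k ∈ U, P.c k ^ t = 1) (hκ : 0 < κ) (hκ1 : κ < 1) (hρ : 0 < ρ)
    (hb : ∀ k, κ ≤ P.c k ∧ P.c k ≤ ρ) (Pr : ℕ → ℝ → ℝ → Prop) (h0 : ∀ n, Pr n 0 1)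
    (hstep : ∀ n, ∀ k ∈ U, ∀ l e, Pr n l e → Pr (n + 1) (P.c k * l + P.a k) (P.c k * e)) :
    ∀ (n : ℕ) (δ : ℝ), ρ ^ n ≤ δ → κ * δ < 1 → ∃ V : Finset (ℝ × ℝ),
      (∀ v ∈ V, Pr n v.1 v.2 ∧ 0 ≤ v.1 ∧ v.1 + v.2 ≤ 1 ∧ κ * δ ≤ v.2 ∧ v.2 ≤ δ) ∧
      ∑ v ∈ V, v.2 ^ t = 1 ∧
      ∀ v ∈ V, ∀ v' ∈ V, v ≠ v' → v.1 + v.2 ≤ v'.1 ∨ v'.1 + v'.2 ≤ v.1 := by
  have base : ∀ (n : ℕ) (δ : ℝ), 1 ≤ δ → κ * δ < 1 → ∃ V : Finset (ℝ × ℝ),
      (∀ v ∈ V, Pr n v.1 v.2 ∧ 0 ≤ v.1 ∧ v.1 + v.2 ≤ 1 ∧ κ * δ ≤ v.2 ∧ v.2 ≤ δ) ∧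
      ∑ v ∈ V, v.2 ^ t = 1 ∧
      ∀ v ∈ V, ∀ v' ∈ V, v ≠ v' → v.1 + v.2 ≤ v'.1 ∨ v'.1 + v'.2 ≤ v.1 := by
    intro n δ h1 h2
    refine ⟨{(0, 1)}, ?_, ?_, ?_⟩
    · intro v hv
      rw [Finset.mem_singleton] at hv
      subst hv
      exact ⟨h0 n, le_refl _, by norm_num, h2.le, h1⟩
    · simp
    · intro v hv v' hv' hne
      rw [Finset.mem_singleton] at hv hv'
      exact (hne (hv.trans hv'.symm)).elim
  intro n
  induction n with
  | zero =>
    intro δ h1 h2
    exact base 0 δ (by simpa using h1) h2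
  | succ n ih =>
    intro δ h1 h2
    rcases le_or_gt 1 δ with h | h
    · exact base _ δ h h2
    have hδ : 0 < δ := lt_of_lt_of_le (by positivity) h1
    have key : ∀ k : α, ∃ V : Finset (ℝ × ℝ),
      (∀ v ∈ V, Pr n v.1 v.2 ∧ 0 ≤ v.1 ∧ v.1 + v.2 ≤ 1 ∧ κ * (δ / P.c k) ≤ v.2 ∧
        v.2 ≤ δ / P.c k) ∧
      ∑ v ∈ V, v.2 ^ t = 1 ∧
      ∀ v ∈ V, ∀ v' ∈ V, v ≠ v' → v.1 + v.2 ≤ v'.1 ∨ v'.1 + v'.2 ≤ v.1 := by
      intro k
      have hc := P.pos k
      apply ih
      · rw [le_div_iff₀ hc]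
        calc ρ ^ n * P.c k ≤ ρ ^ n * ρ := by
              apply mul_le_mul_of_nonneg_left (hb k).2 (by positivity)
          _ = ρ ^ (n + 1) := by ring
          _ ≤ δ := h1
      · rw [← mul_div_assoc, div_lt_one hc]
        calc κ * δ < κ * 1 := by
              apply mul_lt_mul_of_pos_left h hκ
          _ ≤ P.c k := by rw [mul_one]; exact (hb k).1
    choose V hV1 hV2 hV3 using key
    have hpos : ∀ k, ∀ v ∈ V k, 0 < v.2 := by
      intro k v hv
      obtain ⟨-, -, -, h3, -⟩ := hV1 k v hv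
      exact lt_of_lt_of_le (mul_pos hκ (div_pos hδ (P.pos k))) h3
    -- the interval of the image lies in the interval of k
    have hin : ∀ k, ∀ v ∈ V k, P.a k ≤ P.c k * v.1 + P.a k ∧
        P.c k * v.1 + P.a k + P.c k * v.2 ≤ P.a k + P.c k ∧ 0 < P.c k * v.2 := by
      intro k v hv
      obtain ⟨-, a1, a2, -, -⟩ := hV1 k v hv
      have h3 := mul_nonneg (P.pos k).le a1
      have h4 := mul_le_mul_of_nonneg_left a2 (P.pos k).le
      exact ⟨by linarith, by linarith, mul_pos (P.pos k) (hpos k v hv)⟩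
    have hcross : ∀ k l, k ≠ l → ∀ v ∈ V k, ∀ w ∈ V l,
        (P.c k * v.1 + P.a k) + P.c k * v.2 ≤ P.c l * w.1 + P.a l ∨
        (P.c l * w.1 + P.a l) + P.c l * w.2 ≤ P.c k * v.1 + P.a k := by
      intro k l hkl v hv w hw
      obtain ⟨a1, a2, a3⟩ := hin k v hv
      obtain ⟨b1, b2, b3⟩ := hin l w hw
      rcases P.sep k l hkl with h3 | h3
      · left; linarith
      · right; linarith
    have hinj : ∀ k, Function.Injective (fun v : ℝ × ℝ => (P.c k * v.1 + P.a k, P.c k * v.2)) := by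
      intro k v w hvw
      have hc := P.pos k
      simp only [Prod.mk.injEq, add_left_inj, mul_eq_mul_left_iff] at hvw
      ext
      · rcases hvw.1 with h | h
        · exact h
        · exact (hc.ne' h).elim
      · rcases hvw.2 with h | h
        · exact h
        · exact (hc.ne' h).elim
    refine ⟨U.biUnion (fun k => (V k).image (fun v => (P.c k * v.1 + P.a k, P.c k * v.2))),
      ?_, ?_, ?_⟩
    · intro q hq
      obtain ⟨k, hk, hq'⟩ := Finset.mem_biUnion.1 hq
      obtain ⟨v, hv, rfl⟩ := Finset.mem_image.1 hq'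
      obtain ⟨a0, a1, a2, a3, a4⟩ := hV1 k v hv
      obtain ⟨b1, b2, b3⟩ := hin k v hv
      refine ⟨hstep n k hk _ _ a0, ?_, ?_, ?_, ?_⟩
      · have := P.nonneg k
        simp only; linarith
      · have := P.le_one k
        simp only; linarith
      · have h3 := mul_le_mul_of_nonneg_left a3 (P.pos k).le
        have h4 : P.c k * (κ * (δ / P.c k)) = κ * δ := by
          have := (P.pos k).ne'
          field_simp
        simp only; linarith
      · have h3 := mul_le_mul_of_nonneg_left a4 (P.pos k).le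
        have h4 : P.c k * (δ / P.c k) = δ := by
          have := (P.pos k).ne'
          field_simp
        simp only; linarith
    · rw [Finset.sum_biUnion]
      · rw [← hsum]
        apply Finset.sum_congr rfl
        intro k _
        rw [Finset.sum_image (fun _ _ _ _ h => hinj k h)]
        calc ∑ v ∈ V k, (P.c k * v.2) ^ t = ∑ v ∈ V k, P.c k ^ t * v.2 ^ t := by
              apply Finset.sum_congr rfl
              intro v hv
              rw [Real.mul_rpow (P.pos k).le (hpos k v hv).le]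
          _ = P.c k ^ t := by rw [← Finset.mul_sum, hV2 k, mul_one]
      · intro k _ l _ hkl
        rw [Function.onFun, Finset.disjoint_left]
        intro x hx hx'
        obtain ⟨v, hv, rfl⟩ := Finset.mem_image.1 hx
        obtain ⟨w, hw, hw'⟩ := Finset.mem_image.1 hx'
        simp only [Prod.mk.injEq] at hw'
        have h3 := (hin k v hv).2.2
        have h4 := (hin l w hw).2.2
        rcases hcross k l hkl v hv w hw with h5 | h5
        · linarith [hw'.1, hw'.2]
        · linarith [hw'.1, hw'.2]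
    · intro x hx y hy hne
      obtain ⟨k, hk, hx⟩ := Finset.mem_biUnion.1 hx
      obtain ⟨v, hv, rfl⟩ := Finset.mem_image.1 hx
      obtain ⟨l, hl, hy⟩ := Finset.mem_biUnion.1 hy
      obtain ⟨w, hw, rfl⟩ := Finset.mem_image.1 hy
      rcases eq_or_ne k l with rfl | hkl
      · have hvw : v ≠ w := fun h => hne (by rw [h])
        rcases hV3 k v hv w hw hvw with h3 | h3
        · left
          have := mul_le_mul_of_nonneg_left h3 (P.pos k).le
          simp only; linarith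
        · right
          have := mul_le_mul_of_nonneg_left h3 (P.pos k).le
          simp only; linarith
      · exact hcross k l hkl v hv w hw

/-- constant of an iterated affine map -/
def iter (c a : ℝ) : ℕ → ℝ
  | 0 => 0
  | n + 1 => c * iter c a n + a

omit [Fintype α] [Fintype β] [DecidableEq α] [DecidableEq β] in
theorem Attr.iterate {P : Side α} {Q : Side β} {I : Finset (α × β)} {o o' : Fin 2}
    {F : Set Plane} (h : Attr P Q I o o' F) (i : α × β) (hi : i ∈ I) (n : ℕ) :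
    ∀ z ∈ F, ∃ z' ∈ F, z' o = P.c i.1 ^ n * z o + iter (P.c i.1) (P.a i.1) n ∧
      z' o' = Q.c i.2 ^ n * z o' + iter (Q.c i.2) (Q.a i.2) n := by
  induction n with
  | zero => intro z hz; exact ⟨z, hz, by simp [iter], by simp [iter]⟩
  | succ n ih =>
    intro z hz
    obtain ⟨z', hz', h1, h2⟩ := ih z hz
    obtain ⟨z'', hz'', h3, h4⟩ := h.maps i hi z' hz'
    refine ⟨z'', hz'', ?_, ?_⟩
    · rw [h3, h1, iter]; ring
    · rw [h4, h2, iter]; ring

/-- comparison of exponents -/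
theorem le_of_rpow_le (x y K : ℝ) (h : ∀ δ : ℝ, 0 < δ → δ < 1 → δ ^ (-x) ≤ K * δ ^ (-y)) :
    x ≤ y := by
  by_contra hxy
  push Not at hxy
  have hK : 0 < K := by
    have h1 := h (1 / 2) (by norm_num) (by norm_num)
    by_contra hneg
    push Not at hneg
    have h2 : (0 : ℝ) < (1 / 2) ^ (-x) := by positivity
    have h3 : (0 : ℝ) < (1 / 2) ^ (-y) := by positivity
    nlinarith
  have hd : 0 < x - y := by linarith
  set δ : ℝ := (K + 2) ^ (-(1 / (x - y))) with hδ
  have hδ0 : 0 < δ := by positivity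
  have hδ1 : δ < 1 := by
    apply Real.rpow_lt_one_of_one_lt_of_neg (by linarith)
    have : 0 < 1 / (x - y) := by positivity
    linarith
  have h1 := h δ hδ0 hδ1
  have h2 : δ ^ (-(x - y)) = K + 2 := by
    rw [hδ, ← Real.rpow_mul (by linarith)]
    rw [show -(1 / (x - y)) * -(x - y) = 1 by field_simp, Real.rpow_one]
  have h3 : δ ^ (-x) = δ ^ (-(x - y)) * δ ^ (-y) := by
    rw [← Real.rpow_add hδ0]; congr 1; ring
  rw [h3, h2] at h1
  have h4 : 0 < δ ^ (-y) := by positivity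
  nlinarith

end Pool.Agent.H891.Carp
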