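import Pool.Agent.H891.Carpet.Stm

/-!
Statements of the two main implications.
-/

namespace Pool.Agent.H891.Carp

open Set MeasureTheory Filter Topology
open scoped ENNReal NNReal

/-- (T1) -/
def S_T1 : Prop := ∀ {α β : Type} [Fintype α] [Fintype β] [DecidableEq α] [DecidableEq β]
  (P : Side α) (Q : Side β) (I : Finset (α × β)) (o o' : Fin 2) (F : Set Plane),
  Attr P Q I o o' F → (∃ i ∈ I, P.c i.1 < Q.c i.2) → (∃ i ∈ I, Q.c i.2 < P.c i.1) →
  assouadDim F ≤ upperBoxDim F → upperBoxDim F ≤ dimH F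

/-- (T2) -/
def S_T2 : Prop := ∀ {α β : Type} [Fintype α] [Fintype β] [DecidableEq α] [DecidableEq β]
  (P : Side α) (Q : Side β) (I : Finset (α × β)) (o o' : Fin 2) (F : Set Plane),
  Attr P Q I o o' F → (∃ i ∈ I, P.c i.1 < Q.c i.2) → (∃ i ∈ I, Q.c i.2 < P.c i.1) →
  dimH F ≤ lowerDim F → upperBoxDim F ≤ dimH F

end Pool.Agent.H891.Carp
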