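import Pool.Agent.H891.Carpet.T2a

/-!
T2: if the Hausdorff dimension equals the lower dimension, then it equals the box dimension.
-/

namespace Pool.Agent.H891.Carp

open Set MeasureTheory Filter Topology
open scoped ENNReal NNReal

variable {α β : Type} [Fintype α] [Fintype β] [DecidableEq α] [DecidableEq β]

omit [Fintype α] [DecidableEq α] in
/-- existence of the exponent -/
theorem exists_expo (P : Side α) (U : Finset α) (hU : U.Nonempty) :
    ∃ t : ℝ, 0 ≤ t ∧ ∑ k ∈ U, P.c k ^ t = 1 := by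
  have hcont : Continuous (fun t : ℝ => ∑ k ∈ U, P.c k ^ t) := by
    apply continuous_finsetSum
    intro k _
    exact Real.continuous_const_rpow (P.pos k).ne'
  have hlim : Tendsto (fun n : ℕ => ∑ k ∈ U, P.c k ^ (n : ℝ)) atTop (𝓝 (∑ k ∈ U, (0 : ℝ))) := by
    apply tendsto_finsetSum
    intro k _
    simp only [Real.rpow_natCast]
    exact tendsto_pow_atTop_nhds_zero_of_lt_one (P.pos k).le (P.lt_one k)
  rw [Finset.sum_const_zero] at hlim
  obtain ⟨N, hN⟩ := (hlim.eventually (gt_mem_nhds (show (0 : ℝ) < 1 by norm_num))).exists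
  have h0 : 1 ≤ ∑ k ∈ U, P.c k ^ (0 : ℝ) := by
    simp only [Real.rpow_zero, Finset.sum_const, nsmul_eq_mul, mul_one]
    exact_mod_cast hU.card_pos
  obtain ⟨t, ht, ht'⟩ := intermediate_value_Icc' (Nat.cast_nonneg N) hcont.continuousOn
    ⟨hN.le, h0⟩
  exact ⟨t, ht.1, ht'⟩

omit [Fintype α] [Fintype β] [DecidableEq α] [DecidableEq β] in
/-- tangent line inequality for the weights -/
theorem weight_tangent (c d σ a b : ℝ) (hc : 0 < c) (hd : 0 < d) :
    c ^ a * d ^ (σ - a) * (1 + (b - a) * (Real.log c - Real.log d)) ≤ c ^ b * d ^ (σ - b) := by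
  have h1 : c ^ b * d ^ (σ - b) = c ^ a * d ^ (σ - a) *
      Real.exp ((b - a) * (Real.log c - Real.log d)) := by
    rw [Real.rpow_def_of_pos hc, Real.rpow_def_of_pos hc, Real.rpow_def_of_pos hd,
      Real.rpow_def_of_pos hd, ← Real.exp_add, ← Real.exp_add, ← Real.exp_add]
    congr 1
    ring
  rw [h1]
  apply mul_le_mul_of_nonneg_left _ (by positivity)
  have := Real.add_one_le_exp ((b - a) * (Real.log c - Real.log d))
  linarith

omit [Fintype α] [Fintype β] [DecidableEq α] [DecidableEq β] in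
/-- monotonicity of the derivative -/
theorem weight_mono (c d σ a b : ℝ) (hc : 0 < c) (hd : 0 < d) (hab : a ≤ b) :
    c ^ a * d ^ (σ - a) * (Real.log c - Real.log d) ≤
      c ^ b * d ^ (σ - b) * (Real.log c - Real.log d) := by
  have h1 : c ^ b * d ^ (σ - b) = c ^ a * d ^ (σ - a) *
      Real.exp ((b - a) * (Real.log c - Real.log d)) := by
    rw [Real.rpow_def_of_pos hc, Real.rpow_def_of_pos hc, Real.rpow_def_of_pos hd,
      Real.rpow_def_of_pos hd, ← Real.exp_add, ← Real.exp_add, ← Real.exp_add]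
    congr 1
    ring
  rw [h1, mul_assoc (c ^ a * d ^ (σ - a)) (Real.exp _)]
  apply mul_le_mul_of_nonneg_left _ (by positivity)
  rcases le_or_gt 0 (Real.log c - Real.log d) with h | h
  · apply le_mul_of_one_le_left h
    exact Real.one_le_exp (by nlinarith)
  · have h2 : Real.exp ((b - a) * (Real.log c - Real.log d)) ≤ 1 :=
      Real.exp_le_one_iff.2 (by nlinarith)
    nlinarith

omit [Fintype α] [Fintype β] in
/-- The final analytic statement. -/
theorem core [Fintype α] [Fintype β] (P : Side α) (Q : Side β) (I : Finset (α × β)) (hI : I.Nonempty) (σ t1 t2 : ℝ)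
    (hD : HD P Q I σ) (hD' : HD Q P (swapI I) σ)
    (hc : ∑ k ∈ usedCols I, P.c k ^ t1 = 1) (hr : ∑ j ∈ usedRows I, Q.c j ^ t2 = 1)
    (hv : ∀ j ∈ usedRows I, 1 ≤ ∑ k ∈ rowCells I j, P.c k ^ (σ - t2))
    (hu : ∀ k ∈ usedCols I, 1 ≤ ∑ j ∈ rowCells (swapI I) k, Q.c j ^ (σ - t1)) :
    (∀ j ∈ usedRows I, ∑ k ∈ rowCells I j, P.c k ^ (σ - t2) = 1) ∧
    (∀ k ∈ usedCols I, ∑ j ∈ rowCells (swapI I) k, Q.c j ^ (σ - t1) = 1) := by
  obtain ⟨⟨k0, j0⟩, hi0⟩ := hI
  -- a <= b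
  have hab : σ - t2 ≤ t1 := by
    by_contra hcon
    push Not at hcon
    have hj0 : j0 ∈ usedRows I := mem_usedRows.2 ⟨k0, hi0⟩
    have h1 : ∑ k ∈ rowCells I j0, P.c k ^ (σ - t2) < ∑ k ∈ rowCells I j0, P.c k ^ t1 := by
      apply Finset.sum_lt_sum_of_nonempty ⟨k0, mem_rowCells.2 hi0⟩
      intro k _
      exact Real.rpow_lt_rpow_of_exponent_gt (P.pos k) (P.lt_one k) hcon
    have h2 : ∑ k ∈ rowCells I j0, P.c k ^ t1 ≤ ∑ k ∈ usedCols I, P.c k ^ t1 := by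
      apply Finset.sum_le_sum_of_subset_of_nonneg
      · intro k hk
        exact mem_usedCols.2 ⟨j0, mem_rowCells.1 hk⟩
      · intro k _ _
        exact Real.rpow_nonneg (P.pos k).le _
    have := hv j0 hj0
    linarith
  have fa : ∑ i ∈ I, P.c i.1 ^ (σ - t2) * Q.c i.2 ^ (σ - (σ - t2)) =
      ∑ j ∈ usedRows I, Q.c j ^ t2 * ∑ k ∈ rowCells I j, P.c k ^ (σ - t2) := by
    rw [sum_rows]
    apply Finset.sum_congr rfl
    intro j _
    rw [Finset.mul_sum]
    apply Finset.sum_congr rfl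
    intro k _
    simp only [sub_sub_cancel]
    ring
  have fb : ∑ i ∈ I, P.c i.1 ^ t1 * Q.c i.2 ^ (σ - t1) =
      ∑ k ∈ usedCols I, P.c k ^ t1 * ∑ j ∈ rowCells (swapI I) k, Q.c j ^ (σ - t1) := by
    have h1 := sum_swapI I (fun i => P.c i.2 ^ t1 * Q.c i.1 ^ (σ - t1))
    simp only at h1
    rw [← h1, sum_rows, usedRows_swapI]
    apply Finset.sum_congr rfl
    intro j _
    rw [Finset.mul_sum]
  -- sum > 1 if strict somewhere
  have fa1 : (∃ j ∈ usedRows I, 1 < ∑ k ∈ rowCells I j, P.c k ^ (σ - t2)) →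
      1 < ∑ i ∈ I, P.c i.1 ^ (σ - t2) * Q.c i.2 ^ (σ - (σ - t2)) := by
    rintro ⟨j1, hj1, hj1'⟩
    rw [fa, ← hr]
    apply Finset.sum_lt_sum
    · intro j hj
      exact le_mul_of_one_le_right (Real.rpow_nonneg (Q.pos j).le _) (hv j hj)
    · exact ⟨j1, hj1, lt_mul_of_one_lt_right (Real.rpow_pos_of_pos (Q.pos j1) _) hj1'⟩
  have fb1 : (∃ k ∈ usedCols I, 1 < ∑ j ∈ rowCells (swapI I) k, Q.c j ^ (σ - t1)) →
      1 < ∑ i ∈ I, P.c i.1 ^ t1 * Q.c i.2 ^ (σ - t1) := by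
    rintro ⟨j1, hj1, hj1'⟩
    rw [fb, ← hc]
    apply Finset.sum_lt_sum
    · intro j hj
      exact le_mul_of_one_le_right (Real.rpow_nonneg (P.pos j).le _) (hu j hj)
    · exact ⟨j1, hj1, lt_mul_of_one_lt_right (Real.rpow_pos_of_pos (P.pos j1) _) hj1'⟩
  have da : (∃ j ∈ usedRows I, 1 < ∑ k ∈ rowCells I j, P.c k ^ (σ - t2)) →
      0 < ∑ i ∈ I, P.c i.1 ^ (σ - t2) * Q.c i.2 ^ (σ - (σ - t2)) *
      (Real.log (P.c i.1) - Real.log (Q.c i.2)) := by
    intro hex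
    have := deriv_pos P Q I σ t2 hD hr hv hex
    simpa only [sub_sub_cancel] using this
  have db : (∃ k ∈ usedCols I, 1 < ∑ j ∈ rowCells (swapI I) k, Q.c j ^ (σ - t1)) →
      ∑ i ∈ I, P.c i.1 ^ t1 * Q.c i.2 ^ (σ - t1) *
      (Real.log (P.c i.1) - Real.log (Q.c i.2)) < 0 := by
    intro hex
    have h1 := deriv_pos Q P (swapI I) σ t1 hD' (by rw [usedRows_swapI]; exact hc)
      (by rw [usedRows_swapI]; exact hu) (by rw [usedRows_swapI]; exact hex)
    rw [sum_swapI] at h1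
    have h2 : ∑ i ∈ I, P.c i.1 ^ t1 * Q.c i.2 ^ (σ - t1) *
      (Real.log (P.c i.1) - Real.log (Q.c i.2)) = - ∑ i ∈ I, Q.c (i.2, i.1).1 ^ (σ - t1) *
        P.c (i.2, i.1).2 ^ t1 * (Real.log (Q.c (i.2, i.1).1) - Real.log (P.c (i.2, i.1).2)) := by
      rw [← Finset.sum_neg_distrib]
      apply Finset.sum_congr rfl
      intro i _
      ring
    rw [h2]
    linarith
  have tan1 : ∀ a b : ℝ, ∑ i ∈ I, P.c i.1 ^ a * Q.c i.2 ^ (σ - a) + (b - a) *
      ∑ i ∈ I, P.c i.1 ^ a * Q.c i.2 ^ (σ - a) *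
      (Real.log (P.c i.1) - Real.log (Q.c i.2)) ≤ ∑ i ∈ I, P.c i.1 ^ b * Q.c i.2 ^ (σ - b) := by
    intro a b
    rw [Finset.mul_sum, ← Finset.sum_add_distrib]
    apply Finset.sum_le_sum
    intro i _
    have := weight_tangent (P.c i.1) (Q.c i.2) σ a b (P.pos _) (Q.pos _)
    linarith
  have hXY : ¬ (∃ j ∈ usedRows I, 1 < ∑ k ∈ rowCells I j, P.c k ^ (σ - t2)) ∧
      ¬ (∃ k ∈ usedCols I, 1 < ∑ j ∈ rowCells (swapI I) k, Q.c j ^ (σ - t1)) := by
    by_contra hcon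
    by_cases hX : ∃ j ∈ usedRows I, 1 < ∑ k ∈ rowCells I j, P.c k ^ (σ - t2)
    · by_cases hY : ∃ k ∈ usedCols I, 1 < ∑ j ∈ rowCells (swapI I) k, Q.c j ^ (σ - t1)
      · have h1 := da hX
        have h2 := db hY
        have h3 : ∑ i ∈ I, P.c i.1 ^ (σ - t2) * Q.c i.2 ^ (σ - (σ - t2)) *
            (Real.log (P.c i.1) - Real.log (Q.c i.2)) ≤
            ∑ i ∈ I, P.c i.1 ^ t1 * Q.c i.2 ^ (σ - t1) *
            (Real.log (P.c i.1) - Real.log (Q.c i.2)) :=
          Finset.sum_le_sum fun i _ => weight_mono _ _ σ _ _ (P.pos _) (Q.pos _) hab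
        linarith
      · have h1 := da hX
        have h2 := fa1 hX
        have h3 := tan1 (σ - t2) t1
        have h4 : ∑ i ∈ I, P.c i.1 ^ t1 * Q.c i.2 ^ (σ - t1) = 1 := by
          rw [fb, ← hc]
          apply Finset.sum_congr rfl
          intro k hk
          push Not at hY
          rw [le_antisymm (hY k hk) (hu k hk), mul_one]
        have h5 : 0 ≤ (t1 - (σ - t2)) * ∑ i ∈ I, P.c i.1 ^ (σ - t2) * Q.c i.2 ^ (σ - (σ - t2)) *
            (Real.log (P.c i.1) - Real.log (Q.c i.2)) := mul_nonneg (by linarith) h1.le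
        linarith
    · by_cases hY : ∃ k ∈ usedCols I, 1 < ∑ j ∈ rowCells (swapI I) k, Q.c j ^ (σ - t1)
      · have h1 := db hY
        have h2 := fb1 hY
        have h3 := tan1 t1 (σ - t2)
        have h4 : ∑ i ∈ I, P.c i.1 ^ (σ - t2) * Q.c i.2 ^ (σ - (σ - t2)) = 1 := by
          rw [fa, ← hr]
          apply Finset.sum_congr rfl
          intro j hj
          push Not at hX
          rw [le_antisymm (hX j hj) (hv j hj), mul_one]
        have h5 : 0 ≤ (σ - t2 - t1) * ∑ i ∈ I, P.c i.1 ^ t1 * Q.c i.2 ^ (σ - t1) *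
            (Real.log (P.c i.1) - Real.log (Q.c i.2)) :=
          mul_nonneg_of_nonpos_of_nonpos (by linarith) h1.le
        linarith
      · exact hcon ⟨hX, hY⟩
  obtain ⟨hX, hY⟩ := hXY
  push Not at hX hY
  exact ⟨fun j hj => le_antisymm (hX j hj) (hv j hj), fun k hk => le_antisymm (hY k hk) (hu k hk)⟩

/-- (H) gives HD -/
theorem hd_of_H (hH : S_H) (P : Side α) (Q : Side β) (I : Finset (α × β)) (o o' : Fin 2)
    (F : Set Plane) (h : Attr P Q I o o' F) (σ : ℝ) (hσ0 : 0 ≤ σ)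
    (hσ : dimH F ≤ ENNReal.ofReal σ) : HD P Q I σ := by
  intro p hp hs χc χd hh h2 e1 e2 e3 e4 hle
  have := (hH P Q I o o' F h p hp hs χc χd hh h2 e1 e2 e3 e4 hle).trans hσ
  exact (ENNReal.ofReal_le_ofReal_iff hσ0).1 this

/-- the degenerate case of one used column -/
theorem degenerate (hU : S_U) (hH : S_H) (P : Side α) (Q : Side β) (I : Finset (α × β))
    (o o' : Fin 2) (F : Set Plane) (h : Attr P Q I o o' F) (hI : I.Nonempty)
    (hdeg : ¬ ∃ i ∈ I, ∃ i' ∈ I, i.1 ≠ i'.1) : upperBoxDim F ≤ dimH F := by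
  obtain ⟨⟨k0, j0⟩, hi0⟩ := hI
  push Not at hdeg
  have hk : ∀ i ∈ I, i.1 = k0 := fun i hi => hdeg i hi (k0, j0) hi0
  have hcols : usedCols I = {k0} := by
    ext k
    rw [mem_usedCols, Finset.mem_singleton]
    constructor
    · rintro ⟨j, hj⟩
      exact hk _ hj
    · rintro rfl
      exact ⟨j0, hi0⟩
  have hrow : ∀ j ∈ usedRows I, rowCells I j = {k0} := by
    intro j hj
    obtain ⟨k, hkj⟩ := mem_usedRows.1 hj
    have : k = k0 := hk _ hkj
    subst this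
    ext k'
    rw [mem_rowCells, Finset.mem_singleton]
    constructor
    · intro hk'; exact hk _ hk'
    · rintro rfl; exact hkj
  obtain ⟨t, ht, htsum⟩ := exists_expo Q (usedRows I) ⟨j0, mem_usedRows.2 ⟨k0, hi0⟩⟩
  have hsumI : ∀ f : β → ℝ, ∑ i ∈ I, f i.2 = ∑ j ∈ usedRows I, f j := by
    intro f
    rw [sum_rows]
    apply Finset.sum_congr rfl
    intro j hj
    rw [hrow j hj, Finset.sum_singleton]
  have hsum1 : ∑ i ∈ I, Q.c i.2 ^ t = 1 := by rw [hsumI (fun j => Q.c j ^ t), htsum]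
  have hup : upperBoxDim F ≤ ENNReal.ofReal t := by
    have h1 := hU P Q I o o' F h 0 t t t le_rfl ht ht le_rfl (by rw [hcols]; simp) htsum.le
      (by simp only [Real.rpow_zero, one_mul, sub_zero]; exact hsum1.le)
      (by simp only [sub_self, Real.rpow_zero, one_mul]; exact hsum1.le)
    simpa using h1
  refine hup.trans ?_
  have hpp : ∀ i ∈ I, 0 < Q.c i.2 ^ t := fun i _ => Real.rpow_pos_of_pos (Q.pos _) _
  obtain ⟨χc, hχc⟩ : ∃ x : ℝ, x = -∑ i ∈ I, Q.c i.2 ^ t * Real.log (P.c i.1) := ⟨_, rfl⟩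
  obtain ⟨χd, hχd⟩ : ∃ x : ℝ, x = -∑ i ∈ I, Q.c i.2 ^ t * Real.log (Q.c i.2) := ⟨_, rfl⟩
  have hpos : ∀ g : α × β → ℝ, (∀ i, g i < 0) → 0 < -∑ i ∈ I, Q.c i.2 ^ t * g i := by
    intro g hg
    rw [← Finset.sum_neg_distrib]
    apply Finset.sum_pos
    · intro i hi
      have h1 := hpp i hi
      have h2 := hg i
      nlinarith
    · exact ⟨_, hi0⟩
  have hχcp : 0 < χc := by
    rw [hχc]; exact hpos (fun i => Real.log (P.c i.1)) (fun i => Real.log_neg (P.pos _) (P.lt_one _))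
  have hχdp : 0 < χd := by
    rw [hχd]; exact hpos (fun i => Real.log (Q.c i.2)) (fun i => Real.log_neg (Q.pos _) (Q.lt_one _))
  have hent : -∑ i ∈ I, Q.c i.2 ^ t * Real.log (Q.c i.2 ^ t) = t * χd := by
    rw [hχd, mul_neg, Finset.mul_sum]
    congr 1
    apply Finset.sum_congr rfl
    intro i _
    rw [Real.log_rpow (Q.pos _)]
    ring
  rcases le_or_gt χd χc with hle | hlt
  · have h1 := hH P Q I o o' F h (fun i => Q.c i.2 ^ t) hpp hsum1 χc χd (t * χd) (t * χd) hχc hχd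
      hent.symm (by
        rw [← hent, hsumI (fun j => Q.c j ^ t * Real.log (Q.c j ^ t))]
        congr 1
        apply Finset.sum_congr rfl
        intro j hj
        rw [hrow j hj, Finset.sum_singleton]) hle
    rw [sub_self, zero_div, add_zero, mul_div_cancel_right₀ _ hχdp.ne'] at h1
    exact h1
  · have h1 := hH Q P (swapI I) o' o F h.swap (fun i => Q.c i.1 ^ t)
      (fun i hi => hpp (i.2, i.1) (mem_swapI.1 hi)) (by rw [sum_swapI]; exact hsum1) χd χc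
      (t * χd) 0 (by rw [sum_swapI]; exact hχd) (by rw [sum_swapI]; exact hχc)
      (by rw [sum_swapI]; exact hent.symm) (by
        rw [usedRows_swapI, hcols, Finset.sum_singleton]
        have h2 : rowCells (swapI I) k0 = usedRows I := by
          ext j
          rw [mem_rowCells, mem_swapI, mem_usedRows]
          constructor
          · intro hj; exact ⟨k0, hj⟩
          · rintro ⟨k, hkj⟩
            have : k = k0 := hk _ hkj
            subst this
            exact hkj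
        simp only
        rw [h2, htsum]
        simp) hlt.le
    rw [zero_div, zero_add, sub_zero, mul_div_cancel_right₀ _ hχdp.ne'] at h1
    exact h1

omit [Fintype β] in
theorem rowCells_nonempty {I : Finset (α × β)} {j : β} (hj : j ∈ usedRows I) :
    (rowCells I j).Nonempty := by
  obtain ⟨k, hk⟩ := mem_usedRows.1 hj
  exact ⟨k, mem_rowCells.2 hk⟩

/-- (L) gives the lower bounds of the row sums -/
theorem row_ge (hL : S_L) (P : Side α) (Q : Side β) (I : Finset (α × β)) (o o' : Fin 2)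
    (F : Set Plane) (h : Attr P Q I o o' F) (hmix : ∃ i ∈ I, P.c i.1 < Q.c i.2)
    (hcol : ∃ i ∈ I, ∃ i' ∈ I, i.1 ≠ i'.1) (hrow : ∃ i ∈ I, ∃ i' ∈ I, i.2 ≠ i'.2)
    (σ t : ℝ) (ht : 0 ≤ t) (hσ : ENNReal.ofReal σ ≤ lowerDim F)
    (hr : ∑ j ∈ usedRows I, Q.c j ^ t = 1) :
    ∀ j ∈ usedRows I, 1 ≤ ∑ k ∈ rowCells I j, P.c k ^ (σ - t) := by
  intro j hj
  obtain ⟨v, hv0, hv⟩ := exists_expo P (rowCells I j) (rowCells_nonempty hj)
  have h1 := hσ.trans (hL P Q I o o' F h hmix hcol hrow j v t hv0 ht hv hr)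
  have h2 : σ ≤ t + v := (ENNReal.ofReal_le_ofReal_iff (by linarith)).1 h1
  rw [← hv]
  apply Finset.sum_le_sum
  intro k _
  apply Real.rpow_le_rpow_of_exponent_ge (P.pos k) (P.lt_one k).le
  linarith

theorem T2 (hU : S_U) (hL : S_L) (hH : S_H) : S_T2 := by
  intro α β _ _ _ _ P Q I o o' F h hmix hmix' hle
  have hI : I.Nonempty := by
    obtain ⟨i, hi, -⟩ := hmix
    exact ⟨i, hi⟩
  by_cases hcol : ∃ i ∈ I, ∃ i' ∈ I, i.1 ≠ i'.1
  swap
  · exact degenerate hU hH P Q I o o' F h hI hcol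
  by_cases hrow : ∃ i ∈ I, ∃ i' ∈ I, i.2 ≠ i'.2
  swap
  · apply degenerate hU hH Q P (swapI I) o' o F h.swap
    · obtain ⟨i, hi⟩ := hI
      exact ⟨(i.2, i.1), mem_swapI.2 hi⟩
    · rintro ⟨i, hi, i', hi', hne⟩
      exact hrow ⟨_, mem_swapI.1 hi, _, mem_swapI.1 hi', hne⟩
  obtain ⟨i0, hi0⟩ := hI
  obtain ⟨t1, ht1, hc⟩ := exists_expo P (usedCols I) ⟨i0.1, mem_usedCols.2 ⟨i0.2, hi0⟩⟩
  obtain ⟨t2, ht2, hr⟩ := exists_expo Q (usedRows I) ⟨i0.2, mem_usedRows.2 ⟨i0.1, hi0⟩⟩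
  have hmixs : ∃ i ∈ swapI I, Q.c i.1 < P.c i.2 := by
    obtain ⟨i, hi, hlt⟩ := hmix'
    exact ⟨(i.2, i.1), mem_swapI.2 hi, hlt⟩
  have hcols : ∃ i ∈ swapI I, ∃ i' ∈ swapI I, i.1 ≠ i'.1 := by
    obtain ⟨i, hi, i', hi', hne⟩ := hrow
    exact ⟨(i.2, i.1), mem_swapI.2 hi, (i'.2, i'.1), mem_swapI.2 hi', hne⟩
  have hrows : ∃ i ∈ swapI I, ∃ i' ∈ swapI I, i.2 ≠ i'.2 := by
    obtain ⟨i, hi, i', hi', hne⟩ := hcol
    exact ⟨(i.2, i.1), mem_swapI.2 hi, (i'.2, i'.1), mem_swapI.2 hi', hne⟩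
  -- finiteness
  obtain ⟨v0, hv0, hv0s⟩ := exists_expo P (rowCells I i0.2)
    (rowCells_nonempty (mem_usedRows.2 ⟨i0.1, hi0⟩))
  have hfin : dimH F ≤ ENNReal.ofReal (t2 + v0) :=
    hle.trans (hL P Q I o o' F h hmix hcol hrow i0.2 v0 t2 hv0 ht2 hv0s hr)
  obtain ⟨σ, hσ0, hσ⟩ : ∃ σ : ℝ, 0 ≤ σ ∧ dimH F = ENNReal.ofReal σ := by
    refine ⟨(dimH F).toReal, ENNReal.toReal_nonneg, ?_⟩
    rw [ENNReal.ofReal_toReal]
    exact ne_top_of_le_ne_top ENNReal.ofReal_ne_top hfin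
  have hσL : ENNReal.ofReal σ ≤ lowerDim F := by rw [← hσ]; exact hle
  have hv := row_ge hL P Q I o o' F h hmix hcol hrow σ t2 ht2 hσL hr
  have hu := row_ge hL Q P (swapI I) o' o F h.swap hmixs hcols hrows σ t1 ht1 hσL
    (by rw [usedRows_swapI]; exact hc)
  rw [usedRows_swapI] at hu
  obtain ⟨k1, k2⟩ := core P Q I ⟨i0, hi0⟩ σ t1 t2 (hd_of_H hH P Q I o o' F h σ hσ0 hσ.le)
    (hd_of_H hH Q P (swapI I) o' o F h.swap σ hσ0 hσ.le) hc hr hv hu
  have hnn : ∀ {γ : Type} (S : Side γ) (U : Finset γ) (x : ℝ), U.Nonempty →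
      ∑ k ∈ U, S.c k ^ x = 1 → 0 ≤ x := by
    intro γ S U x hUne hs
    by_contra hneg
    push Not at hneg
    obtain ⟨k, hk⟩ := hUne
    have h1 : 1 < S.c k ^ x := Real.one_lt_rpow_of_pos_of_lt_one_of_neg (S.pos k) (S.lt_one k) hneg
    have h2 : S.c k ^ x ≤ ∑ k ∈ U, S.c k ^ x :=
      Finset.single_le_sum (f := fun k => S.c k ^ x)
        (fun k _ => Real.rpow_nonneg (S.pos k).le _) hk
    linarith
  have hs2 : 0 ≤ σ - t2 := hnn P _ _ (rowCells_nonempty (mem_usedRows.2 ⟨i0.1, hi0⟩))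
    (k1 i0.2 (mem_usedRows.2 ⟨i0.1, hi0⟩))
  have hs1 : 0 ≤ σ - t1 := hnn Q _ _ (rowCells_nonempty
    (by rw [usedRows_swapI]; exact mem_usedCols.2 ⟨i0.2, hi0⟩))
    (k2 i0.1 (mem_usedCols.2 ⟨i0.2, hi0⟩))
  have hfinal := hU P Q I o o' F h t1 t2 σ σ ht1 ht2 (by linarith) (by linarith) hc.le hr.le
    (by
      have h1 := sum_swapI I (fun i => P.c i.2 ^ t1 * Q.c i.1 ^ (σ - t1))
      simp only at h1
      rw [← h1, sum_rows, usedRows_swapI, ← hc]
      apply Finset.sum_le_sum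
      intro k hk
      simp only
      rw [← Finset.mul_sum, k2 k hk, mul_one])
    (by
      rw [sum_rows, ← hr]
      apply Finset.sum_le_sum
      intro j hj
      simp only
      rw [← Finset.sum_mul, k1 j hj, one_mul])
  rw [hσ]
  simpa using hfinal

end Pool.Agent.H891.Carp
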