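import Pool.Agent.H891.Carpet.Stm2

/-!
The analytic core of T2.
-/

namespace Pool.Agent.H891.Carp

open Set MeasureTheory Filter Topology
open scoped ENNReal NNReal

variable {α β : Type} [Fintype α] [Fintype β] [DecidableEq α] [DecidableEq β]

omit [Fintype β] in
theorem sum_rows (I : Finset (α × β)) (f : α × β → ℝ) :
    ∑ i ∈ I, f i = ∑ j ∈ usedRows I, ∑ k ∈ rowCells I j, f (k, j) := by
  rw [← Finset.sum_fiberwise_of_maps_to (g := Prod.snd) (t := usedRows I)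
    (fun i hi => Finset.mem_image_of_mem _ hi)]
  apply Finset.sum_congr rfl
  intro j _
  symm
  apply Finset.sum_bij (fun k _ => (k, j))
  · intro k hk
    exact Finset.mem_filter.2 ⟨mem_rowCells.1 hk, rfl⟩
  · intro a _ b _ hab
    exact (Prod.mk.inj hab).1
  · rintro ⟨a, b⟩ hb
    obtain ⟨h1, h2⟩ := Finset.mem_filter.1 hb
    simp only at h2
    subst h2
    exact ⟨a, mem_rowCells.2 h1, rfl⟩
  · intro k _; rfl

omit [Fintype α] [Fintype β] in
theorem sum_swapI (I : Finset (α × β)) (f : β × α → ℝ) :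
    ∑ i ∈ swapI I, f i = ∑ i ∈ I, f (i.2, i.1) := by
  rw [swapI, Finset.sum_image]
  · rfl
  · rintro ⟨a, b⟩ _ ⟨c, d⟩ _ h
    simpa [and_comm] using h

omit [Fintype α] [Fintype β] in
theorem usedRows_swapI (I : Finset (α × β)) : usedRows (swapI I) = usedCols I := by
  ext k
  simp [mem_usedRows, mem_usedCols, mem_swapI]

omit [Fintype α] [Fintype β] in
theorem usedCols_swapI (I : Finset (α × β)) : usedCols (swapI I) = usedRows I := by
  ext k
  simp [mem_usedRows, mem_usedCols, mem_swapI]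

/-- D(p) is at most sigma for all p in region 2. -/
def HD (P : Side α) (Q : Side β) (I : Finset (α × β)) (σ : ℝ) : Prop :=
  ∀ p : α × β → ℝ, (∀ i ∈ I, 0 < p i) → ∑ i ∈ I, p i = 1 →
  ∀ χc χd h h2 : ℝ, χc = -∑ i ∈ I, p i * Real.log (P.c i.1) →
  χd = -∑ i ∈ I, p i * Real.log (Q.c i.2) → h = -∑ i ∈ I, p i * Real.log (p i) →
  h2 = -∑ j ∈ usedRows I, (∑ k ∈ rowCells I j, p (k, j)) *
      Real.log (∑ k ∈ rowCells I j, p (k, j)) →
  χd ≤ χc → h2 / χd + (h - h2) / χc ≤ σ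

omit [Fintype β] in
/-- stationary points give too large a dimension -/
theorem no_stationary (P : Side α) (Q : Side β) (I : Finset (α × β)) (σ t2 : ℝ)
    (hD : HD P Q I σ) (hr : ∑ j ∈ usedRows I, Q.c j ^ t2 = 1)
    (hv : ∀ j ∈ usedRows I, 1 ≤ ∑ k ∈ rowCells I j, P.c k ^ (σ - t2))
    (hex : ∃ j ∈ usedRows I, 1 < ∑ k ∈ rowCells I j, P.c k ^ (σ - t2))
    (ρ : ℝ) (hρ0 : 0 < ρ) (hρ1 : ρ ≤ 1)
    (hst : ∑ j ∈ usedRows I, Q.c j ^ t2 * (∑ k ∈ rowCells I j, P.c k ^ (σ - t2)) ^ ρ *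
      (-Real.log (Q.c j) + ρ * (∑ k ∈ rowCells I j, P.c k ^ (σ - t2) /
        (∑ k ∈ rowCells I j, P.c k ^ (σ - t2)) * Real.log (P.c k))) = 0) : False := by
  classical
  obtain ⟨Φ, hΦ⟩ : ∃ Φ : β → ℝ, Φ = fun j => ∑ k ∈ rowCells I j, P.c k ^ (σ - t2) := ⟨_, rfl⟩
  have hΦj : ∀ j, ∑ k ∈ rowCells I j, P.c k ^ (σ - t2) = Φ j := fun j => by rw [hΦ]
  simp only [hΦj] at hv hex hst
  have hΦp : ∀ j ∈ usedRows I, 0 < Φ j := fun j hj => lt_of_lt_of_le one_pos (hv j hj)
  obtain ⟨Z, hZ⟩ : ∃ Z : ℝ, Z = ∑ j ∈ usedRows I, Q.c j ^ t2 * Φ j ^ ρ := ⟨_, rfl⟩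
  have hZ1 : 1 < Z := by
    rw [hZ, ← hr]
    obtain ⟨j0, hj0, hj0'⟩ := hex
    apply Finset.sum_lt_sum
    · intro j hj
      have h1 : 1 ≤ Φ j ^ ρ := Real.one_le_rpow (hv j hj) hρ0.le
      have h2 : 0 < Q.c j ^ t2 := Real.rpow_pos_of_pos (Q.pos j) _
      nlinarith
    · refine ⟨j0, hj0, ?_⟩
      have h1 : 1 < Φ j0 ^ ρ := Real.one_lt_rpow hj0' hρ0
      have h2 : 0 < Q.c j0 ^ t2 := Real.rpow_pos_of_pos (Q.pos j0) _
      nlinarith
  have hZp : 0 < Z := by linarith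
  obtain ⟨q, hq⟩ : ∃ q : β → ℝ, q = fun j => Q.c j ^ t2 * Φ j ^ ρ / Z := ⟨_, rfl⟩
  have hqj : ∀ j, q j = Q.c j ^ t2 * Φ j ^ ρ / Z := fun j => by rw [hq]
  have hqp : ∀ j ∈ usedRows I, 0 < q j := by
    intro j hj
    rw [hqj]
    have h1 := hΦp j hj
    have h2 := Q.pos j
    positivity
  have hqs : ∑ j ∈ usedRows I, q j = 1 := by
    simp only [hqj]
    rw [← Finset.sum_div, ← hZ, div_self hZp.ne']
  obtain ⟨p, hp⟩ : ∃ p : α × β → ℝ, p = fun i => q i.2 * (P.c i.1 ^ (σ - t2) / Φ i.2) := ⟨_, rfl⟩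
  have hpi : ∀ k j, p (k, j) = q j * (P.c k ^ (σ - t2) / Φ j) := fun k j => by rw [hp]
  have hpp : ∀ i ∈ I, 0 < p i := by
    rintro ⟨k, j⟩ hi
    have hj : j ∈ usedRows I := mem_usedRows.2 ⟨k, hi⟩
    rw [hpi]
    have h1 := hΦp j hj
    have h2 := hqp j hj
    have h3 := P.pos k
    positivity
  have hmarg : ∀ j ∈ usedRows I, ∑ k ∈ rowCells I j, p (k, j) = q j := by
    intro j hj
    simp only [hpi]
    rw [← Finset.mul_sum, ← Finset.sum_div, hΦj, div_self (hΦp j hj).ne', mul_one]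
  have hsum : ∑ i ∈ I, p i = 1 := by
    rw [sum_rows, Finset.sum_congr rfl hmarg, hqs]
  -- the four quantities
  obtain ⟨χc, hχc⟩ : ∃ x : ℝ, x = -∑ i ∈ I, p i * Real.log (P.c i.1) := ⟨_, rfl⟩
  obtain ⟨χd, hχd⟩ : ∃ x : ℝ, x = -∑ i ∈ I, p i * Real.log (Q.c i.2) := ⟨_, rfl⟩
  obtain ⟨hh, hhh⟩ : ∃ x : ℝ, x = -∑ i ∈ I, p i * Real.log (p i) := ⟨_, rfl⟩
  obtain ⟨h2, hh2⟩ : ∃ x : ℝ, x = -∑ j ∈ usedRows I, (∑ k ∈ rowCells I j, p (k, j)) *
      Real.log (∑ k ∈ rowCells I j, p (k, j)) := ⟨_, rfl⟩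
  obtain ⟨S, hS⟩ : ∃ S : ℝ, S = ∑ j ∈ usedRows I, q j * Real.log (Φ j) := ⟨_, rfl⟩
  have hχd' : χd = -∑ j ∈ usedRows I, q j * Real.log (Q.c j) := by
    rw [hχd, sum_rows]
    congr 1
    apply Finset.sum_congr rfl
    intro j hj
    simp only
    rw [← Finset.sum_mul, hmarg j hj]
  have hχc' : χc = -∑ j ∈ usedRows I, q j * (∑ k ∈ rowCells I j,
      P.c k ^ (σ - t2) / Φ j * Real.log (P.c k)) := by
    rw [hχc, sum_rows]
    congr 1
    apply Finset.sum_congr rfl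
    intro j _
    rw [Finset.mul_sum]
    apply Finset.sum_congr rfl
    intro k _
    rw [hpi]
    ring
  have hrel : χd = ρ * χc := by
    have h1 : ∑ j ∈ usedRows I, q j * (-Real.log (Q.c j) + ρ * (∑ k ∈ rowCells I j,
        P.c k ^ (σ - t2) / Φ j * Real.log (P.c k))) = 0 := by
      have h3 : ∑ j ∈ usedRows I, q j * (-Real.log (Q.c j) + ρ * (∑ k ∈ rowCells I j,
        P.c k ^ (σ - t2) / Φ j * Real.log (P.c k))) =
        (∑ j ∈ usedRows I, Q.c j ^ t2 * Φ j ^ ρ * (-Real.log (Q.c j) + ρ *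
          (∑ k ∈ rowCells I j, P.c k ^ (σ - t2) / Φ j * Real.log (P.c k)))) / Z := by
        rw [Finset.sum_div]
        apply Finset.sum_congr rfl
        intro j _
        rw [hqj]
        ring
      rw [h3, hst, zero_div]
    have h2' : ∑ j ∈ usedRows I, q j * (-Real.log (Q.c j) + ρ * (∑ k ∈ rowCells I j,
        P.c k ^ (σ - t2) / Φ j * Real.log (P.c k))) = χd - ρ * χc := by
      rw [hχd', hχc', mul_neg, sub_neg_eq_add, Finset.mul_sum, ← Finset.sum_neg_distrib,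
        ← Finset.sum_add_distrib]
      apply Finset.sum_congr rfl
      intro j _
      ring
    linarith
  have hχcp : 0 < χc := by
    rw [hχc, ← Finset.sum_neg_distrib]
    apply Finset.sum_pos
    · intro i hi
      have h1 := hpp i hi
      have h2 := Real.log_neg (P.pos i.1) (P.lt_one i.1)
      nlinarith
    · by_contra hne
      rw [Finset.not_nonempty_iff_eq_empty] at hne
      rw [hne] at hsum
      simp at hsum
  have hχdp : 0 < χd := by rw [hrel]; positivity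
  have hle : χd ≤ χc := by rw [hrel]; nlinarith
  have e1 : h2 = t2 * χd - ρ * S + Real.log Z := by
    rw [hh2]
    have h3 : ∀ j ∈ usedRows I, (∑ k ∈ rowCells I j, p (k, j)) *
        Real.log (∑ k ∈ rowCells I j, p (k, j)) =
        t2 * (q j * Real.log (Q.c j)) + ρ * (q j * Real.log (Φ j)) - q j * Real.log Z := by
      intro j hj
      rw [hmarg j hj]
      have h4 : Real.log (q j) = t2 * Real.log (Q.c j) + ρ * Real.log (Φ j) - Real.log Z := by
        have h5 := hΦp j hj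
        have h6 := Q.pos j
        rw [hqj, Real.log_div (by positivity) hZp.ne', Real.log_mul (by positivity) (by positivity),
          Real.log_rpow h6, Real.log_rpow h5]
      rw [h4]
      ring
    rw [Finset.sum_congr rfl h3, Finset.sum_sub_distrib, Finset.sum_add_distrib,
      ← Finset.mul_sum, ← Finset.mul_sum, ← Finset.sum_mul, hqs, ← hS, hχd']
    ring
  have e2 : hh - h2 = (σ - t2) * χc + S := by
    have h3 : ∀ j ∈ usedRows I, ∑ k ∈ rowCells I j, p (k, j) * Real.log (p (k, j)) =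
        q j * Real.log (q j) + (σ - t2) * (q j * (∑ k ∈ rowCells I j,
          P.c k ^ (σ - t2) / Φ j * Real.log (P.c k))) - q j * Real.log (Φ j) := by
      intro j hj
      have h4 : ∀ k ∈ rowCells I j, p (k, j) * Real.log (p (k, j)) =
          p (k, j) * (Real.log (q j) - Real.log (Φ j)) +
          (σ - t2) * (q j * (P.c k ^ (σ - t2) / Φ j * Real.log (P.c k))) := by
        intro k hk
        have h5 := hΦp j hj
        have h6 := P.pos k
        have h7 := hqp j hj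
        have h8 : Real.log (p (k, j)) = Real.log (q j) + ((σ - t2) * Real.log (P.c k) -
            Real.log (Φ j)) := by
          rw [hpi, Real.log_mul h7.ne' (by positivity), Real.log_div (by positivity) h5.ne',
            Real.log_rpow h6]
        rw [h8, hpi]
        ring
      rw [Finset.sum_congr rfl h4, Finset.sum_add_distrib, ← Finset.sum_mul, hmarg j hj,
        ← Finset.mul_sum, ← Finset.mul_sum]
      ring
    have h5 : ∑ i ∈ I, p i * Real.log (p i) = ∑ j ∈ usedRows I, q j * Real.log (q j) +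
        (σ - t2) * ∑ j ∈ usedRows I, q j * (∑ k ∈ rowCells I j,
          P.c k ^ (σ - t2) / Φ j * Real.log (P.c k)) - S := by
      rw [sum_rows, Finset.sum_congr rfl h3, Finset.sum_sub_distrib, Finset.sum_add_distrib,
        ← Finset.mul_sum, hS]
    have h6 : h2 = -∑ j ∈ usedRows I, q j * Real.log (q j) := by
      rw [hh2]
      congr 1
      apply Finset.sum_congr rfl
      intro j hj
      rw [hmarg j hj]
    rw [hhh, h5, h6, hχc']
    ring
  have hfin := hD p hpp hsum χc χd hh h2 hχc hχd hhh hh2 hle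
  rw [e2] at hfin
  have h7 : h2 / χd + ((σ - t2) * χc + S) / χc = σ + Real.log Z / χd := by
    rw [e1, hrel]
    field_simp
    ring
  rw [h7] at hfin
  have h8 : 0 < Real.log Z / χd := div_pos (Real.log_pos hZ1) hχdp
  linarith

omit [Fintype β] in
/-- CLAIM X: the derivative at g0 is positive. -/
theorem deriv_pos (P : Side α) (Q : Side β) (I : Finset (α × β)) (σ t2 : ℝ)
    (hD : HD P Q I σ) (hr : ∑ j ∈ usedRows I, Q.c j ^ t2 = 1)
    (hv : ∀ j ∈ usedRows I, 1 ≤ ∑ k ∈ rowCells I j, P.c k ^ (σ - t2))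
    (hex : ∃ j ∈ usedRows I, 1 < ∑ k ∈ rowCells I j, P.c k ^ (σ - t2)) :
    0 < ∑ i ∈ I, P.c i.1 ^ (σ - t2) * Q.c i.2 ^ t2 *
      (Real.log (P.c i.1) - Real.log (Q.c i.2)) := by
  classical
  have hΦp : ∀ j ∈ usedRows I, 0 < ∑ k ∈ rowCells I j, P.c k ^ (σ - t2) :=
    fun j hj => lt_of_lt_of_le one_pos (hv j hj)
  obtain ⟨φ, hφ⟩ : ∃ φ : ℝ → ℝ, φ = fun ρ => ∑ j ∈ usedRows I, Q.c j ^ t2 *
      (∑ k ∈ rowCells I j, P.c k ^ (σ - t2)) ^ ρ *
      (-Real.log (Q.c j) + ρ * (∑ k ∈ rowCells I j, P.c k ^ (σ - t2) /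
        (∑ k ∈ rowCells I j, P.c k ^ (σ - t2)) * Real.log (P.c k))) := ⟨_, rfl⟩
  have h1 : φ 1 = ∑ i ∈ I, P.c i.1 ^ (σ - t2) * Q.c i.2 ^ t2 *
      (Real.log (P.c i.1) - Real.log (Q.c i.2)) := by
    rw [hφ, sum_rows]
    apply Finset.sum_congr rfl
    intro j hj
    have h2 := (hΦp j hj).ne'
    have h3 : ∑ k ∈ rowCells I j, P.c k ^ (σ - t2) /
        (∑ k ∈ rowCells I j, P.c k ^ (σ - t2)) * Real.log (P.c k) =
        (∑ k ∈ rowCells I j, P.c k ^ (σ - t2) * Real.log (P.c k)) /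
          (∑ k ∈ rowCells I j, P.c k ^ (σ - t2)) := by
      rw [Finset.sum_div]
      apply Finset.sum_congr rfl
      intro k _
      ring
    rw [h3, Real.rpow_one, one_mul]
    have h4 : Q.c j ^ t2 * (∑ k ∈ rowCells I j, P.c k ^ (σ - t2)) *
        (-Real.log (Q.c j) + (∑ k ∈ rowCells I j, P.c k ^ (σ - t2) * Real.log (P.c k)) /
          (∑ k ∈ rowCells I j, P.c k ^ (σ - t2))) =
        Q.c j ^ t2 * (-(∑ k ∈ rowCells I j, P.c k ^ (σ - t2)) * Real.log (Q.c j) +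
          (∑ k ∈ rowCells I j, P.c k ^ (σ - t2) * Real.log (P.c k))) := by
      field_simp
    rw [h4, neg_mul, Finset.sum_mul, ← Finset.sum_neg_distrib, ← Finset.sum_add_distrib,
      Finset.mul_sum]
    apply Finset.sum_congr rfl
    intro k _
    simp only
    ring
  have h0 : 0 < φ 0 := by
    rw [hφ]
    obtain ⟨j0, hj0, -⟩ := hex
    apply Finset.sum_pos
    · intro j _
      have h2 := Real.log_neg (Q.pos j) (Q.lt_one j)
      have h3 := Real.rpow_pos_of_pos (Q.pos j) t2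
      simp only [Real.rpow_zero, mul_one, zero_mul, add_zero]
      nlinarith
    · exact ⟨j0, hj0⟩
  rw [← h1]
  by_contra hneg
  push Not at hneg
  have hcont : ContinuousOn φ (Icc 0 1) := by
    rw [hφ]
    apply continuousOn_finset_sum
    intro j hj
    apply ContinuousOn.mul
    · apply ContinuousOn.mul continuousOn_const
      apply Continuous.continuousOn
      exact Real.continuous_const_rpow (hΦp j hj).ne'
    · fun_prop
  obtain ⟨ρ, hρ, hρ0⟩ := intermediate_value_Icc' zero_le_one hcont ⟨hneg, h0.le⟩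
  have hρp : 0 < ρ := by
    rcases hρ.1.eq_or_lt with h | h
    · rw [← h] at hρ0
      linarith
    · exact h
  rw [hφ] at hρ0
  exact no_stationary P Q I σ t2 hD hr hv hex ρ hρp hρ.2 hρ0

end Pool.Agent.H891.Carp
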