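import Pool.Agent.H891.Carpet.Bridge
import Pool.Agent.H891.Carpet.Stm

/-!
(T3): the example of the ordering (c).
-/

namespace Pool.Agent.H891.Carp

open Set MeasureTheory Filter Topology
open scoped ENNReal NNReal

/-- the cells of the example -/
def exI : Finset (Fin 2 × Fin 4) := {(0, 0), (0, 1), (1, 0), (1, 2)}

theorem exI_sum (f : Fin 2 × Fin 4 → ℝ) :
    ∑ i ∈ exI, f i = f (0, 0) + f (0, 1) + f (1, 0) + f (1, 2) := by
  rw [exI, Finset.sum_insert (by decide), Finset.sum_insert (by decide),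
    Finset.sum_insert (by decide), Finset.sum_singleton]
  ring

theorem exI_swap_sum (f : Fin 4 × Fin 2 → ℝ) :
    ∑ i ∈ swapI exI, f i = f (0, 0) + f (1, 0) + f (0, 1) + f (2, 1) := by
  have : swapI exI = {(0, 0), (1, 0), (0, 1), (2, 1)} := by decide
  rw [this, Finset.sum_insert (by decide), Finset.sum_insert (by decide),
    Finset.sum_insert (by decide), Finset.sum_singleton]
  ring

/-- log 3 / log 4 -/
noncomputable def exT : ℝ := Real.log 3 / Real.log 4

theorem log4_pos : 0 < Real.log 4 := Real.log_pos (by norm_num)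

theorem log4_eq : Real.log 4 = 2 * Real.log 2 := by
  have : (4 : ℝ) = 2 ^ (2 : ℕ) := by norm_num
  rw [this, Real.log_pow]; norm_num

theorem exT_lt : exT < 1 := by
  rw [exT, div_lt_one log4_pos]
  exact Real.log_lt_log (by norm_num) (by norm_num)

theorem exT_gt : 1 / 2 < exT := by
  rw [exT, lt_div_iff₀ log4_pos, log4_eq]
  have := Real.log_lt_log (x := 2) (y := 3) (by norm_num) (by norm_num)
  linarith

theorem exT_pow : (1 / 4 : ℝ) ^ exT = 1 / 3 := by
  rw [Real.rpow_def_of_pos (by norm_num), one_div, Real.log_inv, exT]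
  have : -Real.log 4 * (Real.log 3 / Real.log 4) = -Real.log 3 := by
    field_simp [log4_pos.ne']
  rw [this, Real.exp_neg, Real.exp_log (by norm_num)]
  norm_num

theorem ex_core (hU : S_U) (hA : S_A) (hL : S_L) (hH : S_H) (hB : S_B)
    (P : Side (Fin 2)) (Q : Side (Fin 4)) (h0 : P.c 0 = 4 / 5) (h1 : P.c 1 = 1 / 5)
    (hQ : ∀ j, Q.c j = 1 / 4) (F : Set Plane) (h : Attr P Q exI 0 1 F) :
    lowerDim F < dimH F ∧ dimH F = upperBoxDim F ∧ lowerBoxDim F = upperBoxDim F ∧
      upperBoxDim F < assouadDim F := by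
  have hT := exT_pow
  have hT1 := exT_lt
  have hT2 := exT_gt
  have hT0 : 0 ≤ exT := by linarith
  have hhalf : (1 / 4 : ℝ) ^ (1 / 2 : ℝ) = 1 / 2 := by
    rw [← Real.sqrt_eq_rpow, show (1 / 4 : ℝ) = (1 / 2) ^ 2 by norm_num,
      Real.sqrt_sq (by norm_num)]
  have uc : usedCols exI = {0, 1} := by decide
  have ur : usedRows exI = {0, 1, 2} := by decide
  have rc0 : rowCells exI 0 = {0, 1} := by decide
  have rc1 : rowCells exI 1 = {0} := by decide
  have hrows : ∑ j ∈ usedRows exI, Q.c j ^ exT = 1 := by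
    rw [ur, Finset.sum_insert (by decide), Finset.sum_insert (by decide), Finset.sum_singleton,
      hQ, hQ, hQ, hT]
    norm_num
  -- upper bound
  have hup : upperBoxDim F ≤ ENNReal.ofReal (3 / 2) := by
    have := hU P Q exI 0 1 F h 1 exT (3 / 2) (3 / 2) (by norm_num) hT0 (by norm_num)
      (by linarith) ?_ hrows.le ?_ ?_
    · simpa using this
    · rw [uc, Finset.sum_insert (by decide), Finset.sum_singleton, h0, h1]
      norm_num
    · rw [exI_sum]
      simp only [h0, h1, hQ, Real.rpow_one]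
      rw [show (3 / 2 - 1 : ℝ) = 1 / 2 by norm_num, hhalf]
      norm_num
    · rw [exI_sum]
      simp only [h0, h1, hQ, hT]
      have e1 : (4 / 5 : ℝ) ^ (3 / 2 - exT) ≤ 1 :=
        Real.rpow_le_one (by norm_num) (by norm_num) (by linarith)
      have e2 : (1 / 5 : ℝ) ^ (3 / 2 - exT) ≤ 1 / 2 := by
        calc (1 / 5 : ℝ) ^ (3 / 2 - exT) ≤ (1 / 5 : ℝ) ^ (1 / 2 : ℝ) :=
              Real.rpow_le_rpow_of_exponent_ge (by norm_num) (by norm_num) (by linarith)
          _ ≤ (1 / 4 : ℝ) ^ (1 / 2 : ℝ) :=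
              Real.rpow_le_rpow (by norm_num) (by norm_num) (by norm_num)
          _ = 1 / 2 := hhalf
      linarith
  -- Assouad dimension
  have hass : ENNReal.ofReal (exT + 1) ≤ assouadDim F := by
    refine hA P Q exI 0 1 F h ⟨(1, 0), by decide, ?_⟩ 0 1 exT (by norm_num) hT0 ?_ hrows
    · rw [h1, hQ]; norm_num
    · rw [rc0, Finset.sum_insert (by decide), Finset.sum_singleton, h0, h1]
      norm_num
  -- lower dimension
  have hlow : lowerDim F ≤ ENNReal.ofReal (exT + 0) := by
    refine hL P Q exI 0 1 F h ⟨(1, 0), by decide, ?_⟩ ⟨(0, 0), by decide, (1, 0), by decide,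
      by decide⟩ ⟨(0, 0), by decide, (0, 1), by decide, by decide⟩ 1 0 exT le_rfl hT0 ?_ hrows
    · rw [h1, hQ]; norm_num
    · rw [rc1, Finset.sum_singleton, Real.rpow_zero]
  -- Hausdorff dimension
  have hhaus : ENNReal.ofReal (3 / 2) ≤ dimH F := by
    set p : Fin 4 × Fin 2 → ℝ := fun i => P.c i.2 / 2 with hp
    set e : ℝ := -(4 / 5 * Real.log (4 / 5) + 1 / 5 * Real.log (1 / 5)) with he
    have l2 := Real.log_two_gt_d9
    have he1 : 0 < e := by
      have a1 : Real.log (4 / 5) < 0 := Real.log_neg (by norm_num) (by norm_num)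
      have a2 : Real.log (1 / 5) < 0 := Real.log_neg (by norm_num) (by norm_num)
      rw [he]; linarith
    have he2 : e ≤ Real.log 4 := by
      have a1 : -Real.log (4 / 5) ≤ 1 / 4 := by
        have := Real.log_le_sub_one_of_pos (x := 5 / 4) (by norm_num)
        rw [← Real.log_inv]
        norm_num at this ⊢
        linarith
      have a2 : -Real.log (1 / 5) ≤ 3 * Real.log 2 := by
        have : (3 : ℝ) * Real.log 2 = Real.log 8 := by
          rw [show (8 : ℝ) = 2 ^ (3 : ℕ) by norm_num, Real.log_pow]; norm_num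
        rw [this, ← Real.log_inv]
        exact Real.log_le_log (by norm_num) (by norm_num)
      rw [he, log4_eq]
      linarith
    have hlogd : ∀ c : ℝ, 0 < c → Real.log (c / 2) = Real.log c - Real.log 2 := fun c hc =>
      Real.log_div hc.ne' (by norm_num)
    have key := hH Q P (swapI exI) 1 0 F h.swap p (fun i _ => by
        rw [hp]; exact div_pos (P.pos _) (by norm_num)) ?_ (Real.log 4) e (e + Real.log 2) e
      ?_ ?_ ?_ ?_ he2
    · have e3 : e / e + (e + Real.log 2 - e) / Real.log 4 = 3 / 2 := by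
        rw [div_self he1.ne', add_sub_cancel_left, log4_eq]
        have : Real.log 2 ≠ 0 := by linarith
        field_simp
        norm_num
      rwa [e3] at key
    · rw [exI_swap_sum]
      simp only [hp, h0, h1]
      norm_num
    · rw [exI_swap_sum]
      simp only [hp, h0, h1, hQ]
      rw [show (1 / 4 : ℝ) = 4⁻¹ by norm_num, Real.log_inv]
      ring
    · rw [exI_swap_sum, he]
      simp only [hp, h0, h1]
      ring
    · rw [exI_swap_sum, he]
      simp only [hp, h0, h1]
      rw [hlogd _ (by norm_num), hlogd _ (by norm_num)]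
      ring
    · have ur' : usedRows (swapI exI) = {0, 1} := by decide
      have r0 : rowCells (swapI exI) 0 = {0, 1} := by decide
      have r1 : rowCells (swapI exI) 1 = {0, 2} := by decide
      rw [ur', Finset.sum_insert (by decide), Finset.sum_singleton, r0, r1,
        Finset.sum_insert (by decide), Finset.sum_singleton, Finset.sum_insert (by decide),
        Finset.sum_singleton, he]
      simp only [hp, h0, h1]
      norm_num
  have hlb : dimH F ≤ lowerBoxDim F := hB F h.compact.isBounded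
  have hlu : lowerBoxDim F ≤ upperBoxDim F := liminf_le_limsup
  have a1 : upperBoxDim F = ENNReal.ofReal (3 / 2) :=
    le_antisymm hup (hhaus.trans (hlb.trans hlu))
  have a2 : dimH F = ENNReal.ofReal (3 / 2) :=
    le_antisymm (hlb.trans (hlu.trans hup)) hhaus
  have a3 : lowerBoxDim F = ENNReal.ofReal (3 / 2) :=
    le_antisymm (hlu.trans hup) (hhaus.trans hlb)
  rw [a1, a2, a3]
  refine ⟨lt_of_le_of_lt hlow ?_, rfl, rfl, lt_of_lt_of_le ?_ hass⟩
  · rw [ENNReal.ofReal_lt_ofReal_iff (by norm_num)]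
    linarith
  · rw [ENNReal.ofReal_lt_ofReal_iff (by linarith)]
    linarith

/-- the example -/
noncomputable def exQ : Carpet where
  K := 2
  L := 4
  hK := le_rfl
  hL := by norm_num
  x := ![0, 4 / 5, 1]
  y := ![0, 1 / 4, 1 / 2, 3 / 4, 1]
  x_mono := by
    rw [Fin.strictMono_iff_lt_succ]
    intro i
    fin_cases i
    · show (0 : ℝ) < 4 / 5
      norm_num
    · show (4 / 5 : ℝ) < 1
      norm_num
  y_mono := by
    rw [Fin.strictMono_iff_lt_succ]
    intro i
    fin_cases i
    · show (0 : ℝ) < 1 / 4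
      norm_num
    · show (1 / 4 : ℝ) < 1 / 2
      norm_num
    · show (1 / 2 : ℝ) < 3 / 4
      norm_num
    · show (3 / 4 : ℝ) < 1
      norm_num
  x_zero := rfl
  y_zero := rfl
  x_last := rfl
  y_last := rfl
  cells := exI
  two_le := by decide

theorem T3 : S_U → S_A → S_L → S_H → S_B → S_E → S_T3 := by
  intro hU hA hL hH hB hE
  obtain ⟨F, hF⟩ := hE exQ
  have w0 : exQ.width (0 : Fin 2) = 4 / 5 := by
    show (4 / 5 : ℝ) - 0 = 4 / 5
    norm_num
  have w1 : exQ.width (1 : Fin 2) = 1 / 5 := by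
    show (1 : ℝ) - 4 / 5 = 1 / 5
    norm_num
  have hh : ∀ j : Fin 4, exQ.height j = 1 / 4 := by
    intro j
    have e0 : exQ.height (0 : Fin 4) = 1 / 4 := by
      show (1 / 4 : ℝ) - 0 = 1 / 4
      norm_num
    have e1 : exQ.height (1 : Fin 4) = 1 / 4 := by
      show (1 / 2 : ℝ) - 1 / 4 = 1 / 4
      norm_num
    have e2 : exQ.height (2 : Fin 4) = 1 / 4 := by
      show (3 / 4 : ℝ) - 1 / 2 = 1 / 4
      norm_num
    have e3 : exQ.height (3 : Fin 4) = 1 / 4 := by
      show (1 : ℝ) - 3 / 4 = 1 / 4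
      norm_num
    fin_cases j
    exacts [e0, e1, e2, e3]
  refine ⟨exQ, F, hF, ⟨⟨((0 : Fin 2), (0 : Fin 4)), ?_, ?_⟩, ⟨((1 : Fin 2), (0 : Fin 4)), ?_, ?_⟩⟩,
    ex_core hU hA hL hH hB exQ.cols exQ.rows w0 w1 hh F (exQ.attr F hF)⟩
  · show ((0 : Fin 2), (0 : Fin 4)) ∈ exI
    decide
  · show exQ.height (0 : Fin 4) < exQ.width (0 : Fin 2)
    rw [hh, w0]; norm_num
  · show ((1 : Fin 2), (0 : Fin 4)) ∈ exI
    decide
  · show exQ.width (1 : Fin 2) < exQ.height (0 : Fin 4)
    rw [hh, w1]; norm_num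

end Pool.Agent.H891.Carp
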