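import Pool.Agent.H891.Carpet.Stm

/-!
Typical words (exponential Chebyshev inequality) for MP_0a98f6_an.
-/

namespace Pool.Agent.H891.Carp

open Set MeasureTheory Filter Topology Finset

section tail

variable {ι : Type*} (I : Finset ι) (p : ι → ℝ)

/-- the sum of the products over the words of length n -/
theorem sum_words (f : ι → ℝ) (n : ℕ) :
    ∑ w ∈ Fintype.piFinset (fun _ : Fin n => I), ∏ k, f (w k) = (∑ i ∈ I, f i) ^ n := by
  classical
  have h := Finset.prod_univ_sum (fun _ : Fin n => I) (fun _ i => f i)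
  rw [← h, Finset.prod_const, Finset.card_univ, Fintype.card_fin]

theorem exists_exp (hp : ∀ i ∈ I, 0 < p i) (h1 : ∑ i ∈ I, p i = 1) (f : ι → ℝ) {ε : ℝ}
    (hε : 0 < ε) : ∃ t : ℝ, 0 < t ∧
      ∑ i ∈ I, p i * Real.exp (t * (f i - ∑ j ∈ I, p j * f j - ε)) < 1 := by
  set m := ∑ j ∈ I, p j * f j with hm
  set F : ℝ → ℝ := fun t => ∑ i ∈ I, p i * Real.exp (t * (f i - m - ε)) with hF
  have hd : HasDerivAt F (∑ i ∈ I, p i * (Real.exp (0 * (f i - m - ε)) * (1 * (f i - m - ε)))) 0 := by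
    refine HasDerivAt.fun_sum fun i _ => ?_
    exact (((hasDerivAt_id (0 : ℝ)).mul_const _).exp).const_mul _
  have hF0 : F 0 = 1 := by simp [hF, h1]
  have hv : ∑ i ∈ I, p i * (Real.exp (0 * (f i - m - ε)) * (1 * (f i - m - ε))) = -ε := by
    have : ∀ i ∈ I, p i * (Real.exp (0 * (f i - m - ε)) * (1 * (f i - m - ε))) =
        p i * f i - p i * (m + ε) := by
      intro i _
      rw [zero_mul, Real.exp_zero]; ring
    rw [Finset.sum_congr rfl this, Finset.sum_sub_distrib, ← Finset.sum_mul, h1, ← hm]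
    ring
  rw [hv, hasDerivAt_iff_tendsto_slope] at hd
  have h2 : ∀ᶠ t in 𝓝[≠] (0 : ℝ), slope F 0 t < 0 := hd.eventually_lt_const (by linarith)
  have h3 : ∀ᶠ t in 𝓝[>] (0 : ℝ), slope F 0 t < 0 :=
    h2.filter_mono (nhdsWithin_mono _ fun x hx => ne_of_gt hx)
  obtain ⟨t, ht, ht0⟩ := (h3.and self_mem_nhdsWithin).exists
  refine ⟨t, ht0, ?_⟩
  rw [slope_def_field, sub_zero, div_neg_iff] at ht
  have ht0' : (0 : ℝ) < t := ht0
  rcases ht with ht | ht
  · linarith [ht.2]
  · have := ht.1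
    rw [hF0] at this
    simp only [hF] at this
    linarith

theorem tail (hp : ∀ i ∈ I, 0 < p i) (h1 : ∑ i ∈ I, p i = 1) (f : ι → ℝ) {ε δ : ℝ}
    (hε : 0 < ε) (hδ : 0 < δ) : ∀ᶠ n : ℕ in atTop,
      ∑ w ∈ (Fintype.piFinset fun _ : Fin n => I).filter
        (fun w => n * (∑ i ∈ I, p i * f i + ε) < ∑ k, f (w k)), ∏ k, p (w k) ≤ δ := by
  obtain ⟨t, ht, hr⟩ := exists_exp I p hp h1 f hε
  set m := ∑ j ∈ I, p j * f j with hm
  set r := ∑ i ∈ I, p i * Real.exp (t * (f i - m - ε)) with hrdef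
  have hr0 : 0 ≤ r := Finset.sum_nonneg fun i hi => mul_nonneg (hp i hi).le (Real.exp_pos _).le
  have hlim := tendsto_pow_atTop_nhds_zero_of_lt_one hr0 hr
  filter_upwards [hlim.eventually_lt_const hδ] with n hn
  refine le_trans ?_ hn.le
  rw [hrdef, ← sum_words I (fun i => p i * Real.exp (t * (f i - m - ε))) n]
  refine le_trans (Finset.sum_le_sum fun w hw => ?_)
    (Finset.sum_le_sum_of_subset_of_nonneg (Finset.filter_subset _ _) fun w hw _ => ?_)
  · rw [Finset.mem_filter, Fintype.mem_piFinset] at hw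
    rw [Finset.prod_mul_distrib, ← Real.exp_sum]
    have h3 : 0 ≤ ∏ k, p (w k) := Finset.prod_nonneg fun k _ => (hp _ (hw.1 k)).le
    refine le_mul_of_one_le_right h3 (Real.one_le_exp ?_)
    rw [← Finset.mul_sum, Finset.sum_sub_distrib, Finset.sum_sub_distrib, Finset.sum_const,
      Finset.sum_const, Finset.card_univ, Fintype.card_fin, nsmul_eq_mul, nsmul_eq_mul]
    exact mul_nonneg ht.le (by linarith [hw.2])
  · rw [Fintype.mem_piFinset] at hw
    exact Finset.prod_nonneg fun k _ => mul_nonneg (hp _ (hw k)).le (Real.exp_pos _).le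

end tail

section gen

variable {ι β : Type*} [Fintype ι] [DecidableEq ι] [Fintype β] [DecidableEq β]

/-- The general form. -/
theorem typical (I : Finset ι) (p : ι → ℝ) (hp : ∀ i ∈ I, 0 < p i) (h1 : ∑ i ∈ I, p i = 1)
    (r : ι → β) (q : β → ℝ) (hq : ∀ j, q j = ∑ i ∈ I.filter (fun i => r i = j), p i)
    (f g : ι → ℝ) (h h2 : ℝ) (hh : h = -∑ i ∈ I, p i * Real.log (p i))
    (hh2 : h2 = -∑ i ∈ I, p i * Real.log (q (r i))) {ε : ℝ} (hε : 0 < ε) :
    ∀ᶠ n : ℕ in atTop, ∃ (Y : Finset (Fin n → β)) (W : Finset (Fin n → ι)),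
      (∀ w ∈ W, ∀ i, w i ∈ I) ∧
      Real.exp (n * (h2 - ε)) ≤ Y.card ∧
      (∀ y ∈ Y, Real.exp (n * (h - h2 - ε)) ≤ (W.filter (fun w => (fun i => r (w i)) = y)).card) ∧
      (∀ w ∈ W, ∑ k, f (w k) ≤ n * (∑ i ∈ I, p i * f i + ε)) ∧
      (∀ w ∈ W, ∑ k, g (w k) ≤ n * (∑ i ∈ I, p i * g i + ε)) := by
  classical
  have hε4 : 0 < ε / 4 := by positivity
  have hq0 : ∀ i ∈ I, 0 < q (r i) := by
    intro i hi
    rw [hq]
    exact Finset.sum_pos (fun k hk => hp k (Finset.mem_filter.1 hk).1)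
      ⟨i, Finset.mem_filter.2 ⟨hi, rfl⟩⟩
  have hqn : ∀ j, 0 ≤ q j := fun j => by
    rw [hq]
    exact Finset.sum_nonneg fun k hk => (hp k (Finset.mem_filter.1 hk).1).le
  have hqs : ∑ j, q j = 1 := by
    rw [← h1, ← Finset.sum_fiberwise I r p]
    exact Finset.sum_congr rfl fun j _ => hq j
  have t1 := tail I p hp h1 (fun i => Real.log (p i)) hε4 (δ := 1 / 10) (by norm_num)
  have t2 := tail I p hp h1 (fun i => Real.log (q (r i))) hε4 (δ := 1 / 10) (by norm_num)
  have t3 := tail I p hp h1 (fun i => - Real.log (q (r i))) hε4 (δ := 1 / 10) (by norm_num)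
  have t4 := tail I p hp h1 f hε4 (δ := 1 / 10) (by norm_num)
  have t5 := tail I p hp h1 g hε4 (δ := 1 / 10) (by norm_num)
  have t6 : ∀ᶠ n : ℕ in atTop, Real.log 4 ≤ n * (ε / 4) := by
    have := (tendsto_natCast_atTop_atTop (R := ℝ)).atTop_mul_const hε4
    exact this.eventually_ge_atTop _
  filter_upwards [t1, t2, t3, t4, t5, t6] with n t1 t2 t3 t4 t5 t6
  set X := Fintype.piFinset fun _ : Fin n => I with hX
  set P : (Fin n → ι) → ℝ := fun w => ∏ k, p (w k) with hP
  have hP0 : ∀ w ∈ X, 0 ≤ P w := fun w hw =>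
    Finset.prod_nonneg fun k _ => (hp _ (Fintype.mem_piFinset.1 hw k)).le
  have hX1 : ∑ w ∈ X, P w = 1 := by
    rw [hX, sum_words I p n, h1, one_pow]
  -- the typical words
  set b : (ι → ℝ) → (Fin n → ι) → Prop := fun F w =>
    n * (∑ i ∈ I, p i * F i + ε / 4) < ∑ k, F (w k) with hb
  set bad : Finset (Fin n → ι) := ((((X.filter (b fun i => Real.log (p i))) ∪
    X.filter (b fun i => Real.log (q (r i)))) ∪ X.filter (b fun i => - Real.log (q (r i)))) ∪
    X.filter (b f)) ∪ X.filter (b g) with hbad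
  have hbadX : bad ⊆ X := by
    intro w hw
    simp only [hbad, Finset.mem_union, Finset.mem_filter] at hw
    tauto
  have hbadP : ∑ w ∈ bad, P w ≤ 1 / 2 := by
    have key : ∀ A B : Finset (Fin n → ι), A ⊆ X → B ⊆ X →
        ∑ w ∈ A ∪ B, P w ≤ ∑ w ∈ A, P w + ∑ w ∈ B, P w := by
      intro A B hA hB
      rw [← Finset.sum_union_inter]
      exact le_add_of_nonneg_right (Finset.sum_nonneg fun w hw =>
        hP0 w (hA (Finset.mem_inter.1 hw).1))
    have s : ∀ F, X.filter (b F) ⊆ X := fun F => Finset.filter_subset _ _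
    have k1 := key _ _ (s fun i => Real.log (p i)) (s fun i => Real.log (q (r i)))
    have k2 := key _ _ (Finset.union_subset (s fun i => Real.log (p i))
      (s fun i => Real.log (q (r i)))) (s fun i => - Real.log (q (r i)))
    have k3 := key _ _ (Finset.union_subset (Finset.union_subset (s fun i => Real.log (p i))
      (s fun i => Real.log (q (r i)))) (s fun i => - Real.log (q (r i)))) (s f)
    have k4 := key _ _ (Finset.union_subset (Finset.union_subset (Finset.union_subset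
      (s fun i => Real.log (p i)) (s fun i => Real.log (q (r i))))
      (s fun i => - Real.log (q (r i)))) (s f)) (s g)
    have t1' : ∑ w ∈ X.filter (b fun i => Real.log (p i)), P w ≤ 1 / 10 := t1
    have t2' : ∑ w ∈ X.filter (b fun i => Real.log (q (r i))), P w ≤ 1 / 10 := t2
    have t3' : ∑ w ∈ X.filter (b fun i => - Real.log (q (r i))), P w ≤ 1 / 10 := t3
    have t4' : ∑ w ∈ X.filter (b f), P w ≤ 1 / 10 := t4
    have t5' : ∑ w ∈ X.filter (b g), P w ≤ 1 / 10 := t5
    linarith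
  set W := X \ bad with hW
  have hWP : 1 / 2 ≤ ∑ w ∈ W, P w := by
    have := Finset.sum_sdiff (f := P) hbadX
    rw [hX1] at this
    linarith
  have hWX : ∀ w ∈ W, w ∈ X := fun w hw => (Finset.mem_sdiff.1 hw).1
  have hWb : ∀ w ∈ W, (∑ k, Real.log (p (w k)) ≤ n * (∑ i ∈ I, p i * Real.log (p i) + ε / 4)) ∧
      (∑ k, Real.log (q (r (w k))) ≤ n * (∑ i ∈ I, p i * Real.log (q (r i)) + ε / 4)) ∧
      (∑ k, - Real.log (q (r (w k))) ≤ n * (∑ i ∈ I, p i * (- Real.log (q (r i))) + ε / 4)) ∧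
      (∑ k, f (w k) ≤ n * (∑ i ∈ I, p i * f i + ε / 4)) ∧
      (∑ k, g (w k) ≤ n * (∑ i ∈ I, p i * g i + ε / 4)) := by
    intro w hw
    rw [hW, Finset.mem_sdiff] at hw
    obtain ⟨h3, h4⟩ := hw
    simp only [hbad, Finset.mem_union, Finset.mem_filter, h3, true_and, hb, not_or, not_lt] at h4
    tauto
  set Q : (Fin n → β) → ℝ := fun y => ∏ k, q (y k) with hQ
  have hQ0 : ∀ y, 0 ≤ Q y := fun y => Finset.prod_nonneg fun k _ => hqn _
  set T : (Fin n → β) → Finset (Fin n → ι) := fun y => W.filter (fun w => (fun i => r (w i)) = y)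
    with hT
  have hTP : ∀ y, ∑ w ∈ T y, P w ≤ Q y := by
    intro y
    have e1 : Q y = ∑ w ∈ Fintype.piFinset (fun k => I.filter fun i => r i = y k), P w := by
      rw [hQ, hP]
      simp only [hq]
      exact Finset.prod_univ_sum (fun k => I.filter fun i => r i = y k) (fun _ i => p i)
    rw [e1]
    refine Finset.sum_le_sum_of_subset_of_nonneg ?_ ?_
    · intro w hw
      simp only [hT, Finset.mem_filter] at hw
      rw [Fintype.mem_piFinset]
      intro k
      exact Finset.mem_filter.2 ⟨Fintype.mem_piFinset.1 (hWX w hw.1) k, congrFun hw.2 k⟩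
    · intro w hw _
      refine hP0 w (Fintype.mem_piFinset.2 fun k => ?_)
      exact (Finset.mem_filter.1 (Fintype.mem_piFinset.1 hw k)).1
  have hQ1 : ∑ y, Q y = 1 := by
    have := sum_words (Finset.univ : Finset β) q n
    rw [Fintype.piFinset_univ, hqs, one_pow] at this
    exact this
  have hWT : ∑ w ∈ W, P w = ∑ y, ∑ w ∈ T y, P w :=
    (Finset.sum_fiberwise W (fun w => fun i => r (w i)) P).symm
  set Y := Finset.univ.filter fun y => Q y / 4 < ∑ w ∈ T y, P w with hY
  have hYP : 1 / 4 ≤ ∑ y ∈ Y, ∑ w ∈ T y, P w := by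
    have e1 := Finset.sum_filter_add_sum_filter_not Finset.univ
      (fun y => Q y / 4 < ∑ w ∈ T y, P w) (fun y => ∑ w ∈ T y, P w)
    have e2 : ∑ y ∈ Finset.univ.filter (fun y => ¬ Q y / 4 < ∑ w ∈ T y, P w), ∑ w ∈ T y, P w ≤
        1 / 4 := by
      calc _ ≤ ∑ y ∈ Finset.univ.filter (fun y => ¬ Q y / 4 < ∑ w ∈ T y, P w), Q y / 4 :=
            Finset.sum_le_sum fun y hy => not_lt.1 (Finset.mem_filter.1 hy).2
        _ ≤ ∑ y, Q y / 4 := Finset.sum_le_sum_of_subset_of_nonneg (Finset.filter_subset _ _)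
            fun y _ _ => div_nonneg (hQ0 y) (by norm_num)
        _ = 1 / 4 := by rw [← Finset.sum_div, hQ1]
    rw [← hWT] at e1
    linarith
  have hTn : ∀ y ∈ Y, ∃ w, w ∈ T y := by
    intro y hy
    have e1 := (Finset.mem_filter.1 hy).2
    by_contra hcon
    push Not at hcon
    rw [Finset.eq_empty_of_forall_notMem hcon, Finset.sum_empty] at e1
    linarith [hQ0 y]
  have hTq : ∀ y, ∀ w ∈ T y, Q y = Real.exp (∑ k, Real.log (q (r (w k)))) := by
    intro y w hw
    simp only [hT, Finset.mem_filter] at hw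
    rw [Real.exp_sum, hQ]
    refine Finset.prod_congr rfl fun k _ => ?_
    rw [Real.exp_log (hq0 _ (Fintype.mem_piFinset.1 (hWX w hw.1) k)), ← congrFun hw.2 k]
  have hn0 : (0 : ℝ) ≤ n := Nat.cast_nonneg n
  have h4 : (4 : ℝ) = Real.exp (Real.log 4) := (Real.exp_log (by norm_num)).symm
  refine ⟨Y, W, fun w hw i => Fintype.mem_piFinset.1 (hWX w hw) i, ?_, ?_, ?_, ?_⟩
  · have e1 : ∀ y ∈ Y, ∑ w ∈ T y, P w ≤ Real.exp (n * (-h2 + ε / 4)) := by
      intro y hy
      obtain ⟨w, hw⟩ := hTn y hy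
      refine (hTP y).trans ?_
      rw [hTq y w hw]
      refine Real.exp_le_exp.2 ?_
      have := (hWb w (Finset.mem_filter.1 hw).1).2.1
      rw [hh2, neg_neg]
      exact this
    have e2 : 1 / 4 ≤ Y.card * Real.exp (n * (-h2 + ε / 4)) := by
      refine hYP.trans ((Finset.sum_le_sum e1).trans ?_)
      rw [Finset.sum_const, nsmul_eq_mul]
    have e3 : Real.exp (n * (h2 - ε)) * Real.exp (n * (-h2 + ε / 4)) ≤ 1 / 4 := by
      have e5 : Real.exp (n * (h2 - ε)) * Real.exp (n * (-h2 + ε / 4)) ≤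
          (Real.exp (Real.log 4))⁻¹ := by
        rw [← Real.exp_add, ← Real.exp_neg]
        refine Real.exp_le_exp.2 ?_
        have : (n : ℝ) * (h2 - ε) + n * (-h2 + ε / 4) = - 3 * (n * (ε / 4)) := by ring
        rw [this]
        nlinarith [mul_nonneg hn0 hε4.le]
      rwa [← h4, ← one_div] at e5
    exact le_of_mul_le_mul_right (e3.trans e2) (Real.exp_pos _)
  · intro y hy
    obtain ⟨w, hw⟩ := hTn y hy
    have e0 := (Finset.mem_filter.1 hy).2
    have e1 : ∀ w ∈ T y, P w ≤ Real.exp (n * (-h + ε / 4)) := by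
      intro w hw
      have e2 : P w = Real.exp (∑ k, Real.log (p (w k))) := by
        rw [Real.exp_sum, hP]
        refine Finset.prod_congr rfl fun k _ => ?_
        rw [Real.exp_log (hp _ (Fintype.mem_piFinset.1 (hWX w (Finset.mem_filter.1 hw).1) k))]
      rw [e2]
      refine Real.exp_le_exp.2 ?_
      have := (hWb w (Finset.mem_filter.1 hw).1).1
      rw [hh, neg_neg]
      exact this
    have e2 : Q y / 4 ≤ (T y).card * Real.exp (n * (-h + ε / 4)) := by
      refine e0.le.trans ((Finset.sum_le_sum e1).trans ?_)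
      rw [Finset.sum_const, nsmul_eq_mul]
    have e3 : Real.exp (n * (-h2 - ε / 4)) ≤ Q y := by
      rw [hTq y w hw]
      refine Real.exp_le_exp.2 ?_
      have := (hWb w (Finset.mem_filter.1 hw).1).2.2.1
      simp only [mul_neg, Finset.sum_neg_distrib] at this
      rw [← hh2] at this
      linarith
    have e4 : Real.exp (n * (h - h2 - ε)) * Real.exp (n * (-h + ε / 4)) ≤ Q y / 4 := by
      have e5 : Real.exp (n * (h - h2 - ε)) * Real.exp (n * (-h + ε / 4)) *
          Real.exp (Real.log 4) ≤ Real.exp (n * (-h2 - ε / 4)) := by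
        rw [← Real.exp_add, ← Real.exp_add]
        refine Real.exp_le_exp.2 ?_
        have : (n : ℝ) * (h - h2 - ε) + n * (-h + ε / 4) + Real.log 4 =
          n * (-h2 - ε / 4) - 2 * (n * (ε / 4)) + Real.log 4 := by ring
        rw [this]
        nlinarith [mul_nonneg hn0 hε4.le]
      rw [← h4] at e5
      linarith
    exact le_of_mul_le_mul_right (e4.trans e2) (Real.exp_pos _)
  · intro w hw
    refine (hWb w hw).2.2.2.1.trans ?_
    exact mul_le_mul_of_nonneg_left (by linarith) hn0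
  · intro w hw
    refine (hWb w hw).2.2.2.2.trans ?_
    exact mul_le_mul_of_nonneg_left (by linarith) hn0

end gen

theorem TYP : S_TYP := by
  intro α β _ _ _ _ P Q I p hp h1 ε hε
  set q : β → ℝ := fun j => ∑ k ∈ rowCells I j, p (k, j) with hq
  have hq' : ∀ j, q j = ∑ i ∈ I.filter (fun i => i.2 = j), p i := by
    intro j
    refine Finset.sum_bij (fun k _ => (k, j)) ?_ ?_ ?_ ?_
    · intro k hk
      exact Finset.mem_filter.2 ⟨mem_rowCells.1 hk, rfl⟩
    · intro a _ b _ hab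
      exact congrArg Prod.fst hab
    · rintro ⟨k, j'⟩ hk
      rw [Finset.mem_filter] at hk
      obtain ⟨hk1, rfl⟩ := hk
      exact ⟨k, mem_rowCells.2 hk1, rfl⟩
    · intro k _
      rfl
  have hh2 : -∑ j ∈ usedRows I, q j * Real.log (q j) =
      -∑ i ∈ I, p i * Real.log (q i.2) := by
    congr 1
    rw [← Finset.sum_fiberwise_of_maps_to (s := I) (t := usedRows I) (g := Prod.snd)
      (fun i hi => Finset.mem_image_of_mem _ hi)]
    refine Finset.sum_congr rfl fun j _ => ?_
    rw [hq' j, Finset.sum_mul]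
    refine Finset.sum_congr rfl fun i hi => ?_
    rw [(Finset.mem_filter.1 hi).2, hq' j]
  have key := typical I p hp h1 Prod.snd q hq' (fun i => - Real.log (P.c i.1))
    (fun i => - Real.log (Q.c i.2)) _ _ rfl hh2 hε
  filter_upwards [key] with n hn
  obtain ⟨Y, W, h3, h4, h5, h6, h7⟩ := hn
  refine ⟨Y, W, h3, h4, ?_, ?_, ?_⟩
  · intro y hy
    exact h5 y hy
  · intro w hw
    have h8 := h6 w hw
    have h9 : ∏ i, P.c (w i).1 = Real.exp (∑ i, Real.log (P.c (w i).1)) := by
      rw [Real.exp_sum]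
      exact Finset.prod_congr rfl fun k _ => (Real.exp_log (P.pos _)).symm
    rw [h9]
    refine Real.exp_le_exp.2 ?_
    simp only [mul_neg, Finset.sum_neg_distrib] at h8
    linarith
  · intro w hw
    have h8 := h7 w hw
    have h9 : ∏ i, Q.c (w i).2 = Real.exp (∑ i, Real.log (Q.c (w i).2)) := by
      rw [Real.exp_sum]
      exact Finset.prod_congr rfl fun k _ => (Real.exp_log (Q.pos _)).symm
    rw [h9]
    refine Real.exp_le_exp.2 ?_
    simp only [mul_neg, Finset.sum_neg_distrib] at h8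
    linarith

end Pool.Agent.H891.Carp
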