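import Pool.Agent.H891.Carpet.Cov

/-!
The upper bound (U) for the box dimension.
-/

namespace Pool.Agent.H891.Carp

open Set MeasureTheory Filter Topology
open scoped ENNReal NNReal

theorem U : S_U := by
  intro α β _ _ _ _ P Q I o o' F h t1 t2 s1 s2 ht1 ht2 hs1 hs2 e1 e2 e3 e4
  obtain ⟨κ, ρ, k1, k2, r1, r2, hb, hb'⟩ := bounds₂ P Q
  set s := max s1 s2 with hs
  have hs0 : 0 ≤ s := (ht1.trans hs1).trans (le_max_left _ _)
  set C : ℝ := κ ^ (-s1) + κ ^ (-s2) with hC
  have hC1 : 1 ≤ C := by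
    have h1 : 1 ≤ κ ^ (-s1) :=
      Real.one_le_rpow_of_pos_of_le_one_of_nonpos k1 k2.le (by linarith)
    have h2 : 0 ≤ κ ^ (-s2) := by positivity
    linarith
  set X : ℝ → ℝ := fun r => C * (2 * (r / 2) ^ (-s)) with hX
  have hcov : ∀ r : ℝ, 0 < r → r < 1 → (coverNum r F : ℝ) ≤ X r ∧ 1 ≤ X r := by
    intro r hr0 hr1
    obtain ⟨n, hn⟩ := exists_pow_lt_of_lt_one (show 0 < r / 2 by positivity) r2
    have hkr : κ * (r / 2) < 1 := by nlinarith
    obtain ⟨S, hS1, hS2⟩ := cov2 P Q I o o' F h t1 t2 s1 s2 κ ρ ht1 ht2 hs1 hs2 k1 k2 r1 hb hb'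
      e1 e2 e3 e4 n (r / 2) (r / 2) hn.le hn.le hkr hkr
    have h1 : coverNum r F ≤ S.card :=
      coverNum_le S (fun q => Rect o o' q.1 q.2 (r / 2) (r / 2)) r F hS1
        (fun q _ => ediam_rect h.ne _ _ _ _ _ (by linarith))
    have h2 : (r / 2) ^ (-t1) * (r / 2) ^ (-(s1 - t1)) ≤ (r / 2) ^ (-s) := by
      rw [← Real.rpow_add (by positivity)]
      apply Real.rpow_le_rpow_of_exponent_ge (by positivity) (by linarith)
      have := le_max_left s1 s2
      linarith
    have h3 : (r / 2) ^ (-(s2 - t2)) * (r / 2) ^ (-t2) ≤ (r / 2) ^ (-s) := by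
      rw [← Real.rpow_add (by positivity)]
      apply Real.rpow_le_rpow_of_exponent_ge (by positivity) (by linarith)
      have := le_max_right s1 s2
      linarith
    constructor
    · calc (coverNum r F : ℝ) ≤ S.card := by exact_mod_cast h1
        _ ≤ _ := hS2
        _ ≤ C * ((r / 2) ^ (-s) + (r / 2) ^ (-s)) := by
            apply mul_le_mul_of_nonneg_left (add_le_add h2 h3) (by linarith)
        _ = X r := by rw [hX]; ring
    · have h4 : 1 ≤ (r / 2) ^ (-s) :=
        Real.one_le_rpow_of_pos_of_le_one_of_nonpos (by positivity) (by linarith) (by linarith)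
      rw [hX]
      nlinarith
  have hlim : Tendsto (fun r : ℝ => ENNReal.ofReal
      ((Real.log (2 * C) + s * Real.log 2) / (-Real.log r) + s)) (𝓝[>] 0)
      (𝓝 (ENNReal.ofReal s)) := by
    apply ENNReal.tendsto_ofReal
    have h1 : Tendsto (fun r : ℝ => -Real.log r) (𝓝[>] 0) atTop :=
      tendsto_neg_atBot_atTop.comp Real.tendsto_log_nhdsGT_zero
    have h2 := (h1.const_div_atTop (Real.log (2 * C) + s * Real.log 2)).add_const s
    simpa using h2
  rw [upperBoxDim, ← hlim.limsup_eq]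
  apply limsup_le_limsup
  · have hmem : Ioo (0 : ℝ) 1 ∈ 𝓝[>] (0 : ℝ) := Ioo_mem_nhdsGT one_pos
    filter_upwards [hmem] with r hr
    obtain ⟨h1, h2⟩ := hcov r hr.1 hr.2
    apply ENNReal.ofReal_le_ofReal
    have hlog : 0 < -Real.log r := by
      have := Real.log_neg hr.1 hr.2
      linarith
    rw [div_le_iff₀ hlog]
    have h3 : Real.log (coverNum r F) ≤ Real.log (X r) := by
      rcases Nat.eq_zero_or_pos (coverNum r F) with h0 | h0
      · rw [h0]
        simp only [CharP.cast_eq_zero, Real.log_zero]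
        exact Real.log_nonneg h2
      · exact Real.log_le_log (by exact_mod_cast h0) h1
    refine h3.trans (le_of_eq ?_)
    have hr2 : (0 : ℝ) < r / 2 := by have := hr.1; positivity
    rw [hX]
    simp only
    rw [show C * (2 * (r / 2) ^ (-s)) = (2 * C) * (r / 2) ^ (-s) by ring,
      Real.log_mul (by positivity) (by positivity), Real.log_rpow hr2,
      Real.log_div hr.1.ne' (by norm_num), add_mul, div_mul_cancel₀ _ hlog.ne']
    ring
  · isBoundedDefault
  · isBoundedDefault

end Pool.Agent.H891.Carp
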